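import Pool.Agent.H98.FJ.Closed

/-!
# The extension property
-/

set_option autoImplicit false

namespace Pool.Agent.H98.FJ

/-- virtually cyclic groups: some cyclic subgroup has finite index -/
def VirtuallyCyclic (V : Type) [Group V] : Prop := ∃ v : V, (Subgroup.zpowers v).FiniteIndex

/-- The extension property: if `p : G → Q` is surjective, `Q` is in the class and the preimages of the virtually cyclic
subgroups of `Q` are in the class then `G` is in the class. -/
def Extension (C : (G : Type) → [Group G] → Prop) : Prop :=
  ∀ (G Q : Type) [Group G] [Group Q] (p : G →* Q), Function.Surjective p → C Q →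
    (∀ V : Subgroup Q, VirtuallyCyclic V → C (V.comap p)) → C G

/-- the action on the free group by permutations of the basis -/
def permAct {Q Ω : Type} [Group Q] (σ : Q →* Equiv.Perm Ω) : Q →* MulAut (FreeGroup Ω) where
  toFun q := FreeGroup.freeGroupCongr (σ q)
  map_one' := by
    rw [map_one]
    ext x
    simp [FreeGroup.freeGroupCongr]
  map_mul' a b := by
    rw [map_mul]
    ext x
    simp [FreeGroup.freeGroupCongr, FreeGroup.map.comp]

theorem permAct_of {Q Ω : Type} [Group Q] (σ : Q →* Equiv.Perm Ω) (q : Q) (x : Ω) :
    permAct σ q (FreeGroup.of x) = FreeGroup.of (σ q x) := by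
  simp [permAct, FreeGroup.freeGroupCongr]

end Pool.Agent.H98.FJ
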