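import Pool.Agent.H98.FJ.Closed

/-!
# Directed colimits of groups

Module H98 PA COL (MP_2a547c_gt). Complete proof, for `h : IsColimit f φ`:

* `eq_iff`: if `φ i x = φ i y` then `f i j hij x = f i j hij y` for some `j`: apply `h.ker` to `x * y⁻¹`.
* `exists_lift`: define `F y := ψ i x` for a choice of `(i, x)` with `φ i x = y` (`h.surj`). Independence of the choice:
  if `φ i x = φ j y` take `k ≥ i, j` (`h.directed`), then `f i k x` and `f j k y` have the same image in `H`, so they
  have the same image in `G l` for some `l ≥ k`, and `ψ l` of it is `ψ i x` and `ψ j y` (`h.map_comp`, `hψ`). It is a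
  homomorphism: represent two elements at a common stage.
* `finite_lift`: induction on the finite set (or choose lifts of the elements of `S \ {1}` and go to a common stage; the
  index set is directed and nonempty). `finite_kill`: the same.
* `injective`: if all `f i j` are injective then `φ i` is injective (by `h.ker`).
* `const`, `union`: direct.
* `tr step i j h`: the transition maps of a sequence, `tr_self`, `tr_succ`, `tr_comp` by `Nat.leRecOn` lemmas and induction.
* `isColimit_seq`: direct from the `tr` lemmas (`compat` by induction on `j` with `Nat.le_induction`).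
* `exists_seq`: existence of the colimit of a sequence. Take `D = (∀ i, L i) ⧸ N`, `N` = the normal subgroup of the
  families which are 1 for all large `i`; `δ i x` = class of the family `j ↦ tr i j x` for `i ≤ j`, 1 for `j < i`
  (a homomorphism modulo `N`; `δ (i+1) (step i x) = δ i x`; `δ i x = 1` iff `tr i j x = 1` for some `j`). `U` = the union
  (supremum) of the ranges of the `δ i`, a directed union of subgroups of `D`; every element of `U` is `δ i x` for some
  `i`, `x` (`Subgroup.mem_iSup_of_directed`).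
* `exists_germ`: the same construction for an arbitrary directed system (`δ i x` = class of the family which is
  `f i j hij x` if `i ≤ j` and 1 otherwise; classical decidability of `≤`); `exists_seq` can use it.
-/

set_option autoImplicit false

namespace Pool.Agent.H98.FJ

namespace IsColimit

variable {ι : Type} [Preorder ι] {G : ι → Type} [∀ i, Group (G i)]
  {f : ∀ i j, i ≤ j → (G i →* G j)} {H : Type} [Group H] {φ : ∀ i, G i →* H}

theorem eq_iff' (h : IsColimit f φ) (i : ι) (x y : G i) (hxy : φ i x = φ i y) :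
    ∃ (j : ι) (hij : i ≤ j), f i j hij x = f i j hij y := by
  obtain ⟨j, hij, hj⟩ := h.ker i (x * y⁻¹) (by rw [map_mul, map_inv, hxy, mul_inv_cancel])
  refine ⟨j, hij, ?_⟩
  rw [map_mul, map_inv, mul_inv_eq_one] at hj
  exact hj

theorem eq_two (h : IsColimit f φ) (i j : ι) (x : G i) (y : G j) (hxy : φ i x = φ j y) :
    ∃ (l : ι) (hi : i ≤ l) (hj : j ≤ l), f i l hi x = f j l hj y := by
  obtain ⟨k, hik, hjk⟩ := h.directed i j
  obtain ⟨l, hkl, hl⟩ := h.eq_iff' k (f i k hik x) (f j k hjk y)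
    (by rw [h.compat, h.compat, hxy])
  refine ⟨l, hik.trans hkl, hjk.trans hkl, ?_⟩
  rw [← h.map_comp i k l hik hkl, ← h.map_comp j k l hjk hkl, hl]

theorem exists_lift (h : IsColimit f φ) {K : Type} [Group K] (ψ : ∀ i, G i →* K)
    (hψ : ∀ i j (hij : i ≤ j) (x : G i), ψ j (f i j hij x) = ψ i x) :
    ∃ F : H →* K, ∀ i (x : G i), F (φ i x) = ψ i x := by
  choose ix xx hx using h.surj
  have key : ∀ i (x : G i), ψ (ix (φ i x)) (xx (φ i x)) = ψ i x := by
    intro i x
    obtain ⟨l, h1, h2, h3⟩ := h.eq_two _ _ (xx (φ i x)) x (hx (φ i x))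
    rw [← hψ _ l h1, ← hψ _ l h2, h3]
  refine ⟨MonoidHom.mk' (fun y => ψ (ix y) (xx y)) ?_, key⟩
  intro y1 y2
  obtain ⟨k, h1, h2⟩ := h.directed (ix y1) (ix y2)
  have e1 : φ k (f _ k h1 (xx y1)) = y1 := by rw [h.compat, hx]
  have e2 : φ k (f _ k h2 (xx y2)) = y2 := by rw [h.compat, hx]
  have e3 : φ k (f _ k h1 (xx y1) * f _ k h2 (xx y2)) = y1 * y2 := by rw [map_mul, e1, e2]
  have k1 := key k (f _ k h1 (xx y1))
  have k2 := key k (f _ k h2 (xx y2))
  have k3 := key k (f _ k h1 (xx y1) * f _ k h2 (xx y2))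
  rw [e1] at k1
  rw [e2] at k2
  rw [e3] at k3
  show ψ (ix (y1 * y2)) (xx (y1 * y2)) = ψ (ix y1) (xx y1) * ψ (ix y2) (xx y2)
  rw [k1, k2, k3, map_mul]

theorem hom_ext (h : IsColimit f φ) {K : Type} [Group K] {F F' : H →* K}
    (hF : ∀ i (x : G i), F (φ i x) = F' (φ i x)) : F = F' := by
  ext y
  obtain ⟨i, x, rfl⟩ := h.surj y
  exact hF i x

theorem finite_lift (h : IsColimit f φ) (S : Set H) (hS : S.Finite) :
    ∃ (i : ι) (σ : H → G i), σ 1 = 1 ∧ ∀ s ∈ S, φ i (σ s) = s := by
  classical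
  refine Set.Finite.induction_on
    (motive := fun S _ => ∃ (i : ι) (σ : H → G i), σ 1 = 1 ∧ ∀ s ∈ S, φ i (σ s) = s) S hS ?_ ?_
  · obtain ⟨i⟩ := h.nonempty
    exact ⟨i, fun _ => 1, rfl, fun s hs => absurd hs (Set.notMem_empty s)⟩
  · rintro a S ha _ ⟨i, σ, h1, h2⟩
    by_cases ha1 : a = 1
    · refine ⟨i, σ, h1, fun s hs => ?_⟩
      rcases Set.mem_insert_iff.1 hs with rfl | hs
      · rw [ha1, h1, map_one]
      · exact h2 s hs
    · obtain ⟨j, x, hx⟩ := h.surj a
      obtain ⟨k, hik, hjk⟩ := h.directed i j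
      refine ⟨k, fun y => if y = a then f j k hjk x else f i k hik (σ y), ?_, fun s hs => ?_⟩
      · show (if (1 : H) = a then f j k hjk x else f i k hik (σ 1)) = 1
        rw [if_neg (Ne.symm ha1), h1, map_one]
      · show φ k (if s = a then f j k hjk x else f i k hik (σ s)) = s
        by_cases hsa : s = a
        · rw [if_pos hsa, h.compat, hx, hsa]
        · rw [if_neg hsa, h.compat]
          exact h2 s ((Set.mem_insert_iff.1 hs).resolve_left hsa)

theorem finite_kill (h : IsColimit f φ) (i : ι) (S : Set (G i)) (hS : S.Finite)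
    (h1 : ∀ s ∈ S, φ i s = 1) : ∃ (j : ι) (hij : i ≤ j), ∀ s ∈ S, f i j hij s = 1 := by
  refine Set.Finite.induction_on
    (motive := fun S _ => (∀ s ∈ S, φ i s = 1) →
      ∃ (j : ι) (hij : i ≤ j), ∀ s ∈ S, f i j hij s = 1) S hS ?_ ?_ h1
  · intro _
    exact ⟨i, le_refl i, fun s hs => absurd hs (Set.notMem_empty s)⟩
  · intro a S _ _ ih h2
    obtain ⟨j, hij, hj⟩ := ih fun s hs => h2 s (Set.mem_insert_of_mem _ hs)
    obtain ⟨j', hij', hj'⟩ := h.ker i a (h2 a (Set.mem_insert _ _))
    obtain ⟨k, hjk, hjk'⟩ := h.directed j j'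
    refine ⟨k, hij.trans hjk, fun s hs => ?_⟩
    rcases Set.mem_insert_iff.1 hs with rfl | hs
    · rw [← h.map_comp i j' k hij' hjk', hj', map_one]
    · rw [← h.map_comp i j k hij hjk, hj s hs, map_one]

theorem injective (h : IsColimit f φ) (hf : ∀ i j (hij : i ≤ j), Function.Injective (f i j hij))
    (i : ι) : Function.Injective (φ i) := by
  rw [injective_iff_map_eq_one]
  intro x hx
  obtain ⟨j, hij, hj⟩ := h.ker i x hx
  exact (injective_iff_map_eq_one _).1 (hf i j hij) x hj

end IsColimit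

section germ

variable {ι : Type} [Preorder ι] [Nonempty ι] {G : ι → Type} [∀ i, Group (G i)]

/-- the families which are eventually trivial -/
def germN (hι : ∀ i j : ι, ∃ k, i ≤ k ∧ j ≤ k) : Subgroup (∀ i, G i) where
  carrier := {x | ∃ i0, ∀ j, i0 ≤ j → x j = 1}
  one_mem' := by
    obtain ⟨i⟩ := (inferInstance : Nonempty ι)
    exact ⟨i, fun j _ => rfl⟩
  mul_mem' := by
    rintro x y ⟨i, hi⟩ ⟨j, hj⟩
    obtain ⟨k, hik, hjk⟩ := hι i j
    refine ⟨k, fun l hl => ?_⟩
    rw [Pi.mul_apply, hi l (hik.trans hl), hj l (hjk.trans hl), one_mul]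
  inv_mem' := by
    rintro x ⟨i, hi⟩
    exact ⟨i, fun l hl => by rw [Pi.inv_apply, hi l hl, inv_one]⟩

theorem mem_germN (hι : ∀ i j : ι, ∃ k, i ≤ k ∧ j ≤ k) (x : ∀ i, G i) :
    x ∈ germN hι ↔ ∃ i0, ∀ j, i0 ≤ j → x j = 1 := Iff.rfl

theorem germN_normal (hι : ∀ i j : ι, ∃ k, i ≤ k ∧ j ≤ k) :
    (germN (G := G) hι).Normal := by
  constructor
  rintro x hx g
  rw [mem_germN] at hx ⊢
  obtain ⟨i, hi⟩ := hx
  refine ⟨i, fun j hj => ?_⟩
  rw [Pi.mul_apply, Pi.mul_apply, hi j hj, Pi.inv_apply, mul_one, mul_inv_cancel]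

open Classical in
/-- the family of the images of an element -/
noncomputable def germF (f : ∀ i j, i ≤ j → (G i →* G j)) (i : ι) : G i →* ∀ j, G j :=
  MonoidHom.pi fun j => if h : i ≤ j then f i j h else 1

open Classical in
theorem germF_pos (f : ∀ i j, i ≤ j → (G i →* G j)) (i j : ι) (h : i ≤ j) (x : G i) :
    germF f i x j = f i j h x := by
  show (if h : i ≤ j then f i j h else 1 : G i →* G j) x = f i j h x
  rw [dif_pos h]

end germ

/-- some group which receives a directed system and detects the elements which survive: the group of families modulo the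
families which are eventually trivial (eventually: for all `j ≥ i0`, for some `i0`) -/
theorem exists_germ {ι : Type} [Preorder ι] [Nonempty ι] (hι : ∀ i j : ι, ∃ k, i ≤ k ∧ j ≤ k)
    {G : ι → Type} [∀ i, Group (G i)] (f : ∀ i j, i ≤ j → (G i →* G j))
    (f_id : ∀ (i : ι) (h : i ≤ i) (x : G i), f i i h x = x)
    (f_comp : ∀ (i j k : ι) (hij : i ≤ j) (hjk : j ≤ k) (hik : i ≤ k) (x : G i),
      f j k hjk (f i j hij x) = f i k hik x) :
    ∃ (D : Type) (_ : Group D) (δ : ∀ i, G i →* D),
    (∀ i j (hij : i ≤ j) (x : G i), δ j (f i j hij x) = δ i x) ∧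
    ∀ i (x : G i), δ i x = 1 → ∃ (j : ι) (hij : i ≤ j), f i j hij x = 1 := by
  have hN := germN_normal (G := G) hι
  refine ⟨(∀ i, G i) ⧸ germN (G := G) hι, inferInstance,
    fun i => (QuotientGroup.mk' (germN hι)).comp (germF f i), ?_, ?_⟩
  · intro i j hij x
    show QuotientGroup.mk' (germN hι) (germF f j (f i j hij x)) =
      QuotientGroup.mk' (germN hι) (germF f i x)
    rw [QuotientGroup.mk'_apply, QuotientGroup.mk'_apply, QuotientGroup.eq, mem_germN]
    refine ⟨j, fun k hk => ?_⟩
    rw [Pi.mul_apply, Pi.inv_apply, germF_pos f j k hk, germF_pos f i k (hij.trans hk),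
      f_comp i j k hij hk (hij.trans hk), inv_mul_cancel]
  · intro i x hx
    have hx' : QuotientGroup.mk' (germN hι) (germF f i x) = 1 := hx
    rw [QuotientGroup.mk'_apply, QuotientGroup.eq_one_iff, mem_germN] at hx'
    obtain ⟨i0, h0⟩ := hx'
    obtain ⟨k, hik, h0k⟩ := hι i i0
    refine ⟨k, hik, ?_⟩
    rw [← germF_pos f i k hik]
    exact h0 k h0k

/-- a constant system -/
theorem isColimit_const (ι : Type) [Preorder ι] [Nonempty ι] (hι : ∀ i j : ι, ∃ k, i ≤ k ∧ j ≤ k)
    (H : Type) [Group H] :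
    IsColimit (ι := ι) (G := fun _ => H) (fun _ _ _ => MonoidHom.id H) (fun _ => MonoidHom.id H) where
  nonempty := inferInstance
  directed := hι
  map_id _ _ _ := rfl
  map_comp _ _ _ _ _ _ _ := rfl
  compat _ _ _ _ := rfl
  surj y := by
    obtain ⟨i⟩ := (inferInstance : Nonempty ι)
    exact ⟨i, y, rfl⟩
  ker i x h := ⟨i, le_refl i, h⟩

/-- a directed union of subgroups -/
theorem isColimit_union {ι : Type} [Preorder ι] [Nonempty ι] (hι : ∀ i j : ι, ∃ k, i ≤ k ∧ j ≤ k)
    {G : Type} [Group G] (S : ι → Subgroup G) (mono : ∀ i j, i ≤ j → S i ≤ S j)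
    (hS : ∀ g : G, ∃ i, g ∈ S i) :
    IsColimit (ι := ι) (G := fun i => S i) (fun i j h => Subgroup.inclusion (mono i j h))
      (fun i => (S i).subtype) where
  nonempty := inferInstance
  directed := hι
  map_id _ _ _ := rfl
  map_comp _ _ _ _ _ _ _ := rfl
  compat _ _ _ _ := rfl
  surj y := by
    obtain ⟨i, hi⟩ := hS y
    exact ⟨i, ⟨y, hi⟩, rfl⟩
  ker i x h := ⟨i, le_refl i, Subtype.ext h⟩

section seq

variable {L : ℕ → Type} [∀ i, Group (L i)]

/-- the transition maps of a sequence of groups -/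
def tr (step : ∀ i, L i →* L (i + 1)) (i j : ℕ) (h : i ≤ j) : L i →* L j :=
  Nat.leRecOn (C := fun k => (L i →* L k)) h (fun {k} g => (step k).comp g) (MonoidHom.id (L i))

theorem tr_self (step : ∀ i, L i →* L (i + 1)) (i : ℕ) (h : i ≤ i) (x : L i) :
    tr step i i h x = x := by
  unfold tr
  rw [Nat.leRecOn_self]
  rfl

theorem tr_succ (step : ∀ i, L i →* L (i + 1)) (i j : ℕ) (h : i ≤ j) (h' : i ≤ j + 1) (x : L i) :
    tr step i (j + 1) h' x = step j (tr step i j h x) := by
  unfold tr
  rw [Nat.leRecOn_succ h]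
  rfl

theorem tr_comp (step : ∀ i, L i →* L (i + 1)) (i j k : ℕ) (hij : i ≤ j) (hjk : j ≤ k)
    (hik : i ≤ k) (x : L i) : tr step j k hjk (tr step i j hij x) = tr step i k hik x := by
  induction k, hjk using Nat.le_induction with
  | base => rw [tr_self]
  | succ k hjk ih => rw [tr_succ step j k hjk, tr_succ step i k (hij.trans hjk), ih]

theorem tr_succ_left (step : ∀ i, L i →* L (i + 1)) (i j : ℕ) (h : i + 1 ≤ j) (h' : i ≤ j)
    (x : L i) : tr step i j h' x = tr step (i + 1) j h (step i x) := by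
  rw [← tr_comp step i (i + 1) j (Nat.le_succ i) h h', tr_succ step i i (le_refl i), tr_self]

theorem isColimit_seq (step : ∀ i, L i →* L (i + 1)) {H : Type} [Group H] (φ : ∀ i, L i →* H)
    (compat : ∀ i (x : L i), φ (i + 1) (step i x) = φ i x) (surj : ∀ y : H, ∃ i x, φ i x = y)
    (ker : ∀ i (x : L i), φ i x = 1 → ∃ (j : ℕ) (h : i ≤ j), tr step i j h x = 1) :
    IsColimit (tr step) φ where
  nonempty := ⟨0⟩
  directed i j := ⟨max i j, le_max_left i j, le_max_right i j⟩
  map_id i h x := tr_self step i h x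
  map_comp i j k hij hjk hik x := tr_comp step i j k hij hjk hik x
  compat i j h x := by
    induction j, h using Nat.le_induction with
    | base => rw [tr_self]
    | succ j hj ih => rw [tr_succ step i j hj, compat, ih]
  surj := surj
  ker := ker

theorem exists_seq (step : ∀ i, L i →* L (i + 1)) : ∃ (U : Type) (_ : Group U)
    (δ : ∀ i, L i →* U), IsColimit (tr step) δ := by
  obtain ⟨D, hD, δ, h1, h2⟩ := exists_germ (ι := ℕ) (G := L)
    (fun i j => ⟨max i j, le_max_left i j, le_max_right i j⟩) (tr step) (tr_self step)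
    (tr_comp step)
  have hmono : ∀ i j : ℕ, i ≤ j → (δ i).range ≤ (δ j).range := by
    rintro i j hij _ ⟨x, rfl⟩
    exact ⟨tr step i j hij x, h1 i j hij x⟩
  have hdir : Directed (· ≤ ·) fun i => (δ i).range := fun i j =>
    ⟨max i j, hmono _ _ (le_max_left i j), hmono _ _ (le_max_right i j)⟩
  refine ⟨(⨆ i, (δ i).range : Subgroup D), inferInstance, fun i => (δ i).codRestrict _
    (fun x => Subgroup.mem_iSup_of_mem i ⟨x, rfl⟩), isColimit_seq step _ ?_ ?_ ?_⟩
  · intro i x
    refine Subtype.ext ?_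
    show δ (i + 1) (step i x) = δ i x
    have h3 := h1 i (i + 1) (Nat.le_succ i) x
    rwa [tr_succ step i i (le_refl i), tr_self] at h3
  · rintro ⟨y, hy⟩
    obtain ⟨i, x, hx⟩ := (Subgroup.mem_iSup_of_directed hdir).1 hy
    exact ⟨i, x, Subtype.ext hx⟩
  · intro i x hx
    exact h2 i x (congrArg Subtype.val hx)

end seq

end Pool.Agent.H98.FJ
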