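import Pool.Agent.H98.FJ.P.Ext0

/-!
# Semidirect products of free groups with the integers

Module H98 PA EXTI (MP_2a547c_gt). Complete proof:

(1) `freeGroup_mem`: `freeGroupEquivCoprodI : FreeGroup ι ≃* Monoid.CoprodI fun _ : ι => FreeGroup Unit`, and
    `FreeGroup Unit` is infinite cyclic; use `hC.coprodI`, `hC.of_injective`, `hC.int`.
(2) `fixed_or_free` (auxiliary, state it as you like): let `τ` be a permutation of `Ω` and `K` a set of points with
    infinite orbits such that every point of `Ω` is either fixed or of the form `τ^n k` for a unique pair `(n, k)`, `k ∈ K`.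
    Then `FreeGroup Ω ⋊ ℤ` is in the class:
    consider `T = Monoid.Coprod (FreeGroup {ω // τ ω = ω} × Multiplicative ℤ) (FreeGroup K)`, which is in the class (use
    `hC.coprod` with index type `Bool`, or replace `Monoid.Coprod` by `Monoid.CoprodI` over `Bool` of a family defined by
    cases; the product is a `pi` over `Bool`, up to isomorphism). Map `FreeGroup Ω → T` : a fixed `ω` goes to
    `(ω, 1)`, the point `τ^n k` goes to `t^n k t^{-n}` with `t = (1, ofAdd 1)`; together with `ofAdd n ↦ t^n` this is a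
    homomorphism `α` on the semidirect product (`SemidirectProduct.lift`). Left inverse `β : T → FreeGroup Ω ⋊ ℤ` :
    `(ω, 1) ↦ inl (of ω)`, `t ↦ inr (ofAdd 1)` (they commute as `ω` is fixed; `MonoidHom.noncommCoprod`), `k ↦ inl (of k)`.
    `β ∘ α = id` on generators, so `α` is injective.
(3) `int_mem`: for every permutation `τ` of `Ω`, `FreeGroup Ω ⋊ ℤ` (action through powers of `τ = σ (ofAdd 1)`) is in the
    class. It is the directed union over the finite subsets `s` of `Ω` of the subgroups of the elements whose left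
    component lies in the subgroup generated by `of '' Ω_s`, `Ω_s` = union of the orbits of the points of `s` (`hC.union`).
    This subgroup maps injectively to `FreeGroup Ω_s ⋊ ℤ` (retraction of `FreeGroup Ω` onto `FreeGroup Ω_s` killing the
    other points). In `Ω_s` there are finitely many orbits, so there is `N ≥ 1` such that `τ^N` fixes every point of every
    finite orbit. The elements with right component in `N ℤ` form a subgroup of finite index (preimage under `rightHom` of
    a subgroup of finite index of `Multiplicative ℤ`), isomorphic to `FreeGroup Ω_s ⋊ ℤ` for the permutation `τ^N`. For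
    `τ^N` every point is fixed or has an infinite orbit: apply (2) (choose representatives of the infinite orbits).
-/

set_option autoImplicit false

namespace Pool.Agent.H98.FJ

variable {C : (G : Type) → [Group G] → Prop}

theorem freeGroup_mem (hC : Inherits C) (Ω : Type) : C (FreeGroup Ω) := by
  have h1 : C (FreeGroup Unit) :=
    hC.iso _ _ (FreeGroup.mulEquivIntOfUnique : FreeGroup Unit ≃* Multiplicative ℤ).symm hC.int
  exact hC.iso _ _ (freeGroupEquivCoprodI (ι := Ω)).symm (hC.coprodI fun _ => h1)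

private theorem exti_prod (hC : Inherits C) {W : Type} [Group W] (h : C W) : C (W × W) := by
  let φ : W × W →* (Bool → W) :=
    { toFun := fun x b => cond b x.1 x.2
      map_one' := by
        funext b
        cases b <;> rfl
      map_mul' := fun x y => by
        funext b
        cases b <;> rfl }
  refine hC.of_injective φ ?_ (hC.pi Bool inferInstance (fun _ => W) fun _ => h)
  intro x y hxy
  have h1 := congrFun hxy true
  have h2 := congrFun hxy false
  exact Prod.ext h1 h2

/-- every point is fixed or in a regular orbit -/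
private theorem exti_free (hC : Inherits C) {Ω : Type} (σ : Multiplicative ℤ →* Equiv.Perm Ω)
    (hσ : ∀ ω : Ω, (∀ g, σ g ω = ω) ∨ ∀ g, σ g ω = ω → g = 1) :
    C (FreeGroup Ω ⋊[permAct σ] Multiplicative ℤ) := by
  classical
  -- representatives
  let s : Setoid Ω :=
    { r := fun a b => ∃ g, σ g a = b
      iseqv :=
        { refl := fun a => ⟨1, by rw [map_one]; rfl⟩
          symm := fun {a b} ⟨g, hg⟩ => ⟨g⁻¹, by rw [← hg, map_inv]; exact (σ g).symm_apply_apply a⟩
          trans := fun {a b c} ⟨g, hg⟩ ⟨k, hk⟩ => ⟨k * g, by rw [map_mul, ← hk, ← hg]; rfl⟩ } }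
  let rep : Ω → Ω := fun ω => (Quotient.mk s ω).out
  have hrep : ∀ ω, ∃ g, σ g (rep ω) = ω := fun ω => Quotient.exact (Quotient.out_eq (Quotient.mk s ω))
  choose n hn using hrep
  have hrepg : ∀ g ω, rep (σ g ω) = rep ω := by
    intro g ω
    have : Quotient.mk s (σ g ω) = Quotient.mk s ω :=
      (Quotient.sound' (show s.r ω (σ g ω) from ⟨g, rfl⟩)).symm
    show (Quotient.mk s (σ g ω)).out = (Quotient.mk s ω).out
    rw [this]
  have hcomm : ∀ (g k : Multiplicative ℤ) (ω : Ω), σ g (σ k ω) = σ k (σ g ω) := by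
    intro g k ω
    have h1 : σ (g * k) ω = σ (k * g) ω := by rw [mul_comm]
    rw [map_mul, map_mul] at h1
    exact h1
  have hmul : ∀ (g k : Multiplicative ℤ) (ω : Ω), σ (g * k) ω = σ g (σ k ω) := by
    intro g k ω
    rw [map_mul]
    rfl
  have hnotfix : ∀ g ω, (¬ ∀ k, σ k ω = ω) → ¬ ∀ k, σ k (σ g ω) = σ g ω := by
    intro g ω h1 h2
    apply h1
    intro k
    have h3 := h2 k
    rw [hcomm] at h3
    exact (σ g).injective h3
  have hng : ∀ g ω, (¬ ∀ k, σ k ω = ω) → n (σ g ω) = g * n ω := by
    intro g ω h1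
    have h2 := hn (σ g ω)
    rw [hrepg] at h2
    have h3 : σ g ω = σ (g * n ω) (rep ω) := by rw [hmul, hn]
    have h4 : ∀ k, σ k ω = ω → k = 1 := (hσ ω).resolve_left h1
    have h5 : σ ((g * n ω)⁻¹ * n (σ g ω)) (rep ω) = rep ω := by
      rw [hmul, h2, h3, ← hmul, inv_mul_cancel, map_one]
      rfl
    have h6 : σ ((g * n ω)⁻¹ * n (σ g ω)) ω = ω := by
      have h8 := hcomm ((g * n ω)⁻¹ * n (σ g ω)) (n ω) (rep ω)
      rw [hn, h5, hn] at h8
      exact h8
    have h7 := h4 _ h6
    rw [inv_mul_eq_one] at h7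
    exact h7.symm
  -- the target
  let W := FreeGroup (Option Ω)
  have hT : C (Monoid.CoprodI fun _ : Bool => W × W) :=
    hC.coprod Bool inferInstance _ fun _ => exti_prod hC (freeGroup_mem hC _)
  let A : W × W →* Monoid.CoprodI (fun _ : Bool => W × W) := Monoid.CoprodI.of (M := fun _ : Bool => W × W) (i := false)
  let B : W × W →* Monoid.CoprodI (fun _ : Bool => W × W) := Monoid.CoprodI.of (M := fun _ : Bool => W × W) (i := true)
  let t : Monoid.CoprodI (fun _ : Bool => W × W) := A (1, FreeGroup.of none)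
  let f₂ : Multiplicative ℤ →* Monoid.CoprodI (fun _ : Bool => W × W) := zpowersHom _ t
  let img : Ω → Monoid.CoprodI (fun _ : Bool => W × W) := fun ω =>
    if ∀ k, σ k ω = ω then A (FreeGroup.of (some ω), 1)
    else f₂ (n ω) * B (FreeGroup.of (some (rep ω)), 1) * (f₂ (n ω))⁻¹
  have himg : ∀ g ω, img (σ g ω) = f₂ g * img ω * (f₂ g)⁻¹ := by
    intro g ω
    by_cases h : ∀ k, σ k ω = ω
    · have h1 : σ g ω = ω := h g
      rw [h1]
      have h2 : img ω = A (FreeGroup.of (some ω), 1) := if_pos h
      rw [h2, eq_mul_inv_iff_mul_eq]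
      have h3 : Commute (A (FreeGroup.of (some ω), 1)) t := by
        show A _ * A _ = A _ * A _
        rw [← map_mul, ← map_mul]
        congr 1
      show _ * t ^ (Multiplicative.toAdd g) = t ^ (Multiplicative.toAdd g) * _
      exact (h3.zpow_right _).eq
    · have h1 := hnotfix g ω h
      have h2 : img ω = f₂ (n ω) * B (FreeGroup.of (some (rep ω)), 1) * (f₂ (n ω))⁻¹ := if_neg h
      have h3 : img (σ g ω) = f₂ (n (σ g ω)) * B (FreeGroup.of (some (rep (σ g ω))), 1) *
        (f₂ (n (σ g ω)))⁻¹ := if_neg h1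
      rw [h2, h3, hng g ω h, hrepg, map_mul]
      group
  let α : FreeGroup Ω ⋊[permAct σ] Multiplicative ℤ →* Monoid.CoprodI (fun _ : Bool => W × W) :=
    SemidirectProduct.lift (FreeGroup.lift img) f₂ (by
      intro g
      ext ω
      show FreeGroup.lift img (permAct σ g (FreeGroup.of ω)) =
        MulAut.conj (f₂ g) (FreeGroup.lift img (FreeGroup.of ω))
      rw [permAct_of, FreeGroup.lift_apply_of, FreeGroup.lift_apply_of, MulAut.conj_apply, himg])
  -- the left inverse
  let il : FreeGroup Ω →* FreeGroup Ω ⋊[permAct σ] Multiplicative ℤ := SemidirectProduct.inl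
  let ir : Multiplicative ℤ →* FreeGroup Ω ⋊[permAct σ] Multiplicative ℤ := SemidirectProduct.inr
  have hact : ∀ g ω, ir g * il (FreeGroup.of ω) * (ir g)⁻¹ = il (FreeGroup.of (σ g ω)) := by
    intro g ω
    have h1 := SemidirectProduct.inl_aut (φ := permAct σ) g (FreeGroup.of ω)
    rw [permAct_of] at h1
    rw [← map_inv]
    exact h1.symm
  let β₀ : W →* FreeGroup Ω ⋊[permAct σ] Multiplicative ℤ := FreeGroup.lift fun o =>
    match o with
    | none => 1
    | some ω => if ∀ k, σ k ω = ω then il (FreeGroup.of ω) else 1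
  let β₁ : W →* FreeGroup Ω ⋊[permAct σ] Multiplicative ℤ :=
    ir.comp (FreeGroup.lift fun _ => Multiplicative.ofAdd 1)
  have hcom : ∀ m k, Commute (β₀ m) (β₁ k) := by
    intro m k
    have h1 : ∀ z, Commute (β₀ m) (ir z) := by
      intro z
      have h2 : (∀ o : Option Ω, Commute (β₀ (FreeGroup.of o)) (ir z)) := by
        intro o
        match o with
        | none =>
          have : β₀ (FreeGroup.of none) = 1 := FreeGroup.lift_apply_of
          rw [this]
          exact Commute.one_left _
        | some ω =>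
          have h3 : β₀ (FreeGroup.of (some ω)) =
            if ∀ k, σ k ω = ω then il (FreeGroup.of ω) else 1 := FreeGroup.lift_apply_of
          rw [h3]
          split_ifs with h4
          · have h5 := hact z ω
            rw [h4 z] at h5
            rw [mul_inv_eq_iff_eq_mul] at h5
            exact h5.symm
          · exact Commute.one_left _
      induction m using FreeGroup.induction_on with
      | C1 => rw [map_one]; exact Commute.one_left _
      | of o => exact h2 o
      | inv_of o _ => rw [map_inv]; exact (h2 o).inv_left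
      | mul x y hx hy => rw [map_mul]; exact hx.mul_left hy
    exact h1 _
  let βA : W × W →* FreeGroup Ω ⋊[permAct σ] Multiplicative ℤ := MonoidHom.noncommCoprod β₀ β₁ hcom
  let bB : Option Ω → FreeGroup Ω ⋊[permAct σ] Multiplicative ℤ := fun o =>
    Option.elim o 1 (fun ω => il (FreeGroup.of ω))
  let βB : W × W →* FreeGroup Ω ⋊[permAct σ] Multiplicative ℤ :=
    (FreeGroup.lift bB).comp (MonoidHom.fst W W)
  let β : Monoid.CoprodI (fun _ : Bool => W × W) →* FreeGroup Ω ⋊[permAct σ] Multiplicative ℤ :=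
    Monoid.CoprodI.lift fun b => cond b βB βA
  have hβA : ∀ x, β (A x) = βA x := fun x => Monoid.CoprodI.lift_of _ _
  have hβB : ∀ x, β (B x) = βB x := fun x => Monoid.CoprodI.lift_of _ _
  have hβt : β t = ir (Multiplicative.ofAdd 1) := by
    show β (A _) = _
    rw [hβA]
    show β₀ 1 * β₁ (FreeGroup.of none) = _
    rw [map_one, one_mul]
    show ir (FreeGroup.lift _ (FreeGroup.of none)) = _
    rw [FreeGroup.lift_apply_of]
  have hβf : ∀ g, β (f₂ g) = ir g := by
    intro g
    show β (t ^ (Multiplicative.toAdd g)) = _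
    rw [map_zpow, hβt, ← map_zpow, ← ofAdd_zsmul, smul_eq_mul, mul_one]
    rfl
  have hcomp : β.comp α = MonoidHom.id _ := by
    apply SemidirectProduct.hom_ext
    · ext ω : 1
      show β (α (SemidirectProduct.inl (FreeGroup.of ω))) = SemidirectProduct.inl (FreeGroup.of ω)
      have h1 : α (SemidirectProduct.inl (FreeGroup.of ω)) = img ω := by
        show SemidirectProduct.lift _ _ _ _ = _
        rw [SemidirectProduct.lift_inl, FreeGroup.lift_apply_of]
      rw [h1]
      by_cases h : ∀ k, σ k ω = ω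
      · have h2 : img ω = A (FreeGroup.of (some ω), 1) := if_pos h
        rw [h2, hβA]
        show β₀ (FreeGroup.of (some ω)) * β₁ 1 = _
        rw [map_one, mul_one]
        have h3 : β₀ (FreeGroup.of (some ω)) =
            if ∀ k, σ k ω = ω then il (FreeGroup.of ω) else 1 := FreeGroup.lift_apply_of
        rw [h3, if_pos h]
      · have h2 : img ω = f₂ (n ω) * B (FreeGroup.of (some (rep ω)), 1) * (f₂ (n ω))⁻¹ := if_neg h
        have h3 : βB (FreeGroup.of (some (rep ω)), 1) = il (FreeGroup.of (rep ω)) := by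
          show FreeGroup.lift bB (FreeGroup.of (some (rep ω))) = _
          rw [FreeGroup.lift_apply_of]
          rfl
        rw [h2, map_mul, map_mul, map_inv, hβf, hβB, h3, hact, hn]
    · refine MonoidHom.ext fun g => ?_
      show β (α (SemidirectProduct.inr g)) = SemidirectProduct.inr g
      have h1 : α (SemidirectProduct.inr g) = f₂ g := by
        show SemidirectProduct.lift _ _ _ _ = _
        rw [SemidirectProduct.lift_inr]
      rw [h1, hβf]
  refine hC.of_injective α ?_ hT
  intro x y hxy
  have h1 := DFunLike.congr_fun hcomp x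
  have h2 := DFunLike.congr_fun hcomp y
  rw [MonoidHom.comp_apply, MonoidHom.id_apply] at h1 h2
  rw [← h1, ← h2, hxy]

/-- a power of the generator fixes all points with a nontrivial stabilizer -/
private theorem exti_pow (hC : Inherits C) {Ω : Type} (σ : Multiplicative ℤ →* Equiv.Perm Ω)
    (N : ℕ) (hN : 1 ≤ N)
    (hσ : ∀ ω : Ω, (∃ g, g ≠ 1 ∧ σ g ω = ω) → σ (Multiplicative.ofAdd (N : ℤ)) ω = ω) :
    C (FreeGroup Ω ⋊[permAct σ] Multiplicative ℤ) := by
  classical
  let pN : Multiplicative ℤ →* Multiplicative ℤ := powMonoidHom N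
  let σ' : Multiplicative ℤ →* Equiv.Perm Ω := σ.comp pN
  have hpN : ∀ g : Multiplicative ℤ, pN g = (Multiplicative.ofAdd (N : ℤ)) ^ (Multiplicative.toAdd g) := by
    intro g
    apply Multiplicative.toAdd.injective
    show N • Multiplicative.toAdd g = Multiplicative.toAdd g • (N : ℤ)
    rw [nsmul_eq_mul, smul_eq_mul, mul_comm]
  have hinjN : Function.Injective pN := by
    intro a b hab
    have h1 : N • Multiplicative.toAdd a = N • Multiplicative.toAdd b := hab
    rw [nsmul_eq_mul, nsmul_eq_mul] at h1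
    have h2 : (N : ℤ) ≠ 0 := by omega
    exact Multiplicative.toAdd.injective (mul_left_cancel₀ h2 h1)
  have h' : C (FreeGroup Ω ⋊[permAct σ'] Multiplicative ℤ) := by
    refine exti_free hC σ' fun ω => ?_
    by_cases h : ∃ g, g ≠ 1 ∧ σ g ω = ω
    · left
      intro g
      have h1 := hσ ω h
      show σ (pN g) ω = ω
      rw [hpN, map_zpow]
      have h2 : σ (Multiplicative.ofAdd (N : ℤ)) ∈ MulAction.stabilizer (Equiv.Perm Ω) ω := h1
      exact (MulAction.stabilizer (Equiv.Perm Ω) ω).zpow_mem h2 _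
    · right
      intro g hg
      by_contra h1
      refine h ⟨pN g, ?_, hg⟩
      intro h2
      apply h1
      apply hinjN
      rw [h2, map_one]
  let ψ : FreeGroup Ω ⋊[permAct σ'] Multiplicative ℤ →* FreeGroup Ω ⋊[permAct σ] Multiplicative ℤ :=
    SemidirectProduct.map (MonoidHom.id _) pN (fun g => rfl)
  have hψ : Function.Injective ψ := by
    intro x y hxy
    have h1 : (ψ x).left = (ψ y).left := by rw [hxy]
    have h2 : (ψ x).right = (ψ y).right := by rw [hxy]
    exact SemidirectProduct.ext h1 (hinjN h2)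
  let χ : FreeGroup Ω ⋊[permAct σ] Multiplicative ℤ →* Multiplicative (ZMod N) :=
    (AddMonoidHom.toMultiplicative (Int.castAddHom (ZMod N))).comp SemidirectProduct.rightHom
  have hNz : NeZero N := ⟨by omega⟩
  have hle : χ.ker ≤ ψ.range := by
    intro g hg
    have h1 : χ g = 1 := hg
    have h2 : ((Multiplicative.toAdd g.right : ℤ) : ZMod N) = 0 := h1
    rw [ZMod.intCast_zmod_eq_zero_iff_dvd] at h2
    obtain ⟨k, hk⟩ := h2
    refine ⟨⟨g.left, Multiplicative.ofAdd k⟩, ?_⟩
    refine SemidirectProduct.ext rfl ?_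
    show pN (Multiplicative.ofAdd k) = g.right
    rw [hpN]
    apply Multiplicative.toAdd.injective
    rw [hk]
    show k • (N : ℤ) = N * k
    rw [smul_eq_mul, mul_comm]
  refine hC.index _ χ.ker ?_ ?_
  · infer_instance
  · refine hC.of_injective (((MonoidHom.ofInjective hψ).symm.toMonoidHom).comp
      (Subgroup.inclusion hle)) ?_ h'
    exact (MonoidHom.ofInjective hψ).symm.injective.comp (Subgroup.inclusion_injective hle)

/-- the union of the orbits of the points of `s` -/
private def orbU {Ω : Type} (σ : Multiplicative ℤ →* Equiv.Perm Ω) (s : Finset Ω) : Set Ω :=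
  {ω | ∃ a ∈ s, ∃ g, σ g a = ω}

private theorem orbU_inv {Ω : Type} (σ : Multiplicative ℤ →* Equiv.Perm Ω) (s : Finset Ω)
    (g : Multiplicative ℤ) (ω : Ω) : σ g ω ∈ orbU σ s ↔ ω ∈ orbU σ s := by
  constructor
  · rintro ⟨a, ha, k, hk⟩
    refine ⟨a, ha, g⁻¹ * k, ?_⟩
    rw [map_mul, Equiv.Perm.mul_apply, hk, map_inv]
    exact (σ g).symm_apply_apply ω
  · rintro ⟨a, ha, k, hk⟩
    refine ⟨a, ha, g * k, ?_⟩
    rw [map_mul, Equiv.Perm.mul_apply, hk]

/-- the restricted action -/
private def resU {Ω : Type} (σ : Multiplicative ℤ →* Equiv.Perm Ω) (s : Finset Ω) :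
    Multiplicative ℤ →* Equiv.Perm (orbU σ s) where
  toFun g := (σ g).subtypePerm (fun ω => orbU_inv σ s g ω)
  map_one' := by
    ext ω
    show (σ 1) (ω : Ω) = ω
    rw [map_one]
    rfl
  map_mul' g k := by
    ext ω
    show (σ (g * k)) (ω : Ω) = σ g (σ k ω)
    rw [map_mul]
    rfl

private theorem exti_orb (hC : Inherits C) {Ω : Type} (σ : Multiplicative ℤ →* Equiv.Perm Ω)
    (s : Finset Ω) : C (FreeGroup (orbU σ s) ⋊[permAct (resU σ s)] Multiplicative ℤ) := by
  classical
  have hcomm : ∀ (g k : Multiplicative ℤ) (ω : Ω), σ g (σ k ω) = σ k (σ g ω) := by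
    intro g k ω
    have h1 : σ (g * k) ω = σ (k * g) ω := by rw [mul_comm]
    rw [map_mul, map_mul] at h1
    exact h1
  have hm : ∀ a : Ω, ∃ m : ℕ, 1 ≤ m ∧ ((∃ g, g ≠ 1 ∧ σ g a = a) →
      σ (Multiplicative.ofAdd (m : ℤ)) a = a) := by
    intro a
    by_cases h : ∃ g, g ≠ 1 ∧ σ g a = a
    · obtain ⟨g, hg, hga⟩ := h
      refine ⟨(Multiplicative.toAdd g).natAbs, ?_, fun _ => ?_⟩
      · have : Multiplicative.toAdd g ≠ 0 := fun h0 => hg (Multiplicative.toAdd.injective h0)
        omega
      · rcases Int.natAbs_eq (Multiplicative.toAdd g) with h1 | h1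
        · have h2 : Multiplicative.ofAdd (((Multiplicative.toAdd g).natAbs : ℕ) : ℤ) = g := by
            rw [← h1]
            rfl
          rw [h2, hga]
        · have h2 : Multiplicative.ofAdd (((Multiplicative.toAdd g).natAbs : ℕ) : ℤ) = g⁻¹ := by
            apply Multiplicative.toAdd.injective
            show (((Multiplicative.toAdd g).natAbs : ℕ) : ℤ) = - Multiplicative.toAdd g
            omega
          rw [h2, map_inv]
          rw [Equiv.Perm.inv_eq_iff_eq]
          exact hga.symm
    · exact ⟨1, le_rfl, fun h' => absurd h' h⟩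
  choose m hm1 hm2 using hm
  refine exti_pow hC (resU σ s) (∏ a ∈ s, m a) (Nat.succ_le_of_lt (Finset.prod_pos fun a _ => hm1 a)) ?_
  rintro ⟨ω, hω⟩ ⟨g, hg, hgω⟩
  have hgω' : σ g ω = ω := congrArg Subtype.val hgω
  obtain ⟨a, ha, k, hk⟩ := hω
  have hga : σ g a = a := by
    apply (σ k).injective
    rw [← hcomm, hk, hgω']
  have h1 := hm2 a ⟨g, hg, hga⟩
  apply Subtype.ext
  show σ (Multiplicative.ofAdd ((∏ a ∈ s, m a : ℕ) : ℤ)) ω = ω
  obtain ⟨c, hc⟩ : m a ∣ ∏ a ∈ s, m a := Finset.dvd_prod_of_mem _ ha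
  have h2 : Multiplicative.ofAdd ((∏ a ∈ s, m a : ℕ) : ℤ) =
      (Multiplicative.ofAdd (m a : ℤ)) ^ c := by
    rw [hc, ← ofAdd_nsmul, nsmul_eq_mul, Nat.cast_mul, mul_comm]
  rw [h2, map_pow]
  have h3 : σ (Multiplicative.ofAdd (m a : ℤ)) ω = ω := by
    rw [← hk, hcomm, h1]
  have h4 : σ (Multiplicative.ofAdd (m a : ℤ)) ∈ MulAction.stabilizer (Equiv.Perm Ω) ω := h3
  exact (MulAction.stabilizer (Equiv.Perm Ω) ω).pow_mem h4 c

/-- the inclusion of the part over `orbU σ s` -/
private def psiU {Ω : Type} (σ : Multiplicative ℤ →* Equiv.Perm Ω) (s : Finset Ω) :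
    FreeGroup (orbU σ s) ⋊[permAct (resU σ s)] Multiplicative ℤ →*
      FreeGroup Ω ⋊[permAct σ] Multiplicative ℤ :=
  SemidirectProduct.map (FreeGroup.map Subtype.val) (MonoidHom.id _) (by
    intro g
    ext ω
    show FreeGroup.map Subtype.val (permAct (resU σ s) g (FreeGroup.of ω)) =
      permAct σ g (FreeGroup.map Subtype.val (FreeGroup.of ω))
    rw [permAct_of, FreeGroup.map.of, FreeGroup.map.of, permAct_of]
    rfl)

private theorem psiU_injective {Ω : Type} (σ : Multiplicative ℤ →* Equiv.Perm Ω) (s : Finset Ω) :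
    Function.Injective (psiU σ s) := by
  intro x y hxy
  have h1 : (psiU σ s x).left = (psiU σ s y).left := by rw [hxy]
  have h2 : (psiU σ s x).right = (psiU σ s y).right := by rw [hxy]
  exact SemidirectProduct.ext (FreeGroup.map_injective Subtype.val_injective h1) h2

/-- the integers acting by the powers of a permutation -/
theorem int_mem (hC : Inherits C) {Ω : Type} (σ : Multiplicative ℤ →* Equiv.Perm Ω) :
    C (FreeGroup Ω ⋊[permAct σ] Multiplicative ℤ) := by
  classical
  have hsub : ∀ s t : Finset Ω, s ≤ t → orbU σ s ⊆ orbU σ t := by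
    rintro s t hst ω ⟨a, ha, g, hg⟩
    exact ⟨a, hst ha, g, hg⟩
  have hmono : ∀ s t : Finset Ω, s ≤ t → (FreeGroup.map (Subtype.val : orbU σ s → Ω)).range ≤
      (FreeGroup.map (Subtype.val : orbU σ t → Ω)).range := by
    rintro s t hst _ ⟨w, rfl⟩
    refine ⟨FreeGroup.map (Set.inclusion (hsub s t hst)) w, ?_⟩
    rw [FreeGroup.map.comp]
    rfl
  have hall : ∀ w : FreeGroup Ω, ∃ s : Finset Ω,
      w ∈ (FreeGroup.map (Subtype.val : orbU σ s → Ω)).range := by
    intro w
    have hof : ∀ ω : Ω, FreeGroup.of ω ∈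
        (FreeGroup.map (Subtype.val : orbU σ {ω} → Ω)).range := by
      intro ω
      refine ⟨FreeGroup.of ⟨ω, ω, Finset.mem_singleton_self ω, 1, by rw [map_one]; rfl⟩, ?_⟩
      rw [FreeGroup.map.of]
    induction w using FreeGroup.induction_on with
    | C1 => exact ⟨∅, Subgroup.one_mem _⟩
    | of ω => exact ⟨{ω}, hof ω⟩
    | inv_of ω _ => exact ⟨{ω}, Subgroup.inv_mem _ (hof ω)⟩
    | mul x y hx hy =>
      obtain ⟨s, hs⟩ := hx
      obtain ⟨t, ht⟩ := hy
      exact ⟨s ∪ t, Subgroup.mul_mem _ (hmono s _ Finset.subset_union_left hs)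
        (hmono t _ Finset.subset_union_right ht)⟩
  have hrange : ∀ (s : Finset Ω) (g : FreeGroup Ω ⋊[permAct σ] Multiplicative ℤ),
      g ∈ (psiU σ s).range ↔ g.left ∈ (FreeGroup.map (Subtype.val : orbU σ s → Ω)).range := by
    intro s g
    constructor
    · rintro ⟨x, rfl⟩
      exact ⟨x.left, rfl⟩
    · rintro ⟨w, hw⟩
      exact ⟨⟨w, g.right⟩, SemidirectProduct.ext hw rfl⟩
  refine hC.union (ι := Finset Ω) (fun s => (psiU σ s).range) ?_ ?_ ?_
  · intro s t hst g hg
    rw [hrange] at hg ⊢
    exact hmono s t hst hg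
  · intro g
    obtain ⟨s, hs⟩ := hall g.left
    exact ⟨s, (hrange s g).2 hs⟩
  · intro s
    exact hC.iso _ _ (MonoidHom.ofInjective (psiU_injective σ s)) (exti_orb hC σ s)

end Pool.Agent.H98.FJ
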