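import Pool.Agent.H98.FJ.P.ExtI

/-!
# Semidirect products of free groups with groups in the class

Module H98 PA EXT (MP_2a547c_gt). Complete proof: apply the extension property `hE` to `SemidirectProduct.rightHom` (it
is surjective). Let `V` be a virtually cyclic subgroup of `Q` and `v` an element of `V` generating a subgroup of finite
index of `V`. The preimage in `G = FreeGroup Ω ⋊ Q` of `zpowers v` has finite index in the preimage of `V` (index of a
preimage under a surjective homomorphism), so by `hC.index` it suffices that the preimage `G_v` of `zpowers v` is in the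
class. There is a homomorphism `FreeGroup Ω ⋊[permAct (σ ∘ zpowersHom v)] Multiplicative ℤ → G`, `(w, n) ↦ (w, v^n)`
(`SemidirectProduct.map`), with image `G_v`. If `v` has infinite order it is injective, hence an isomorphism onto `G_v`:
use `int_mem` and `hC.iso`. If `v` has finite order then the kernel of `rightHom` (elements `(w, 1)`, isomorphic to
`FreeGroup Ω`, in the class by `freeGroup_mem`) has finite index in `G_v` (the quotient embeds in the finite group
`zpowers v`): use `hC.index`.
-/

set_option autoImplicit false

namespace Pool.Agent.H98.FJ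

variable {C : (G : Type) → [Group G] → Prop}

theorem semidirect_preimage_mem (hC : Inherits C) {Q Ω K : Type} [Group Q] [Group K]
    (σ : Q →* Equiv.Perm Ω) (v : Q) (j : K →* FreeGroup Ω ⋊[permAct σ] Q)
    (hj : Function.Injective j) (hv : ∀ k, (j k).right ∈ Subgroup.zpowers v) : C K := by
  classical
  by_cases hfin : IsOfFinOrder v
  · obtain ⟨s, hs⟩ : ∃ s : K →* Q, ∀ k, s k = (j k).right :=
      ⟨SemidirectProduct.rightHom.comp j, fun k => rfl⟩
    have hle : s.range ≤ Subgroup.zpowers v := by
      rintro _ ⟨k, rfl⟩
      rw [hs]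
      exact hv k
    have hz : Finite (Subgroup.zpowers v) := Set.Finite.to_subtype (finite_zpowers.mpr hfin)
    have hr : Finite s.range := Finite.of_injective _ (Subgroup.inclusion_injective hle)
    refine hC.index K s.ker (Subgroup.finiteIndex_ker s) ?_
    have hker : ∀ x : s.ker, (j x.1).right = 1 := fun x => by
      rw [← hs]
      exact x.2
    refine hC.of_injective (H := FreeGroup Ω)
      ({ toFun := fun x => (j x.1).left
         map_one' := by simp
         map_mul' := fun x y => by
          simp [SemidirectProduct.mul_left, hker] } : s.ker →* FreeGroup Ω) ?_ (freeGroup_mem hC Ω)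
    intro x y hxy
    apply Subtype.ext
    apply hj
    exact SemidirectProduct.ext hxy ((hker x).trans (hker y).symm)
  · have hinj : Function.Injective (zpowersHom Q v) := by
      have h1 := injective_zpow_iff_not_isOfFinOrder.mpr hfin
      intro a b hab
      have h2 : v ^ (Multiplicative.toAdd a) = v ^ (Multiplicative.toAdd b) := by
        simpa [zpowersHom_apply] using hab
      exact Multiplicative.toAdd.injective (h1 h2)
    obtain ⟨θ, hθ⟩ : ∃ θ : FreeGroup Ω ⋊[permAct (σ.comp (zpowersHom Q v))] Multiplicative ℤ →*
        FreeGroup Ω ⋊[permAct σ] Q, ∀ x, θ x = ⟨x.left, zpowersHom Q v x.right⟩ :=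
      ⟨SemidirectProduct.map (MonoidHom.id (FreeGroup Ω)) (zpowersHom Q v) (fun g => rfl),
        fun x => rfl⟩
    have hθi : Function.Injective θ := by
      intro x y hxy
      rw [hθ, hθ] at hxy
      have h1 := congrArg SemidirectProduct.left hxy
      have h2 := congrArg SemidirectProduct.right hxy
      exact SemidirectProduct.ext h1 (hinj h2)
    have hCθ : C θ.range := hC.iso _ _ (MonoidHom.ofInjective hθi) (int_mem hC _)
    have hmem : ∀ k, j k ∈ θ.range := by
      intro k
      obtain ⟨n, hn⟩ := Subgroup.mem_zpowers_iff.mp (hv k)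
      refine ⟨⟨(j k).left, Multiplicative.ofAdd n⟩, ?_⟩
      rw [hθ]
      refine SemidirectProduct.ext rfl ?_
      change zpowersHom Q v (Multiplicative.ofAdd n) = (j k).right
      rw [← hn]
      simp [zpowersHom_apply]
    refine hC.of_injective (H := θ.range) (j.codRestrict θ.range hmem) ?_ hCθ
    intro x y hxy
    exact hj (congrArg Subtype.val hxy)

theorem semidirect_mem (hC : Inherits C) (hE : Extension C) {Q Ω : Type} [Group Q]
    (σ : Q →* Equiv.Perm Ω) (hQ : C Q) : C (FreeGroup Ω ⋊[permAct σ] Q) := by
  refine hE _ Q SemidirectProduct.rightHom SemidirectProduct.rightHom_surjective hQ ?_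
  rintro V ⟨v, hv⟩
  have hr := MonoidHom.subgroupComap_surjective_of_surjective
    (SemidirectProduct.rightHom : (FreeGroup Ω ⋊[permAct σ] Q) →* Q) V
    SemidirectProduct.rightHom_surjective
  have hK : ((Subgroup.zpowers v).comap ((SemidirectProduct.rightHom :
      (FreeGroup Ω ⋊[permAct σ] Q) →* Q).subgroupComap V)).FiniteIndex := by
    refine ⟨?_⟩
    rw [Subgroup.index_comap_of_surjective _ hr]
    exact hv.index_ne_zero
  refine hC.index _ _ hK ?_
  refine semidirect_preimage_mem hC σ (v : Q)
    ((V.comap (SemidirectProduct.rightHom : (FreeGroup Ω ⋊[permAct σ] Q) →* Q)).subtype.comp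
      (Subgroup.subtype _)) ?_ ?_
  · intro x y hxy
    exact Subtype.ext (Subtype.ext hxy)
  · rintro ⟨x, hx⟩
    obtain ⟨n, hn⟩ := Subgroup.mem_zpowers_iff.mp (Subgroup.mem_comap.mp hx)
    refine Subgroup.mem_zpowers_iff.mpr ⟨n, ?_⟩
    have h1 := congrArg (Subtype.val : V → Q) hn
    exact h1

end Pool.Agent.H98.FJ
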