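import Pool.Agent.H98.FJ.P.Po

/-!
# Injectivity of maps between pushouts

Module H98 PA POINJ (MP_2a547c_gt). Complete proof: `inl_injective`, `inr_injective` are
`Monoid.PushoutI.of_injective` (the family `two f g` is injective, by cases on the index). For `map_injective`:
let `z` be in the kernel. Choose a transversal `d` (`Monoid.PushoutI.NormalWord.transversal_nonempty`); by
`NormalWord.equiv` the element `z` is `w.prod` for a normal word `w`, i.e. `z = base h * ofCoprodI w.toWord.prod`, where
every syllable of `w.toWord` is a nontrivial element of the transversal and hence not in the range of `two f g i`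
(`Reduced`). Map the word syllable by syllable with `a`, `b` (a word over `Two A' B'`, syllables are not 1 by injectivity);
it is again reduced: if `a x = f' h = a (f h)` then `x = f h`. As the image of `z` is 1, the product of the new word is in
the range of the base; `Monoid.PushoutI.Reduced.eq_empty_of_mem_range` shows that the new word is empty, so `w.toWord` is
empty and `z = base h = inl (f h)`, and `1 = map z = inl (f' h)` gives `h = 1` by injectivity of `inl` and `f'`.
-/

set_option autoImplicit false

namespace Pool.Agent.H98.FJ.Po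

theorem pushoutI_injective_of {ι : Type} {G G' : ι → Type} {H : Type} [∀ i, Group (G i)]
    [∀ i, Group (G' i)] [Group H] (φ : ∀ i, H →* G i) (φ' : ∀ i, H →* G' i)
    (a : ∀ i, G i →* G' i) (ha : ∀ i x, a i (φ i x) = φ' i x)
    (ha' : ∀ i, Function.Injective (a i)) (hφ' : ∀ i, Function.Injective (φ' i))
    (M : Monoid.PushoutI φ →* Monoid.PushoutI φ')
    (hM : ∀ i x, M (Monoid.PushoutI.of i x) = Monoid.PushoutI.of i (a i x))
    (hM' : ∀ h, M (Monoid.PushoutI.base φ h) = Monoid.PushoutI.base φ' h) :
    Function.Injective M := by
  classical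
  have hφ : ∀ i, Function.Injective (φ i) := by
    intro i x y hxy
    apply hφ' i
    rw [← ha, ← ha, hxy]
  obtain ⟨d⟩ := Monoid.PushoutI.NormalWord.transversal_nonempty φ hφ
  rw [injective_iff_map_eq_one]
  intro z hz
  obtain ⟨w, rfl⟩ := (Monoid.PushoutI.NormalWord.equiv (d := d)).symm.surjective z
  change M (w.prod) = 1 at hz
  change w.prod = 1
  have hsyl : ∀ l ∈ w.toList, a l.1 l.2 ∉ (φ' l.1).range := by
    rintro ⟨i, g⟩ hl ⟨x, hx⟩
    have h1 : φ i x = g := ha' i (by rw [ha]; exact hx)
    have h2 : g ∈ d.set i := w.normalized i g hl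
    have h3 : g ≠ 1 := w.ne_one _ hl
    have h4 := (d.compl i).1 (a₁ := (⟨⟨g, ⟨x, h1⟩⟩, ⟨1, d.one_mem i⟩⟩ : (φ i).range × d.set i))
      (a₂ := (⟨⟨1, one_mem _⟩, ⟨g, h2⟩⟩ : (φ i).range × d.set i)) (by simp)
    apply h3
    have h5 := congrArg (fun p : (φ i).range × d.set i => (p.1 : G i)) h4
    simpa using h5
  obtain ⟨mw, hmw⟩ : ∃ mw : Monoid.CoprodI.Word G',
      mw.toList = w.toList.map (fun l => (⟨l.1, a l.1 l.2⟩ : Σ i, G' i)) := by
    refine ⟨⟨w.toList.map (fun l => (⟨l.1, a l.1 l.2⟩ : Σ i, G' i)), ?_, ?_⟩, rfl⟩
    · intro l hl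
      rw [List.mem_map] at hl
      obtain ⟨l', hl', rfl⟩ := hl
      intro h
      apply hsyl l' hl'
      change a l'.1 l'.2 = 1 at h
      rw [h]
      exact one_mem _
    · rw [List.isChain_map]
      exact w.chain_ne
  have hprod : M (Monoid.PushoutI.ofCoprodI w.toWord.prod) = Monoid.PushoutI.ofCoprodI mw.prod := by
    rw [Monoid.CoprodI.Word.prod, Monoid.CoprodI.Word.prod, hmw]
    rw [map_list_prod, map_list_prod, map_list_prod, List.map_map, List.map_map, List.map_map,
      List.map_map]
    congr 1
    apply List.map_congr_left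
    intro l _
    simp only [Function.comp_apply, Monoid.PushoutI.ofCoprodI_of]
    exact hM l.1 l.2
  have hred : Monoid.PushoutI.Reduced φ' mw := by
    intro g hg
    rw [hmw, List.mem_map] at hg
    obtain ⟨l, hl, rfl⟩ := hg
    exact hsyl l hl
  have hz2 : Monoid.PushoutI.base φ' w.head * Monoid.PushoutI.ofCoprodI mw.prod = 1 := by
    rw [← hprod, ← hM', ← map_mul]
    exact hz
  have hemp := hred.eq_empty_of_mem_range hφ' (by
    refine ⟨w.head⁻¹, ?_⟩
    rw [map_inv]
    exact (eq_inv_of_mul_eq_one_right hz2).symm)
  have hl0 : w.toList = [] := by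
    have h1 := hmw
    rw [hemp] at h1
    have h2 : (Monoid.CoprodI.Word.empty : Monoid.CoprodI.Word G').toList = [] := rfl
    rw [h2] at h1
    exact List.map_eq_nil_iff.mp h1.symm
  have hwp : w.toWord.prod = 1 := by
    rw [Monoid.CoprodI.Word.prod, hl0]
    rfl
  have hh : w.head = 1 := by
    have h1 : mw.prod = 1 := by rw [hemp]; exact Monoid.CoprodI.Word.prod_empty
    rw [h1, map_one, mul_one] at hz2
    exact Monoid.PushoutI.base_injective hφ' (by rw [hz2, map_one])
  rw [Monoid.PushoutI.NormalWord.prod, hwp, hh, map_one, map_one, mul_one]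

variable {H A B A' B' : Type} [Group H] [Group A] [Group B] [Group A'] [Group B']

theorem two_injective_of {f : H →* A} {g : H →* B} (hf : Function.Injective f)
    (hg : Function.Injective g) : ∀ i, Function.Injective (two f g i)
  | true => hf
  | false => hg

theorem inl_injective {f : H →* A} {g : H →* B} (hf : Function.Injective f)
    (hg : Function.Injective g) : Function.Injective (inl : A →* Po f g) :=
  Monoid.PushoutI.of_injective (φ := two f g) (two_injective_of hf hg) true

theorem inr_injective {f : H →* A} {g : H →* B} (hf : Function.Injective f)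
    (hg : Function.Injective g) : Function.Injective (inr : B →* Po f g) :=
  Monoid.PushoutI.of_injective (φ := two f g) (two_injective_of hf hg) false

theorem map_injective {f : H →* A} {g : H →* B} {f' : H →* A'} {g' : H →* B'} (a : A →* A')
    (b : B →* B') (h1 : ∀ x, a (f x) = f' x) (h2 : ∀ x, b (g x) = g' x)
    (ha : Function.Injective a) (hb : Function.Injective b)
    (hf : Function.Injective f') (hg : Function.Injective g') :
    Function.Injective (map a b h1 h2 : Po f g →* Po f' g') := by
  refine pushoutI_injective_of (two f g) (two f' g')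
    (fun i => match i with
      | true => a
      | false => b) ?_ ?_ (two_injective_of hf hg) (map a b h1 h2) ?_ ?_
  · intro i x
    match i with
    | true => exact h1 x
    | false => exact h2 x
  · intro i
    match i with
    | true => exact ha
    | false => exact hb
  · intro i x
    match i, x with
    | true, x => exact lift_inl _ _ _ x
    | false, x => exact lift_inr _ _ _ x
  · intro h
    have h5 : (inl (f h) : Po f g) = Monoid.PushoutI.base (two f g) h :=
      Monoid.PushoutI.of_apply_eq_base (two f g) true h
    have h6 : (inl (f' h) : Po f' g') = Monoid.PushoutI.base (two f' g') h :=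
      Monoid.PushoutI.of_apply_eq_base (two f' g') true h
    have h7 : map a b h1 h2 (inl (f h)) = (inl (f' h) : Po f' g') := by
      refine (lift_inl _ _ _ (f h)).trans ?_
      change inl (a (f h)) = _
      rw [h1]
    rw [h5, h6] at h7
    exact h7

end Pool.Agent.H98.FJ.Po
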