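import Pool.Agent.H98.FJ.P.Fa
import Pool.Agent.H98.FJ.P.PoInj

/-!
# Algebras over a self-similar group and the amalgam with the formal arrows
-/

set_option autoImplicit false
set_option linter.unusedSectionVars false

namespace Pool.Agent.H98.FJ

variable {X P : Type} [Group P] {psiP : P →* Wr P X}

/-- An algebra over the self-similar group `P`: a self-similar group `L` with an embedding of `P` and a functor from the
formal arrows with labels in `P`. -/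
structure PAlg (psiP : P →* Wr P X) (L : Type) [Group L] where
  psi : L →* Wr L X
  iota : P →* L
  lam : (ℕ → X) → (ℕ → Wr P X) → L
  inj : Function.Injective iota
  fn : IsFun lam
  psi_iota : ∀ p, psi (iota p) = Wr.map iota (psiP p)
  psi_lam : ∀ ξ g, IsAr ξ g → psi (lam ξ g) = PsiA iota lam ξ g

/-- morphisms of algebras -/
structure Mor {L M : Type} [Group L] [Group M] (A : PAlg psiP L) (B : PAlg psiP M)
    (f : L →* M) : Prop where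
  psi : ∀ l, B.psi (f l) = Wr.map f (A.psi l)
  iota : ∀ p, f (A.iota p) = B.iota p
  lam : ∀ ξ g, IsAr ξ g → f (A.lam ξ g) = B.lam ξ g

namespace Mor

variable {L M N : Type} [Group L] [Group M] [Group N] {A : PAlg psiP L} {B : PAlg psiP M}
  {D : PAlg psiP N} {f : L →* M} {f' : M →* N}

theorem id (A : PAlg psiP L) : Mor A A (MonoidHom.id L) := ⟨fun _ => rfl, fun _ => rfl, fun _ _ _ => rfl⟩

theorem comp (h' : Mor B D f') (h : Mor A B f) : Mor A D (f'.comp f) := by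
  refine ⟨fun l => ?_, fun p => ?_, fun ξ g hg => ?_⟩
  · change D.psi (f' (f l)) = _
    rw [h'.psi, h.psi]
    rfl
  · change f' (f (A.iota p)) = _
    rw [h.iota, h'.iota]
  · change f' (f (A.lam ξ g)) = _
    rw [h.lam ξ g hg, h'.lam ξ g hg]

theorem iota_comp (h : Mor A B f) : f.comp A.iota = B.iota := MonoidHom.ext h.iota

end Mor

namespace PAlg

variable {L M : Type} [Group L] [Group M] (A : PAlg psiP L) (B : PAlg psiP M)

/-- formal arrows are determined by their images -/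
theorem lam_eq_one {ξ : ℕ → X} {g : ℕ → Wr P X} (hg : IsAr ξ g) (h : A.lam ξ g = 1) : g = 1 := by
  have key : ∀ n, A.lam (sh ξ n) (sg g n) = 1 ∧ ((g n) = 1) := by
    intro n
    induction n generalizing ξ g with
    | zero =>
      rw [sh_zero, sg_zero]
      refine ⟨h, ?_⟩
      have h1 := A.psi_lam ξ g hg
      rw [h, map_one] at h1
      refine Wr.ext (funext fun x => ?_) ?_
      · by_cases hx : x = ξ 0
        · subst hx
          exact hg.nrm 0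
        · have h2 := congrArg (fun b : Wr L X => b.sec x) h1
          simp only [Wr.one_sec, PsiA_sec_off _ _ _ _ hx] at h2
          exact A.inj (h2.symm.trans (map_one A.iota).symm)
      · exact (congrArg (fun b : Wr L X => b.perm) h1).symm
    | succ n ih =>
      have h1 := A.psi_lam ξ g hg
      rw [h, map_one] at h1
      have h2 := congrArg (fun b : Wr L X => b.sec (ξ 0)) h1
      simp only [Wr.one_sec, PsiA_sec_on] at h2
      obtain ⟨h3, h4⟩ := ih (hg.sg 1) h2.symm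
      rw [sh_sh, sg_sg, Nat.add_comm 1 n] at h3
      refine ⟨h3, ?_⟩
      have : sg g 1 n = g (n + 1) := by
        change g (1 + n) = g (n + 1)
        rw [Nat.add_comm]
      rw [this] at h4
      exact h4
  funext n
  exact (key n).2

/-- the homomorphism from the isotropy group -/
def isoLam (ξ : ℕ → X) : Iso P ξ →* L where
  toFun g := A.lam ξ g.1
  map_one' := A.fn.one ξ
  map_mul' g h := by
    have h1 := A.fn.mul ξ g.1 h.1 h.2.1 (by rw [h.2.2]; exact g.2.1)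
    rw [h.2.2] at h1
    exact h1

theorem isoLam_apply (ξ : ℕ → X) (g : Iso P ξ) : A.isoLam ξ g = A.lam ξ g.1 := rfl

theorem isoLam_injective (ξ : ℕ → X) : Function.Injective (A.isoLam ξ) := by
  rw [injective_iff_map_eq_one]
  intro g hg
  exact Subtype.ext (A.lam_eq_one g.2.1 hg)

/-- the amalgam of `L` and the formal arrows with labels in `L` -/
abbrev Z (ξ0 : ℕ → X) : Type := Po (A.isoLam ξ0) (isoMap A.iota ξ0)

variable (ξ0 : ℕ → X)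

theorem Z_inl_injective : Function.Injective (Po.inl : L →* A.Z ξ0) :=
  Po.inl_injective (A.isoLam_injective ξ0) (isoMap_injective A.inj ξ0)

theorem Z_glue (g : Iso P ξ0) : (Po.inl (A.lam ξ0 g.1) : A.Z ξ0) = Po.inr (isoMap A.iota ξ0 g) :=
  Po.glue (f := A.isoLam ξ0) (g := isoMap A.iota ξ0) g

variable [Finite X]

open Classical in
/-- the formal arrows in the amalgam -/
noncomputable def br (ξ : ℕ → X) (g : ℕ → Wr L X) : A.Z ξ0 :=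
  if h : IsAr ξ g then
    Po.inl (A.lam ξ0 (ta P ξ0 (ap g ξ))) * Po.inr ⟨_, red_mem' ξ0 h⟩ *
      (Po.inl (A.lam ξ0 (ta P ξ0 ξ)))⁻¹
  else 1

theorem br_def {ξ : ℕ → X} {g : ℕ → Wr L X} (h : IsAr ξ g) : A.br ξ0 ξ g =
    Po.inl (A.lam ξ0 (ta P ξ0 (ap g ξ))) * Po.inr ⟨_, red_mem' ξ0 h⟩ *
      (Po.inl (A.lam ξ0 (ta P ξ0 ξ)))⁻¹ := dif_pos h

theorem br_fn : IsFun (A.br ξ0) := by
  refine ⟨fun ξ g h hh hg => ?_⟩
  rw [A.br_def ξ0 hh, A.br_def ξ0 hg, A.br_def ξ0 (hh.mul hg)]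
  have h1 : (⟨_, red_mem' ξ0 (hh.mul hg)⟩ : Iso L ξ0) =
      ⟨_, red_mem' ξ0 hg⟩ * ⟨_, red_mem' ξ0 hh⟩ := by
    apply Subtype.ext
    change (ta L ξ0 (ap (g * h) ξ))⁻¹ * (g * h) * ta L ξ0 ξ =
      ((ta L ξ0 (ap g (ap h ξ)))⁻¹ * g * ta L ξ0 (ap h ξ)) *
      ((ta L ξ0 (ap h ξ))⁻¹ * h * ta L ξ0 ξ)
    rw [ap_mul]
    group
  rw [h1, map_mul, ap_mul]
  group

theorem br_iota {ξ : ℕ → X} {g : ℕ → Wr P X} (h : IsAr ξ g) :
    A.br ξ0 ξ (mp A.iota g) = Po.inl (A.lam ξ g) := by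
  rw [A.br_def ξ0 (h.mp A.iota)]
  have h1 : (⟨_, red_mem' ξ0 (h.mp A.iota)⟩ : Iso L ξ0) =
      isoMap A.iota ξ0 ⟨_, red_mem' ξ0 h⟩ := by
    apply Subtype.ext
    rw [isoMap_coe, map_mul, map_mul, map_inv, mp_ta, mp_ta]
    rfl
  rw [h1, ← Z_glue, ← map_mul, ← map_inv, ← map_mul, ap_mp]
  congr 1
  have h2 : IsAr ξ0 (g * ta P ξ0 ξ) := (IsAr.ta ξ0 ξ).mul (by rw [ap_ta]; exact h)
  have h3 : IsAr (ap g ξ) (ta P ξ0 (ap g ξ))⁻¹ := by
    have h3 := (IsAr.ta (L := P) ξ0 (ap g ξ)).inv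
    rw [ap_ta] at h3
    exact h3
  have h4 : IsAr (ap (g * ta P ξ0 ξ) ξ0) (ta P ξ0 (ap g ξ))⁻¹ := by
    rw [ap_mul, ap_ta]
    exact h3
  have h5 : A.lam ξ0 ((ta P ξ0 (ap g ξ))⁻¹ * g * ta P ξ0 ξ) =
      (A.lam ξ0 (ta P ξ0 (ap g ξ)))⁻¹ * A.lam ξ g * A.lam ξ0 (ta P ξ0 ξ) := by
    rw [mul_assoc, A.fn.mul ξ0 _ _ h2 h4, A.fn.mul ξ0 _ _ (IsAr.ta ξ0 ξ) (by rw [ap_ta]; exact h),
      ap_mul, ap_ta]
    have h6 := A.fn.inv (IsAr.ta (L := P) ξ0 (ap g ξ))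
    rw [ap_ta] at h6
    rw [h6, mul_assoc]
  rw [h5]
  group

theorem br_iso (g : Iso L ξ0) : A.br ξ0 ξ0 g.1 = Po.inr g := by
  rw [A.br_def ξ0 g.2.1]
  have h0 : A.lam ξ0 (ta P ξ0 ξ0) = 1 := by rw [ta_self, A.fn.one]
  have h1 : (⟨_, red_mem' ξ0 g.2.1⟩ : Iso L ξ0) = g := by
    apply Subtype.ext
    change (ta L ξ0 (ap g.1 ξ0))⁻¹ * g.1 * ta L ξ0 ξ0 = g.1
    rw [g.2.2, ta_self, inv_one, one_mul, mul_one]
  rw [h1, h0, map_one, inv_one, mul_one]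
  have h2 : A.lam ξ0 (ta P ξ0 (ap g.1 ξ0)) = 1 := by rw [g.2.2, h0]
  rw [h2, map_one, one_mul]

/-- the standard arrows -/
theorem br_ta (ξ : ℕ → X) : A.br ξ0 ξ0 (ta L ξ0 ξ) = Po.inl (A.lam ξ0 (ta P ξ0 ξ)) := by
  rw [← mp_ta A.iota, A.br_iota ξ0 (IsAr.ta ξ0 ξ)]

/-- the self-similarity on the second factor -/
noncomputable def psiR : Iso L ξ0 →* Wr (A.Z ξ0) X where
  toFun g := PsiA (Po.inl : L →* A.Z ξ0) (A.br ξ0) ξ0 g.1
  map_one' := (A.br_fn ξ0).psi.one ξ0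
  map_mul' g h := by
    have h1 := (IsFun.psi (j := (Po.inl : L →* A.Z ξ0)) (A.br_fn ξ0)).mul ξ0 g.1 h.1 h.2.1
      (by rw [h.2.2]; exact g.2.1)
    rw [h.2.2] at h1
    exact h1

theorem psiR_apply (g : Iso L ξ0) :
    A.psiR ξ0 g = PsiA (Po.inl : L →* A.Z ξ0) (A.br ξ0) ξ0 g.1 := rfl

theorem inl_lam (ξ : ℕ → X) (g : ℕ → Wr P X) (hg : IsAr ξ g) :
    Wr.map (Po.inl : L →* A.Z ξ0) (A.psi (A.lam ξ g)) =
      PsiA (Po.inl : L →* A.Z ξ0) (A.br ξ0) ξ (mp A.iota g) := by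
  rw [A.psi_lam ξ g hg]
  refine PsiA_ext ?_ (fun x hx => ?_) rfl
  · rw [Wr.map_sec, PsiA_sec_on, sg_mp, A.br_iota ξ0 (hg.sg 1)]
  · rw [Wr.map_sec, PsiA_sec_off _ _ _ _ hx]
    rfl

/-- the self-similarity of the amalgam -/
noncomputable def psiZ : A.Z ξ0 →* Wr (A.Z ξ0) X :=
  Po.lift ((Wr.map Po.inl).comp A.psi) (A.psiR ξ0) (fun g => by
    change Wr.map Po.inl (A.psi (A.lam ξ0 g.1)) = A.psiR ξ0 (isoMap A.iota ξ0 g)
    rw [psiR_apply, isoMap_coe, A.inl_lam ξ0 ξ0 g.1 g.2.1])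

theorem psiZ_inl (l : L) : A.psiZ ξ0 (Po.inl l) = Wr.map Po.inl (A.psi l) := Po.lift_inl _ _ _ l
theorem psiZ_inr (g : Iso L ξ0) : A.psiZ ξ0 (Po.inr g) = A.psiR ξ0 g := Po.lift_inr _ _ _ g

theorem psiZ_br {ξ : ℕ → X} {g : ℕ → Wr L X} (hg : IsAr ξ g) :
    A.psiZ ξ0 (A.br ξ0 ξ g) = PsiA (Po.inl : L →* A.Z ξ0) (A.br ξ0) ξ g := by
  have hF := IsFun.psi (j := (Po.inl : L →* A.Z ξ0)) (A.br_fn ξ0)
  rw [A.br_def ξ0 hg, map_mul, map_mul, map_inv, psiZ_inl, psiZ_inl, psiZ_inr, psiR_apply,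
    A.inl_lam ξ0 ξ0 _ (IsAr.ta ξ0 _), A.inl_lam ξ0 ξ0 _ (IsAr.ta ξ0 _), mp_ta, mp_ta]
  have h2 : IsAr ξ0 (g * ta L ξ0 ξ) := (IsAr.ta ξ0 ξ).mul (by rw [ap_ta]; exact hg)
  have h3 : IsAr (ap g ξ) (ta L ξ0 (ap g ξ))⁻¹ := by
    have h3 := (IsAr.ta (L := L) ξ0 (ap g ξ)).inv
    rw [ap_ta] at h3
    exact h3
  have h4 : IsAr (ap (g * ta L ξ0 ξ) ξ0) (ta L ξ0 (ap g ξ))⁻¹ := by
    rw [ap_mul, ap_ta]
    exact h3
  change _ * PsiA (Po.inl : L →* A.Z ξ0) (A.br ξ0) ξ0 ((ta L ξ0 (ap g ξ))⁻¹ * g * ta L ξ0 ξ) * _ = _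
  rw [mul_assoc (ta L ξ0 (ap g ξ))⁻¹, hF.mul ξ0 _ _ h2 h4,
    hF.mul ξ0 _ _ (IsAr.ta ξ0 ξ) (by rw [ap_ta]; exact hg), ap_mul, ap_ta]
  have h6 := hF.inv (IsAr.ta (L := L) ξ0 (ap g ξ))
  rw [ap_ta] at h6
  rw [h6]
  group

/-- the amalgam as an algebra over the same group -/
noncomputable def ZAlg : PAlg psiP (A.Z ξ0) where
  psi := A.psiZ ξ0
  iota := (Po.inl : L →* A.Z ξ0).comp A.iota
  lam := fun ξ g => Po.inl (A.lam ξ g)
  inj := (A.Z_inl_injective ξ0).comp A.inj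
  fn := A.fn.comp Po.inl
  psi_iota := fun p => by
    change A.psiZ ξ0 (Po.inl (A.iota p)) = _
    rw [psiZ_inl, A.psi_iota, ← Wr.map_comp]
  psi_lam := fun ξ g hg => by
    rw [psiZ_inl, A.psi_lam ξ g hg, map_PsiA]
    rfl

theorem ZAlg_psi : (A.ZAlg ξ0).psi = A.psiZ ξ0 := rfl
theorem ZAlg_iota (p : P) : (A.ZAlg ξ0).iota p = Po.inl (A.iota p) := rfl
theorem ZAlg_lam (ξ : ℕ → X) (g : ℕ → Wr P X) : (A.ZAlg ξ0).lam ξ g = Po.inl (A.lam ξ g) := rfl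

theorem mor_inl : Mor A (A.ZAlg ξ0) (Po.inl : L →* A.Z ξ0) :=
  ⟨fun l => A.psiZ_inl ξ0 l, fun _ => rfl, fun _ _ _ => rfl⟩

end PAlg

end Pool.Agent.H98.FJ
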