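import Pool.Agent.H98.FJ.P.Cpl
import Pool.Agent.H98.FJ.Transfer

/-!
# Automata of polynomial activity

Module H98 PA AUT (MP_2a547c_gt). `TA X` = automorphisms of the rooted tree of words over `X` given by portraits, `sec g v` =
section at `v`, `PS X s` = complete group of degree `s` (`PS_mono`; `(PS X s).asm` : if all first level sections are in it
so is `g`; `Cpl.arP_mem` + `ArP.mk` : if `ξ` is a ray and all sections `sec g (pre ξ n ++ [x])`, `x ≠ ξ n`, lie in a
finite set `T` and in `(PS X s).S` then `g ∈ (PS X (s + 1)).S = sucG (PS X s).S`). Complete proof.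

Let `St g = Set.range (sec g)` (finite); `St (sec g v) ⊆ St g` (`sec_sec`). Prove by strong induction on the cardinality
`(St g).ncard` the statement: if `St g` is finite and the activity is bounded by `B * (n + 1) ^ d` for some `B d` then
`∃ s, g ∈ (PS X s).S`. (The hypotheses pass to sections: the number of `w` of length `n` with `sec (sec g v) w ≠ 1` is
at most the number of `u` of length `|v| + n` with `sec g u ≠ 1` (`w ↦ v ++ w`), and
`B * (|v| + n + 1) ^ d ≤ B * (|v| + 1) ^ d * (n + 1) ^ d`.) If `g = 1` then `g ∈ (PS X 0).S` (`one_mem`). Let `g ≠ 1`.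
Call a vertex `v` *on* if `g ∈ St (sec g v)` (`sec g (v ++ w) = g` for some `w`). `[]` is on, prefixes of on vertices are on.
If `v` is not on then `St (sec g v) ⊂ St g` (it is contained and misses `g`), so by induction `sec g v` is in some
`(PS X s).S`.
Case 1: no vertex of length 1 is on. Then all sections `sec1 g x` are in some `(PS X s).S`, with the same `s` by `PS_mono`
(`X` finite), so `g ∈ (PS X s).S` by `(PS X s).asm`.
Case 2: some `[x0]` is on, `sec g (x0 :: w0) = g`; `r = x0 :: w0`, `r ≠ []`.
 (a) every on vertex `v` has an on vertex `v ++ [x]`: `sec g (v ++ w) = g`; if `w = x :: w'` then `v ++ [x]` is on; if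
     `w = []` then `sec g (v ++ r) = sec g r = g`, so `v ++ [x0]` is on. By `extend_ray` (file `Transfer.lean`) there is a ray
     `ζ` all of whose prefixes `pre ζ n` are on.
 (b) two on vertices of the same length are equal. Suppose not; then there are `a ≠ b` of the same length `l` and `p`, `q`
     with `sec g (a ++ p) = g = sec g (b ++ q)`. Let `u1 = a ++ p`, `u2 = b ++ q`: words with `sec g u_i = g`, and by
     taking powers: for every word `t = (t_1, …, t_k)` in the letters 1, 2 let `W t` be the product
     `u_{t_1} ++ … ++ u_{t_k}`; `sec g (W t) = g ≠ 1`. To have words of the same length take `c1 = u1 repeated |u2| times`,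
     `c2 = u2 repeated |u1| times` (the same length `m = |u1| |u2| ≥ 1`; they differ as their prefixes of length `l` are
     `a ≠ b`). The `2^k` products of `k` words `c1`, `c2` are pairwise different words of length `k m` (induction on `k`,
     `List.append_inj`) with section `g ≠ 1`. So `2 ^ k ≤ B * (k m + 1) ^ d` for all `k`, a contradiction (an exponential
     beats a polynomial: e.g. `tendsto_pow_const_div_const_pow_of_one_lt` or
     `Nat.exists_pow_lt...`; any argument).
 (c) so the on vertices are exactly the `pre ζ n`. For `x ≠ ζ n` the vertex `pre ζ n ++ [x]` is not on, so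
     `sec g (pre ζ n ++ [x])` is in some `(PS X s).S`; these sections lie in the finite set `St g`, so one `s` works for
     all of them (`PS_mono`). Hence `g ∈ (PS X (s + 1)).S`.
-/

set_option autoImplicit false

namespace Pool.Agent.H98.FJ

open TA

/-- the activity is bounded by a polynomial -/
def Poly {X : Type} (g : TA X) : Prop :=
  ∃ B d : ℕ, ∀ n, {v : List X | v.length = n ∧ sec g v ≠ 1}.ncard ≤ B * (n + 1) ^ d

variable {X : Type} [Finite X]

theorem Poly.sec {g : TA X} (h : Poly g) (v : List X) : Poly (TA.sec g v) := by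
  obtain ⟨B, d, hB⟩ := h
  refine ⟨B * (v.length + 1) ^ d, d, fun n => ?_⟩
  have h1 : {w : List X | w.length = n ∧ TA.sec (TA.sec g v) w ≠ 1}.ncard ≤
      {u : List X | u.length = v.length + n ∧ TA.sec g u ≠ 1}.ncard := by
    refine Set.ncard_le_ncard_of_injOn (fun w => v ++ w) ?_ ?_
      ((List.finite_length_eq X (v.length + n)).subset fun u hu => hu.1)
    · rintro w ⟨hw1, hw2⟩
      refine ⟨by rw [List.length_append, hw1], ?_⟩
      rw [← sec_sec]
      exact hw2
    · intro w _ w' _ h
      exact List.append_cancel_left h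
  refine h1.trans ((hB _).trans ?_)
  rw [mul_assoc, ← mul_pow]
  refine Nat.mul_le_mul_left _ (Nat.pow_le_pow_left ?_ _)
  nlinarith [Nat.zero_le (v.length * n)]

/-- an exponential is not bounded by a polynomial -/
theorem exp_poly (B m d : ℕ) (h : ∀ k : ℕ, 2 ^ k ≤ B * (k * m + 1) ^ d) : False := by
  have h1 := tendsto_pow_const_div_const_pow_of_one_lt d (show (1 : ℝ) < 2 by norm_num)
  have h2 := h1.const_mul ((B : ℝ) * (m + 1) ^ d)
  rw [mul_zero] at h2
  have h3 := (h2.eventually_lt_const (show (0 : ℝ) < 1 by norm_num)).and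
    (Filter.eventually_ge_atTop 1)
  obtain ⟨k, hk1, hk2⟩ := h3.exists
  have h4 : ((2 : ℝ)) ^ k ≤ B * (k * m + 1) ^ d := by exact_mod_cast h k
  have h5 : ((k : ℝ) * m + 1) ^ d ≤ ((m + 1) * k) ^ d := by
    refine pow_le_pow_left₀ (by positivity) ?_ d
    have : (1 : ℝ) ≤ k := by exact_mod_cast hk2
    nlinarith
  have h6 : (2 : ℝ) ^ k ≤ B * (m + 1) ^ d * k ^ d := by
    refine h4.trans ?_
    rw [mul_assoc, ← mul_pow]
    exact mul_le_mul_of_nonneg_left h5 (by positivity)
  have h7 : (0 : ℝ) < 2 ^ k := by positivity
  rw [← mul_div_assoc, div_lt_one h7] at hk1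
  linarith

/-- products of two words -/
def wd (a b : List X) : List Bool → List X
  | [] => []
  | true :: t => a ++ wd a b t
  | false :: t => b ++ wd a b t

theorem wd_length {a b : List X} {m : ℕ} (ha : a.length = m) (hb : b.length = m)
    (t : List Bool) : (wd a b t).length = t.length * m := by
  induction t with
  | nil => simp [wd]
  | cons c t ih =>
    cases c
    · rw [wd, List.length_append, ih, hb, List.length_cons]
      ring
    · rw [wd, List.length_append, ih, ha, List.length_cons]
      ring

theorem wd_sec {g : TA X} {a b : List X} (ha : sec g a = g) (hb : sec g b = g)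
    (t : List Bool) : sec g (wd a b t) = g := by
  induction t with
  | nil => rfl
  | cons c t ih =>
    cases c
    · rw [wd, ← sec_sec, hb, ih]
    · rw [wd, ← sec_sec, ha, ih]

theorem wd_inj {a b : List X} (hab : a ≠ b) (hl : a.length = b.length) :
    ∀ s t : List Bool, s.length = t.length → wd a b s = wd a b t → s = t
  | [], [], _, _ => rfl
  | [], _ :: _, h, _ => by simp at h
  | _ :: _, [], h, _ => by simp at h
  | c :: s, c' :: t, h, e => by
    rw [List.length_cons, List.length_cons, Nat.add_right_cancel_iff] at h
    cases c <;> cases c'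
    · rw [wd, wd] at e
      rw [wd_inj hab hl s t h (List.append_cancel_left e)]
    · rw [wd, wd] at e
      exact absurd (List.append_inj e hl.symm).1.symm hab
    · rw [wd, wd] at e
      exact absurd (List.append_inj e hl).1 hab
    · rw [wd, wd] at e
      rw [wd_inj hab hl s t h (List.append_cancel_left e)]

theorem no_two {g : TA X} (hg : g ≠ 1) (hp : Poly g) {a b : List X} (hab : a ≠ b)
    (hl : a.length = b.length) (ha : sec g a = g) (hb : sec g b = g) : False := by
  obtain ⟨B, d, hB⟩ := hp
  refine exp_poly B a.length d fun k => ?_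
  refine le_trans ?_ (hB (k * a.length))
  have h1 : {t : List Bool | t.length = k}.ncard = 2 ^ k := by
    have h2 : Nat.card {t : List Bool // t.length = k} = 2 ^ k := by
      have h3 : Nat.card (List.Vector Bool k) = 2 ^ k := by
        rw [Nat.card_eq_fintype_card, card_vector, Fintype.card_bool]
      exact h3
    exact h2
  rw [← h1]
  refine Set.ncard_le_ncard_of_injOn (wd a b) ?_ ?_
    ((List.finite_length_eq X (k * a.length)).subset fun u hu => hu.1)
  · intro t ht
    have ht' : t.length = k := ht
    refine ⟨?_, ?_⟩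
    · rw [wd_length rfl hl.symm, ht']
    · rw [wd_sec ha hb]
      exact hg
  · intro s hs t ht h
    exact wd_inj hab hl s t (hs.trans ht.symm) h

theorem rep_sec {g : TA X} {u : List X} (h : sec g u = g) (k : ℕ) :
    sec g (List.replicate k u).flatten = g := by
  induction k with
  | zero => rfl
  | succ k ih => rw [List.replicate_succ, List.flatten_cons, ← sec_sec, h, ih]

theorem on_unique {g : TA X} (hg : g ≠ 1) (hp : Poly g) {a b p q : List X}
    (hl : a.length = b.length) (ha : sec g (a ++ p) = g) (hb : sec g (b ++ q) = g) : a = b := by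
  by_contra hab
  have ha0 : a ≠ [] := by
    rintro rfl
    exact hab (List.length_eq_zero_iff.1 hl.symm).symm
  have hb0 : b ≠ [] := by
    rintro rfl
    exact hab (List.length_eq_zero_iff.1 hl)
  obtain ⟨i, hi⟩ : ∃ i, (b ++ q).length = i + 1 := by
    cases b with
    | nil => exact absurd rfl hb0
    | cons x b => exact ⟨(b ++ q).length, rfl⟩
  obtain ⟨j, hj⟩ : ∃ j, (a ++ p).length = j + 1 := by
    cases a with
    | nil => exact absurd rfl ha0
    | cons x a => exact ⟨(a ++ p).length, rfl⟩
  refine no_two hg hp (a := (List.replicate (i + 1) (a ++ p)).flatten)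
    (b := (List.replicate (j + 1) (b ++ q)).flatten) ?_ ?_ (rep_sec ha _) (rep_sec hb _)
  · intro e
    rw [List.replicate_succ, List.flatten_cons, List.replicate_succ, List.flatten_cons,
      List.append_assoc, List.append_assoc] at e
    exact hab (List.append_inj e hl).1
  · rw [List.length_flatten, List.length_flatten, List.map_replicate, List.map_replicate,
      List.sum_replicate, List.sum_replicate, hi, hj, smul_eq_mul, smul_eq_mul, Nat.mul_comm]

theorem PS_aux (N : ℕ) : ∀ g : TA X, (Set.range (sec g)).Finite → (Set.range (sec g)).ncard ≤ N →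
    Poly g → ∃ s, g ∈ (PS X s).S := by
  classical
  induction N with
  | zero =>
    intro g hfin hN _
    have h1 : (Set.range (sec g)).ncard = 0 := by omega
    rw [Set.ncard_eq_zero hfin] at h1
    exact absurd h1 (Set.range_nonempty _).ne_empty
  | succ N ih =>
    intro g hfin hN hp
    by_cases hg : g = 1
    · exact ⟨0, by rw [hg]; exact one_mem _⟩
    -- vertices which are not on
    have hoff : ∀ v : List X, (∀ w, sec g (v ++ w) ≠ g) → ∃ s, sec g v ∈ (PS X s).S := by
      intro v hv
      have hsub : Set.range (sec (sec g v)) ⊆ Set.range (sec g) := by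
        rintro _ ⟨w, rfl⟩
        exact ⟨v ++ w, (sec_sec g v w).symm⟩
      have hss : Set.range (sec (sec g v)) ⊂ Set.range (sec g) := by
        refine ⟨hsub, fun h => ?_⟩
        obtain ⟨w, hw⟩ := h ⟨[], rfl⟩
        rw [sec_sec, sec_nil] at hw
        exact hv w hw
      have hlt := Set.ncard_lt_ncard hss hfin
      exact ih _ (hfin.subset hsub) (by omega) (hp.sec v)
    -- a uniform degree
    have hun : ∃ D, ∀ v : List X, (∀ w, sec g (v ++ w) ≠ g) → sec g v ∈ (PS X D).S := by
      have h1 : ∀ h : TA X, ∃ s, (∃ t, h ∈ (PS X t).S) → h ∈ (PS X s).S := by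
        intro h
        by_cases h2 : ∃ t, h ∈ (PS X t).S
        · obtain ⟨t, ht⟩ := h2
          exact ⟨t, fun _ => ht⟩
        · exact ⟨0, fun h3 => absurd h3 h2⟩
      choose f hf using h1
      refine ⟨hfin.toFinset.sup f, fun v hv => ?_⟩
      exact PS_mono (Finset.le_sup (f := f) (hfin.mem_toFinset.2 ⟨v, rfl⟩)) (hf _ (hoff v hv))
    obtain ⟨D, hD⟩ := hun
    by_cases hret : ∃ (x0 : X) (w0 : List X), sec g (x0 :: w0) = g
    · obtain ⟨x0, w0, hr⟩ := hret
      obtain ⟨ζ, -, hζ⟩ := extend_ray (fun v => ∃ w, sec g (v ++ w) = g) (by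
        rintro v ⟨w, hw⟩
        cases w with
        | cons x w => exact ⟨x, w, by rw [List.append_assoc]; exact hw⟩
        | nil =>
          refine ⟨x0, w0, ?_⟩
          rw [List.append_nil] at hw
          rw [List.append_assoc, ← sec_sec, hw]
          exact hr) [] ⟨[], rfl⟩
      refine ⟨D + 1, (PS X D).arP_mem (ξ := ζ) (ArP.mk (Set.range (sec g)) hfin
        fun n x hx => ⟨⟨_, rfl⟩, hD _ fun w hw => ?_⟩)⟩
      obtain ⟨q, hq⟩ := hζ (n + 1)
      have h1 := on_unique hg hp (by
        rw [List.length_append, length_pre, List.length_nil, Nat.zero_add, length_pre]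
        rfl) hw hq
      rw [List.length_nil, Nat.zero_add, pre_succ'] at h1
      exact hx (List.cons.inj (List.append_cancel_left h1)).1
    · push Not at hret
      refine ⟨D, (PS X D).asm fun x => ?_⟩
      exact hD [x] fun w => hret x w

theorem PS_of_poly {X : Type} [Finite X] {g : TA X} (hfs : (Set.range (sec g)).Finite) {B d : ℕ}
    (hB : ∀ n, {v : List X | v.length = n ∧ sec g v ≠ 1}.ncard ≤ B * (n + 1) ^ d) :
    ∃ s, g ∈ (PS X s).S := PS_aux _ g hfs le_rfl ⟨B, d, hB⟩

end Pool.Agent.H98.FJ
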