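import Pool.Agent.H98.FJ.P.Contr
import Pool.Agent.H98.FJ.Contract

/-!
# The base of the induction: the cover of the first group
-/

set_option autoImplicit false
set_option linter.unusedSectionVars false

namespace Pool.Agent.H98.FJ

open TA

variable {X : Type} [Finite X]

/-- finitely many finitary automorphisms of bounded depth -/
theorem finite_Fk (k : ℕ) : {g : TA X | Fk k g}.Finite := by
  have hf : Finite {v : List X // v.length = k} := (List.finite_length_eq X k).to_subtype
  refine Set.Finite.of_finite_image (f := fun g => levHom k g) (Set.toFinite _) ?_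
  intro a ha b hb hab
  have h1 : ∀ v : List X, v.length = k → act v a = act v b := fun v hv =>
    congrArg (fun p : Equiv.Perm {v : List X // v.length = k} => (p ⟨v, hv⟩).1) hab
  ext v x : 2
  rcases le_or_gt k v.length with hv | hv
  · rw [ha v hv, hb v hv]
  · have h2 := h1 (v ++ x :: List.replicate (k - v.length - 1) x) (by
      rw [List.length_append, List.length_cons, List.length_replicate]
      omega)
    rw [act_append, act_append] at h2
    have h3 := (List.append_inj h2 (by rw [length_act, length_act])).2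
    rw [act_cons] at h3
    have h4 := (List.cons.inj h3).1
    rw [sec_apply, sec_apply, List.append_nil] at h4
    exact h4

/-- arrows in the sense of `Rays.lean` are arrows with finitary labels -/
theorem Arr_of_bar {ξ : ℕ → X} {a : ℕ → Wr (finC X).S X} (ha : IsAr ξ a) :
    Arr ξ (bar ξ (mp (finC X).S.subtype a)) := by
  -- a common depth of the labels
  have h1 : ∀ b : Wr (finC X).S X, ∃ k, ∀ x, Fk k (b.sec x).1 := by
    intro b
    have h2 : ∀ x, ∃ k, Fk k (b.sec x).1 := fun x => (b.sec x).2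
    choose k hk using h2
    have := Fintype.ofFinite X
    exact ⟨Finset.univ.sup k, fun x => Fk_mono (Finset.le_sup (Finset.mem_univ x)) (hk x)⟩
  choose k hk using h1
  refine ⟨ha.fin.toFinset.sup k, fun n x w hx hw => ?_⟩
  have h2 : pre ξ n ++ x :: w = (pre ξ n ++ [x]) ++ w := by
    rw [List.append_assoc]
    rfl
  rw [h2]
  change sec (bar ξ (mp (finC X).S.subtype a)) (pre ξ n ++ [x]) w = 1
  rw [bar_pre_off _ _ n hx]
  have h3 : k (a n) ≤ ha.fin.toFinset.sup k :=
    Finset.le_sup (ha.fin.mem_toFinset.2 ⟨n, rfl⟩)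
  exact hk (a n) x w (h3.trans hw)

theorem ArP_of_Arr {ξ : ℕ → X} {g : TA X} (hg : Arr ξ g) : ArP (finC X).S ξ g := by
  obtain ⟨k, hk⟩ := hg
  refine ArP.mk {g : TA X | Fk k g} (finite_Fk k) fun n x hx => ?_
  have h1 : Fk k (sec g (pre ξ n ++ [x])) := by
    intro w hw
    rw [sec_apply, List.append_assoc]
    exact hk n x w hx hw
  exact ⟨h1, ⟨k, h1⟩⟩

theorem cf_injective (ξ0 : ℕ → X) : Function.Injective (cf ξ0) := by
  classical
  exact Monoid.CoprodI.of_injective (M := Gr ξ0) Ix.f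

/-- the finitary letters -/
def cfC (ξ0 : ℕ → X) : (finC X).S →* Cov ξ0 := cf ξ0

theorem cfC_injective (ξ0 : ℕ → X) : Function.Injective (cfC ξ0) := cf_injective ξ0

theorem psi_cfC (ξ0 : ℕ → X) (p : (finC X).S) : psi ξ0 (cfC ξ0 p) = psiF ξ0 p := psi_cf ξ0 p

/-- the cover of the group of bounded automorphisms as an algebra over the finitary group -/
noncomputable def CovAlg (ξ0 : ℕ → X) : PAlg (psiC (finC X)) (Cov ξ0) where
  psi := psi ξ0
  iota := cfC ξ0
  lam := fun ξ a => lam ξ0 ξ (bar ξ (mp (finC X).S.subtype a))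
  inj := cfC_injective ξ0
  fn := by
    refine ⟨fun ξ g h hh hg => ?_⟩
    have h1 := Arr_of_bar hg
    have h2 := lam_mul (ξ0 := ξ0) (Arr_of_bar hh) (g := bar (ap h ξ) (mp (finC X).S.subtype g))
      (by rw [actR_bar, ap_mp]; exact h1)
    rw [map_mul, bar_mul]
    rw [actR_bar] at h2
    exact h2
  psi_iota := fun p => by
    rw [psi_cfC]
    refine Wr.ext (funext fun x => ?_) rfl
    exact cf'_def (finG_sec p.2 [x])
  psi_lam := fun ξ a ha => by
    rw [psi_lam (Arr_of_bar ha)]
    refine PsiA_ext ?_ (fun x hx => ?_) rfl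
    · unfold Psi
      simp only [if_true]
      rw [bar_on]
      rfl
    · unfold Psi
      simp only [if_neg hx]
      rw [bar_off _ _ hx]
      exact cf'_def ((a 0).sec x).2

theorem CovAlg_con (ξ0 : ℕ → X) (f : Cov ξ0) : ConA (CovAlg ξ0) f := by
  intro ζ
  obtain ⟨n, hn⟩ := con_all ξ0 f ζ
  obtain ⟨h1, h2⟩ := hn n le_rfl
  obtain ⟨a, ha, he⟩ := ArP_of_Arr h1
  refine ⟨n, a, ha, ?_⟩
  change secw (psi ξ0) (pre ζ n) f = lam ξ0 (sh ζ n) (bar (sh ζ n) (mp (finC X).S.subtype a))
  rw [he]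
  exact h2

/-- the assembling isomorphism -/
noncomputable def asmH (P : Cpl X) : Wr P.S X →* P.S :=
  (MulEquiv.ofBijective (psiC P) ⟨psiC_injective P, fun b => by
    have h1 : ∀ x, sec1 (fun v => match v with
      | [] => b.perm
      | x :: w => (b.sec x).1 w : TA X) x = (b.sec x).1 := fun x => rfl
    exact ⟨⟨(fun v => match v with
      | [] => b.perm
      | x :: w => (b.sec x).1 w : TA X), P.asm fun x => by rw [h1]; exact (b.sec x).2⟩, rfl⟩⟩).symm

theorem asmH_psiC (P : Cpl X) (p : P.S) : asmH P (psiC P p) = p :=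
  (MulEquiv.ofBijective (psiC P) _).symm_apply_apply p

/-- the retraction on the factors -/
def retI (ξ0 : ℕ → X) : (i : Ix ξ0) → Gr ξ0 i →* finG X
  | .f => MonoidHom.id (finG X)
  | .d => 1
  | .t _ _ => 1

/-- the retraction onto the finitary group -/
def ret (ξ0 : ℕ → X) : Cov ξ0 →* (finC X).S := Monoid.CoprodI.lift (retI ξ0)

theorem ret_cfC (ξ0 : ℕ → X) (p : (finC X).S) : ret ξ0 (cfC ξ0 p) = p :=
  Monoid.CoprodI.lift_of (M := Gr ξ0) (retI ξ0) (i := Ix.f) p

open Classical in
theorem CovAlg_good {C : (G : Type) → [Group G] → Prop} (hC : Inherits C) (ξ0 : ℕ → X) :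
    Good C (CovAlg ξ0) := by
  let r : Cov ξ0 →* (finC X).S := ret ξ0
  have hr : r.comp (cfC ξ0) = MonoidHom.id (finC X).S := MonoidHom.ext fun p => ret_cfC ξ0 p
  refine ⟨hC.coprodI (Gr_mem hC ξ0), ⟨fun ξ g => (CovAlg ξ0).lam ξ (mp r g),
    (CovAlg ξ0).fn.pre r, fun ξ g hg => ?_⟩,
    ⟨(cfC ξ0).comp ((asmH (finC X)).comp (Wr.map r)), fun p => ?_⟩⟩
  · change (CovAlg ξ0).lam ξ (mp r (mp (cfC ξ0) g)) = _
    rw [mp_mp, hr, mp_id]
  · change cfC ξ0 (asmH (finC X) (Wr.map r (Wr.map (cfC ξ0) (psiC (finC X) p)))) = cfC ξ0 p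
    rw [← Wr.map_comp, hr, Wr.map_id, asmH_psiC]

variable {C : (G : Type) → [Group G] → Prop}

/-- all groups of the hierarchy belong to the classes -/
theorem GG_all (hC : Inherits C) (hE : Extension C) (ξ0 : ℕ → X) (s : ℕ) :
    GG C (psiC (PS X s)) (PS X s).suc.S (EA (PS X s)) := by
  induction s with
  | zero => exact GG_suc hC (P := finC X) (CovAlg_con ξ0) (GG.good _ _ (CovAlg_good hC ξ0))
  | succ s ih => exact GG_step hC hE ξ0 (PS X s) ih

/-- the groups of degree `s` are in the class -/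
theorem PS_mem (hC : Inherits C) (hE : Extension C) (ξ0 : ℕ → X) (s : ℕ) : C (PS X s).S := by
  cases s with
  | zero => exact finG_mem hC
  | succ s => exact (GG_all hC hE ξ0 s).mem hC

/-- the union of the hierarchy -/
def PSu (X : Type) [Finite X] : Subgroup (TA X) := ⨆ s, (PS X s).S

theorem PS_directed : Directed (· ≤ ·) (fun s => (PS X s).S) := fun s t =>
  ⟨max s t, PS_mono (le_max_left s t), PS_mono (le_max_right s t)⟩

theorem mem_PSu {g : TA X} : g ∈ PSu X ↔ ∃ s, g ∈ (PS X s).S :=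
  Subgroup.mem_iSup_of_directed PS_directed

theorem PSu_mem (hC : Inherits C) (hE : Extension C) (ξ0 : ℕ → X) : C (PSu X) := by
  refine hC.union (ι := ℕ) (fun s => (PS X s).S.subgroupOf (PSu X)) ?_ ?_ ?_
  · intro i j hij x hx
    exact PS_mono hij hx
  · intro g
    exact mem_PSu.1 g.2
  · intro s
    have hle : (PS X s).S ≤ PSu X := le_iSup (fun s => (PS X s).S) s
    exact hC.iso _ _ (Subgroup.subgroupOfEquivOfLe hle).symm (PS_mem hC hE ξ0 s)

end Pool.Agent.H98.FJ
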