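import Pool.Agent.H98.FJ.P.Real
import Pool.Agent.H98.FJ.Generate

/-!
# Complete groups of automorphisms of the tree and realized arrows
-/

set_option autoImplicit false
set_option linter.unusedSectionVars false

namespace Pool.Agent.H98.FJ

open TA

variable {X : Type}

open Classical in
/-- values of the realized arrow -/
noncomputable def barA : List X → (ℕ → X) → (ℕ → Wr (TA X) X) → Equiv.Perm X
  | [], _, g => (g 0).perm
  | x :: w, ξ, g => if x = ξ 0 then barA w (sh ξ 1) (sg g 1) else (g 0).sec x w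

/-- the automorphism given by a formal arrow with labels automorphisms -/
noncomputable def bar (ξ : ℕ → X) (g : ℕ → Wr (TA X) X) : TA X := fun v => barA v ξ g

theorem bar_nil (ξ : ℕ → X) (g : ℕ → Wr (TA X) X) : bar ξ g [] = (g 0).perm := rfl

open Classical in
theorem bar_on (ξ : ℕ → X) (g : ℕ → Wr (TA X) X) :
    sec1 (bar ξ g) (ξ 0) = bar (sh ξ 1) (sg g 1) := by
  funext w
  change (if ξ 0 = ξ 0 then barA w (sh ξ 1) (sg g 1) else (g 0).sec (ξ 0) w) = _
  exact if_pos rfl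

open Classical in
theorem bar_off (ξ : ℕ → X) (g : ℕ → Wr (TA X) X) {x : X} (hx : x ≠ ξ 0) :
    sec1 (bar ξ g) x = (g 0).sec x := by
  funext w
  change (if x = ξ 0 then barA w (sh ξ 1) (sg g 1) else (g 0).sec x w) = _
  exact if_neg hx

/-- the self-similarity of the full automorphism group -/
def psiT (X : Type) : TA X →* Wr (TA X) X where
  toFun g := ⟨fun x => sec1 g x, g []⟩
  map_one' := rfl
  map_mul' _ _ := rfl

theorem psiT_injective : Function.Injective (psiT X) := by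
  intro g h e
  funext v
  cases v with
  | nil => exact congrArg (fun b : Wr (TA X) X => b.perm) e
  | cons x w => exact congrFun (congrArg (fun b : Wr (TA X) X => b.sec x) e) w

theorem psiT_bar (ξ : ℕ → X) (g : ℕ → Wr (TA X) X) : psiT X (bar ξ g) = PsiA id bar ξ g :=
  PsiA_ext (bar_on ξ g) (fun _ hx => bar_off ξ g hx) rfl

theorem bar_realizes : Realizes (psiT X) id bar := fun ξ g _ => psiT_bar ξ g

theorem secw_psiT (v : List X) (g : TA X) : secw (psiT X) v g = sec g v := by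
  induction v generalizing g with
  | nil => rfl
  | cons x v ih =>
    rw [secw_cons, ih]
    rfl

theorem portf_psiT (g : TA X) : portf (psiT X) g = g := by
  funext v
  rw [portf_apply, secw_psiT]
  change sec g v [] = g v
  rw [sec_apply, List.append_nil]

theorem bar_mul (ξ : ℕ → X) (g h : ℕ → Wr (TA X) X) :
    bar ξ (g * h) = bar (ap h ξ) g * bar ξ h := by
  funext v
  induction v generalizing ξ g h with
  | nil => rfl
  | cons x w ih =>
    change sec1 (bar ξ (g * h)) x w = sec1 (bar (ap h ξ) g * bar ξ h) x w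
    rw [sec1_mul, bar_nil]
    by_cases hx : x = ξ 0
    · subst hx
      have e : (h 0).perm (ξ 0) = (ap h ξ) 0 := rfl
      rw [e, bar_on, bar_on, bar_on, sg_mul, ih, ap_sg]
    · have hx' : (h 0).perm x ≠ (ap h ξ) 0 := fun e => hx ((h 0).perm.injective e)
      rw [bar_off _ _ hx, bar_off _ _ hx', bar_off _ _ hx]
      rfl

theorem bar_one (ξ : ℕ → X) : bar ξ (1 : ℕ → Wr (TA X) X) = 1 := by
  have h1 := bar_mul ξ (1 : ℕ → Wr (TA X) X) 1
  rw [mul_one, ap_one] at h1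
  exact left_eq_mul.1 h1

theorem bar_inv (ξ : ℕ → X) (g : ℕ → Wr (TA X) X) : bar (ap g ξ) g⁻¹ = (bar ξ g)⁻¹ := by
  have h1 := bar_mul ξ g⁻¹ g
  rw [inv_mul_cancel, bar_one] at h1
  exact (inv_eq_of_mul_eq_one_left h1.symm).symm

theorem bar_pre (ξ : ℕ → X) (g : ℕ → Wr (TA X) X) (n : ℕ) :
    sec (bar ξ g) (pre ξ n) = bar (sh ξ n) (sg g n) := by
  induction n generalizing ξ g with
  | zero => rw [pre_zero, sec_nil, sh_zero, sg_zero]
  | succ n ih =>
    rw [pre_succ, sec_cons, bar_on, ← sh_one, ih, sh_sh, sg_sg, Nat.add_comm 1 n]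

theorem bar_pre_off (ξ : ℕ → X) (g : ℕ → Wr (TA X) X) (n : ℕ) {x : X} (hx : x ≠ ξ n) :
    sec (bar ξ g) (pre ξ n ++ [x]) = (g n).sec x := by
  rw [← sec_sec, bar_pre, ← sec1_eq]
  have h1 : x ≠ sh ξ n 0 := by simpa [sh] using hx
  rw [bar_off _ _ h1]
  rfl

theorem bar_val (ξ : ℕ → X) (g : ℕ → Wr (TA X) X) (n : ℕ) : bar ξ g (pre ξ n) = (g n).perm := by
  have h1 := congrFun (bar_pre ξ g n) []
  rw [sec_apply, List.append_nil, bar_nil] at h1
  exact h1

theorem actR_bar (ξ : ℕ → X) (g : ℕ → Wr (TA X) X) : actR (bar ξ g) ξ = ap g ξ := by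
  funext n
  change bar ξ g (pre ξ n) (ξ n) = (g n).perm (ξ n)
  rw [bar_val]

/-- complete groups: self-similar, closed under assembling, and contracting to arrows -/
structure Cpl (X : Type) where
  S : Subgroup (TA X)
  sec1_mem : ∀ {g : TA X}, g ∈ S → ∀ x, sec1 g x ∈ S
  asm : ∀ {g : TA X}, (∀ x, sec1 g x ∈ S) → g ∈ S
  gr : ∀ {g : TA X}, g ∈ S → ∀ ζ : ℕ → X, ∃ (n : ℕ) (a : ℕ → Wr S X), IsAr (sh ζ n) a ∧
    bar (sh ζ n) (mp S.subtype a) = sec g (pre ζ n)

theorem Cpl.sec_mem (P : Cpl X) {g : TA X} (hg : g ∈ P.S) (v : List X) : sec g v ∈ P.S := by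
  induction v generalizing g with
  | nil => exact hg
  | cons x v ih => exact ih (P.sec1_mem hg x)

/-- arrows with labels in `S` -/
def ArP (S : Subgroup (TA X)) (ξ : ℕ → X) (g : TA X) : Prop :=
  ∃ a : ℕ → Wr S X, IsAr ξ a ∧ bar ξ (mp S.subtype a) = g

variable {S : Subgroup (TA X)}

open Classical in
/-- the formal arrow of an automorphism -/
noncomputable def arr (S : Subgroup (TA X)) (ξ : ℕ → X) (g : TA X) : ℕ → Wr S X := fun n =>
  ⟨fun x => if h : x ≠ ξ n ∧ sec g (pre ξ n ++ [x]) ∈ S then ⟨_, h.2⟩ else 1, g (pre ξ n)⟩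

open Classical in
theorem arr_nrm (S : Subgroup (TA X)) (ξ : ℕ → X) (g : TA X) (n : ℕ) :
    (arr S ξ g n).sec (ξ n) = 1 := dif_neg (fun h => h.1 rfl)

open Classical in
theorem arr_sec (S : Subgroup (TA X)) (ξ : ℕ → X) (g : TA X) (n : ℕ) {x : X} (hx : x ≠ ξ n)
    (h : sec g (pre ξ n ++ [x]) ∈ S) : (arr S ξ g n).sec x = ⟨_, h⟩ := dif_pos ⟨hx, h⟩

open Classical in
theorem bar_arr (S : Subgroup (TA X)) (ξ : ℕ → X) (g : TA X)
    (h : ∀ n x, x ≠ ξ n → sec g (pre ξ n ++ [x]) ∈ S) : bar ξ (mp S.subtype (arr S ξ g)) = g := by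
  funext v
  rcases split_ray ξ v with hv | ⟨n, x, w, hx, rfl⟩
  · rw [hv, bar_val]
    rfl
  · have h1 : pre ξ n ++ x :: w = (pre ξ n ++ [x]) ++ w := by
      rw [List.append_assoc]
      rfl
    rw [h1]
    change sec (bar ξ (mp S.subtype (arr S ξ g))) (pre ξ n ++ [x]) w = sec g (pre ξ n ++ [x]) w
    rw [bar_pre_off _ _ n hx, mp_apply, Wr.map_sec, arr_sec S ξ g n hx (h n x hx)]
    rfl

open Classical in
theorem arr_isAr [Finite X] (S : Subgroup (TA X)) (ξ : ℕ → X) (g : TA X) (T : Set (TA X))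
    (hT : T.Finite) (h : ∀ n x, x ≠ ξ n → sec g (pre ξ n ++ [x]) ∈ T) : IsAr ξ (arr S ξ g) := by
  refine ⟨?_, arr_nrm S ξ g⟩
  have h1 : (insert (1 : S) {s : S | s.1 ∈ T}).Finite :=
    (Set.Finite.preimage (Subtype.val_injective.injOn) hT).insert 1
  have h2 : (Set.univ.pi fun _ : X => insert (1 : S) {s : S | s.1 ∈ T}).Finite :=
    Set.Finite.pi fun _ => h1
  refine (Set.Finite.image2 (fun a p => (⟨a, p⟩ : Wr S X)) h2
    (Set.finite_univ (α := Equiv.Perm X))).subset ?_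
  rintro _ ⟨n, rfl⟩
  refine ⟨(arr S ξ g n).sec, fun x _ => ?_, g (pre ξ n), Set.mem_univ _, rfl⟩
  by_cases hx : x ≠ ξ n ∧ sec g (pre ξ n ++ [x]) ∈ S
  · rw [arr_sec S ξ g n hx.1 hx.2]
    exact Or.inr (h n x hx.1)
  · left
    exact dif_neg hx

/-- recognition of arrows -/
theorem ArP.mk [Finite X] {ξ : ℕ → X} {g : TA X} (T : Set (TA X)) (hT : T.Finite)
    (h : ∀ n x, x ≠ ξ n → sec g (pre ξ n ++ [x]) ∈ T ∧ sec g (pre ξ n ++ [x]) ∈ S) :
    ArP S ξ g :=
  ⟨arr S ξ g, arr_isAr S ξ g T hT (fun n x hx => (h n x hx).1),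
    bar_arr S ξ g (fun n x hx => (h n x hx).2)⟩

theorem ArP.one (ξ : ℕ → X) : ArP S ξ 1 := ⟨1, IsAr.one ξ, by rw [map_one, bar_one]⟩

theorem ArP.mul {ξ : ℕ → X} {g h : TA X} (hh : ArP S ξ h) (hg : ArP S (actR h ξ) g) :
    ArP S ξ (g * h) := by
  obtain ⟨a, ha, rfl⟩ := hh
  obtain ⟨b, hb, rfl⟩ := hg
  rw [actR_bar, ap_mp] at hb
  refine ⟨b * a, ha.mul hb, ?_⟩
  rw [map_mul, bar_mul, actR_bar]

theorem ArP.inv {ξ : ℕ → X} {g : TA X} (hg : ArP S ξ g) : ArP S (actR g ξ) g⁻¹ := by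
  obtain ⟨a, ha, rfl⟩ := hg
  refine ⟨a⁻¹, ?_, ?_⟩
  · rw [actR_bar, ap_mp]
    exact ha.inv
  · rw [map_inv, actR_bar, bar_inv]

theorem ArP.sec {ξ : ℕ → X} {g : TA X} (hg : ArP S ξ g) (n : ℕ) :
    ArP S (sh ξ n) (TA.sec g (pre ξ n)) := by
  obtain ⟨a, ha, rfl⟩ := hg
  exact ⟨sg a n, ha.sg n, by rw [bar_pre, sg_mp]⟩

theorem ArP.mono {T : Subgroup (TA X)} (h : S ≤ T) {ξ : ℕ → X} {g : TA X} (hg : ArP S ξ g) :
    ArP T ξ g := by
  obtain ⟨a, ha, rfl⟩ := hg
  exact ⟨mp (Subgroup.inclusion h) a, ha.mp _, by rw [mp_mp]; rfl⟩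

theorem ArP.sec_ge {ζ : ℕ → X} {g : TA X} {n : ℕ} (h : ArP S (sh ζ n) (TA.sec g (pre ζ n)))
    {m : ℕ} (hm : n ≤ m) : ArP S (sh ζ m) (TA.sec g (pre ζ m)) := by
  obtain ⟨k, rfl⟩ := Nat.exists_eq_add_of_le hm
  have h1 := h.sec k
  rw [sh_sh, sec_sec, ← pre_add] at h1
  exact h1

theorem sh_cons (x : X) (ζ : ℕ → X) (n : ℕ) : sh (cons x ζ) (n + 1) = sh ζ n := by
  funext m
  change cons x ζ (n + 1 + m) = ζ (n + m)
  rw [show n + 1 + m = (n + m) + 1 by omega]
  rfl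

/-- the group of the next degree -/
def sucG (S : Subgroup (TA X)) : Subgroup (TA X) where
  carrier := {g | ∀ ζ : ℕ → X, ∃ n, ArP S (sh ζ n) (sec g (pre ζ n))}
  mul_mem' := by
    intro g h hg hh ζ
    obtain ⟨n, hn⟩ := hh ζ
    obtain ⟨m, hm⟩ := hg (actR h ζ)
    have h1 := hn.sec_ge (le_max_left n m)
    have h2 := hm.sec_ge (le_max_right n m)
    refine ⟨max n m, ?_⟩
    rw [sec_mul]
    rw [pre_actR, sh_actR] at h2
    exact h1.mul h2
  one_mem' := fun ζ => ⟨0, by rw [sec_one]; exact ArP.one _⟩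
  inv_mem' := by
    intro g hg ζ
    obtain ⟨n, hn⟩ := hg (actR g⁻¹ ζ)
    refine ⟨n, ?_⟩
    have h1 := hn.inv
    rw [← sh_actR, actR_inv', pre_actR] at h1
    rw [sec_inv]
    exact h1

theorem mem_sucG {g : TA X} :
    g ∈ sucG S ↔ ∀ ζ : ℕ → X, ∃ n, ArP S (sh ζ n) (sec g (pre ζ n)) := Iff.rfl

theorem Cpl.le_suc (P : Cpl X) : P.S ≤ sucG P.S := fun _ hg ζ => P.gr hg ζ

/-- the first place where two rays differ -/
theorem exists_split {ζ ξ : ℕ → X} (h : ζ ≠ ξ) : ∃ n, ζ n ≠ ξ n ∧ pre ζ n = pre ξ n := by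
  classical
  have hex : ∃ n, ζ n ≠ ξ n := by
    by_contra hcon
    push Not at hcon
    exact h (funext hcon)
  have hlt : ∀ m, m < Nat.find hex → ζ m = ξ m := fun m hm => not_not.1 (Nat.find_min hex hm)
  refine ⟨Nat.find hex, Nat.find_spec hex, ?_⟩
  rw [pre_eq_map, pre_eq_map]
  exact List.map_congr_left fun m hm => hlt m (List.mem_range.1 hm)

theorem Cpl.arP_mem (P : Cpl X) {ξ : ℕ → X} {g : TA X} (hg : ArP P.S ξ g) : g ∈ sucG P.S := by
  intro ζ
  by_cases h : ζ = ξ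
  · subst h
    exact ⟨0, by rw [sh_zero, pre_zero, sec_nil]; exact hg⟩
  · obtain ⟨n, hn, he⟩ := exists_split h
    obtain ⟨a, ha, rfl⟩ := hg
    have h1 : sec (bar ξ (mp P.S.subtype a)) (pre ζ (n + 1)) ∈ P.S := by
      rw [pre_succ', he, bar_pre_off _ _ n hn]
      exact ((a n).sec (ζ n)).2
    obtain ⟨m, hm⟩ := P.gr h1 (sh ζ (n + 1))
    refine ⟨n + 1 + m, ?_⟩
    rw [sh_sh, sec_sec, ← pre_add] at hm
    exact hm

/-- the complete group of the next degree -/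
def Cpl.suc (P : Cpl X) : Cpl X where
  S := sucG P.S
  sec1_mem := by
    intro g hg x ζ
    obtain ⟨n, hn⟩ := hg (cons x ζ)
    refine ⟨n, ?_⟩
    have h1 := hn.sec_ge (Nat.le_succ n)
    rw [sh_cons, pre_cons, sec_cons] at h1
    exact h1
  asm := by
    intro g hg ζ
    obtain ⟨n, hn⟩ := hg (ζ 0) (sh ζ 1)
    refine ⟨n + 1, ?_⟩
    rw [sh_sh, Nat.add_comm 1 n] at hn
    rw [pre_succ, sec_cons, ← sh_one]
    exact hn
  gr := by
    intro g hg ζ
    obtain ⟨n, hn⟩ := hg ζ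
    obtain ⟨a, ha, he⟩ := hn.mono P.le_suc
    exact ⟨n, a, ha, he⟩

/-- the finitary automorphisms -/
def finC (X : Type) [Finite X] : Cpl X where
  S := finG X
  sec1_mem := fun hg x => finG_sec hg [x]
  asm := by
    intro g hg
    have h1 : ∀ x, ∃ k, Fk k (sec1 g x) := hg
    choose k hk using h1
    have := Fintype.ofFinite X
    refine ⟨Finset.univ.sup k + 1, fun w hw => ?_⟩
    cases w with
    | nil => simp at hw
    | cons x w =>
      exact hk x w (by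
        have h3 : k x ≤ Finset.univ.sup k := Finset.le_sup (Finset.mem_univ x)
        rw [List.length_cons] at hw
        omega)
  gr := by
    rintro g ⟨k, hk⟩ ζ
    refine ⟨k, 1, IsAr.one _, ?_⟩
    rw [map_one, bar_one]
    symm
    ext w : 1
    exact hk _ (by rw [List.length_append, length_pre]; omega)

/-- the groups of degree `s` -/
def PS (X : Type) [Finite X] : ℕ → Cpl X
  | 0 => finC X
  | s + 1 => (PS X s).suc

theorem PS_mono [Finite X] {s t : ℕ} (h : s ≤ t) : (PS X s).S ≤ (PS X t).S := by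
  induction t, h using Nat.le_induction with
  | base => exact le_rfl
  | succ t _ ih => exact ih.trans (PS X t).le_suc

end Pool.Agent.H98.FJ
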