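import Pool.Agent.H98.FJ.P.Step
import Pool.Agent.H98.FJ.P.Cpl

/-!
# Contracting algebras and the group of the next degree
-/

set_option autoImplicit false
set_option linter.unusedSectionVars false

namespace Pool.Agent.H98.FJ

open TA

/-! ### contraction in algebras over an abstract group -/

section abs

variable {X P : Type} [Group P] {psiP : P →* Wr P X} {L M : Type} [Group L] [Group M]

theorem PAlg.realizes (A : PAlg psiP L) : Realizes A.psi A.iota A.lam := A.psi_lam

/-- along every ray the sections of `l` are eventually arrows -/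
def ConA (A : PAlg psiP L) (l : L) : Prop := ∀ ζ : ℕ → X, ∃ (n : ℕ) (a : ℕ → Wr P X),
  IsAr (sh ζ n) a ∧ secw A.psi (pre ζ n) l = A.lam (sh ζ n) a

variable {A : PAlg psiP L}

theorem con_ge {ζ : ℕ → X} {l : L} {n : ℕ} (h : ∃ a : ℕ → Wr P X, IsAr (sh ζ n) a ∧
    secw A.psi (pre ζ n) l = A.lam (sh ζ n) a) {m : ℕ} (hm : n ≤ m) : ∃ a : ℕ → Wr P X,
    IsAr (sh ζ m) a ∧ secw A.psi (pre ζ m) l = A.lam (sh ζ m) a := by
  obtain ⟨k, rfl⟩ := Nat.exists_eq_add_of_le hm
  obtain ⟨a, ha, he⟩ := h
  refine ⟨sg a k, ?_, ?_⟩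
  · rw [← sh_sh]
    exact ha.sg k
  · rw [pre_add, secw_append, he, A.realizes.secw_pre ha, sh_sh]

theorem ConA.one (A : PAlg psiP L) : ConA A 1 := fun ζ =>
  ⟨0, 1, IsAr.one _, by rw [secw_one, A.fn.one]⟩

theorem actR_portf_lam (A : PAlg psiP L) {ξ : ℕ → X} {a : ℕ → Wr P X} (ha : IsAr ξ a) :
    actR (portf A.psi (A.lam ξ a)) ξ = ap a ξ := by
  funext n
  change portf A.psi (A.lam ξ a) (pre ξ n) (ξ n) = (a n).perm (ξ n)
  rw [A.realizes.port_pre ha]

theorem ConA.mul {f g : L} (hf : ConA A f) (hg : ConA A g) : ConA A (f * g) := by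
  intro ζ
  obtain ⟨n, hn⟩ := hg ζ
  obtain ⟨m, hm⟩ := hf (actR (portf A.psi g) ζ)
  obtain ⟨b, hb, hbe⟩ := con_ge hn (le_max_left n m)
  obtain ⟨a, ha, hae⟩ := con_ge hm (le_max_right n m)
  refine ⟨max n m, a * b, ?_⟩
  have h1 : sh (actR (portf A.psi g) ζ) (max n m) = ap b (sh ζ (max n m)) := by
    rw [sh_actR, sec_portf, hbe, actR_portf_lam A hb]
  rw [h1] at ha hae
  refine ⟨hb.mul ha, ?_⟩
  rw [secw_mul, ← pre_actR, hae, hbe, A.fn.mul _ _ _ hb ha]

theorem ConA.shift {l : L} {ζ : ℕ → X} {m : ℕ} (h : ConA A (secw A.psi (pre ζ m) l)) :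
    ∃ (n : ℕ) (a : ℕ → Wr P X), IsAr (sh ζ n) a ∧
      secw A.psi (pre ζ n) l = A.lam (sh ζ n) a := by
  obtain ⟨n, a, h1, h2⟩ := h (sh ζ m)
  refine ⟨m + n, a, ?_⟩
  rw [pre_add, secw_append, ← sh_sh]
  exact ⟨h1, h2⟩

theorem ConA.lam (h : ∀ p, ConA A (A.iota p)) {ξ : ℕ → X} {a : ℕ → Wr P X} (ha : IsAr ξ a) :
    ConA A (A.lam ξ a) := by
  intro ζ
  by_cases hz : ζ = ξ
  · subst hz
    exact ⟨0, a, by rw [sh_zero]; exact ha, by rw [pre_zero, secw_nil, sh_zero]⟩
  · obtain ⟨n, hn, he⟩ := exists_split hz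
    apply ConA.shift (m := n + 1)
    rw [pre_succ', he, A.realizes.secw_off ha n hn]
    exact h _

theorem ConA.thick (hP : Function.Injective psiP) (h : ∀ l, ConA A l) (b : Wr L X) :
    ConA (A.thick hP) b := by
  intro ζ
  obtain ⟨n, a, ha, he⟩ := h (b.sec (ζ 0)) (sh ζ 1)
  rw [sh_sh] at ha he
  refine ⟨1 + n, a, ha, ?_⟩
  rw [Nat.add_comm 1 n, pre_succ, secw_cons, ← sh_one]
  change secw (A.thick hP).psi (pre (sh ζ 1) n) (A.psi (b.sec (ζ 0))) = _
  rw [secw_mor (A.mor_psi hP).psi, he, Nat.add_comm 1 n]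
  rfl

/-- the iterated thickenings -/
noncomputable def ths (hP : Function.Injective psiP) (A : PAlg psiP L) : ℕ → BA psiP
  | 0 => ⟨L, inferInstance, A⟩
  | n + 1 => ⟨Wr (ths hP A n).L X, inferInstance, (ths hP A n).alg.thick hP⟩

theorem ConA.ths (hP : Function.Injective psiP) (h : ∀ l, ConA A l) (n : ℕ) :
    ∀ l, ConA (FJ.ths hP A n).alg l := by
  induction n with
  | zero => exact h
  | succ n ih => exact ConA.thick hP ih

theorem GG.ths [Finite X] {C : (G : Type) → [Group G] → Prop} (hC : Inherits C)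
    (hP : Function.Injective psiP) (h : GG C psiP L A) (n : ℕ) :
    GG C psiP (FJ.ths hP A n).L (FJ.ths hP A n).alg := by
  induction n with
  | zero => exact h
  | succ n ih => exact ih.thick hC hP

/-- the steps -/
noncomputable def thStep (hP : Function.Injective psiP) (A : PAlg psiP L) (n : ℕ) :
    (ths hP A n).L →* (ths hP A (n + 1)).L := (ths hP A n).alg.psi

theorem thStep_mor (hP : Function.Injective psiP) (A : PAlg psiP L) (n : ℕ) :
    Mor (ths hP A n).alg (ths hP A (n + 1)).alg (thStep hP A n) := (ths hP A n).alg.mor_psi hP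

/-- elements with trivial sections on a level, which act trivially, die -/
theorem th_kill (hP : Function.Injective psiP) (A : PAlg psiP L) (N : ℕ) :
    ∀ (i : ℕ) (l : (ths hP A i).L), (∀ v : List X, v.length = N →
      secw (ths hP A i).alg.psi v l = 1) → portf (ths hP A i).alg.psi l = 1 →
      ∃ (j : ℕ) (h : i ≤ j), tr (thStep hP A) i j h l = 1 := by
  induction N with
  | zero =>
    intro i l h _
    have h1 : l = 1 := h [] rfl
    exact ⟨i, le_rfl, by rw [h1, map_one]⟩
  | succ N ih =>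
    intro i l h hl
    have hm := (thStep_mor hP A i).psi
    obtain ⟨j, hj, he⟩ := ih (i + 1) (thStep hP A i l) (by
      intro v hv
      rw [secw_mor hm]
      change (ths hP A i).alg.psi (secw (ths hP A i).alg.psi v l) = 1
      refine Wr.ext (funext fun x => ?_) ?_
      · have h1 := h (v ++ [x]) (by rw [List.length_append, hv]; rfl)
        rw [secw_append] at h1
        exact h1
      · exact congrFun hl v) (by
      rw [portf_mor hm]
      exact hl)
    refine ⟨j, by omega, ?_⟩
    rw [tr_succ_left (thStep hP A) i j hj]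
    exact he

end abs

/-! ### the group of the next degree as an algebra -/

variable {X : Type}

/-- the self-similarity of a complete group -/
def psiC (P : Cpl X) : P.S →* Wr P.S X where
  toFun g := ⟨fun x => ⟨sec1 g.1 x, P.sec1_mem g.2 x⟩, g.1 []⟩
  map_one' := rfl
  map_mul' _ _ := rfl

theorem psiC_injective (P : Cpl X) : Function.Injective (psiC P) := by
  intro g h e
  apply Subtype.ext
  apply psiT_injective
  exact Wr.ext (funext fun x => congrArg Subtype.val (congrArg (fun b : Wr P.S X => b.sec x) e))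
    (congrArg (fun b : Wr P.S X => b.perm) e)

theorem psiC_mor (P : Cpl X) (g : P.S) : psiT X (P.S.subtype g) = Wr.map P.S.subtype (psiC P g) :=
  rfl

theorem portf_psiC (P : Cpl X) (g : P.S) : portf (psiC P) g = g.1 := by
  rw [← portf_mor (psiC_mor P), portf_psiT]
  rfl

theorem secw_psiC (P : Cpl X) (v : List X) (g : P.S) : (secw (psiC P) v g).1 = sec g.1 v := by
  rw [← secw_psiT]
  exact (secw_mor (psiC_mor P) v g).symm

variable [Finite X]

open Classical in
/-- the group of the next degree as an algebra -/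
noncomputable def EA (P : Cpl X) : PAlg (psiC P) P.suc.S where
  psi := psiC P.suc
  iota := Subgroup.inclusion P.le_suc
  lam := fun ξ a => if h : IsAr ξ a then ⟨bar ξ (mp P.S.subtype a), P.arP_mem ⟨a, h, rfl⟩⟩ else 1
  inj := Subgroup.inclusion_injective _
  fn := by
    refine ⟨fun ξ g h hh hg => ?_⟩
    rw [dif_pos hh, dif_pos hg, dif_pos (hh.mul hg)]
    apply Subtype.ext
    change bar ξ (mp P.S.subtype (g * h)) = _
    rw [map_mul, bar_mul]
    rfl
  psi_iota := fun _ => rfl
  psi_lam := fun ξ a ha => by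
    rw [dif_pos ha]
    refine PsiA_ext ?_ (fun x hx => ?_) rfl
    · rw [dif_pos (ha.sg 1)]
      exact Subtype.ext (bar_on _ _)
    · exact Subtype.ext (bar_off _ _ hx)

theorem EA_psi (P : Cpl X) : (EA P).psi = psiC P.suc := rfl

open Classical in
theorem EA_lam (P : Cpl X) {ξ : ℕ → X} {a : ℕ → Wr P.S X} (ha : IsAr ξ a) :
    ((EA P).lam ξ a).1 = bar ξ (mp P.S.subtype a) := by
  change (if h : IsAr ξ a then (⟨bar ξ (mp P.S.subtype a), P.arP_mem ⟨a, h, rfl⟩⟩ : P.suc.S)
    else 1).1 = _
  rw [dif_pos ha]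

variable {L : Type} [Group L]

theorem portf_iota {P : Cpl X} (A : PAlg (psiC P) L) (p : P.S) : portf A.psi (A.iota p) = p.1 := by
  rw [portf_mor A.psi_iota, portf_psiC]

theorem portf_lamA {P : Cpl X} (A : PAlg (psiC P) L) {ξ : ℕ → X} {a : ℕ → Wr P.S X}
    (ha : IsAr ξ a) : portf A.psi (A.lam ξ a) = bar ξ (mp P.S.subtype a) := by
  funext v
  rcases split_ray ξ v with hv | ⟨n, x, w, hx, rfl⟩
  · rw [hv, A.realizes.port_pre ha, bar_val]
    rfl
  · have h1 : pre ξ n ++ x :: w = (pre ξ n ++ [x]) ++ w := by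
      rw [List.append_assoc]
      rfl
    rw [h1]
    change sec (portf A.psi (A.lam ξ a)) (pre ξ n ++ [x]) w = sec (bar ξ _) (pre ξ n ++ [x]) w
    rw [sec_portf, A.realizes.secw_off ha n hx, bar_pre_off _ _ n hx, portf_iota]
    rfl

theorem lam_of_bar {P : Cpl X} (A : PAlg (psiC P) L) {ξ : ℕ → X} {a : ℕ → Wr P.S X}
    (ha : IsAr ξ a) (h : bar ξ (mp P.S.subtype a) = 1) : A.lam ξ a = 1 := by
  have h1 : (EA P).lam ξ a = 1 := Subtype.ext ((EA_lam P ha).trans h)
  rw [(EA P).lam_eq_one ha h1, A.fn.one]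

theorem portf_mem {P : Cpl X} {A : PAlg (psiC P) L} {l : L} (h : ConA A l) :
    portf A.psi l ∈ P.suc.S := by
  intro ζ
  obtain ⟨n, a, ha, he⟩ := h ζ
  refine ⟨n, a, ha, ?_⟩
  rw [sec_portf, he, portf_lamA A ha]

/-- the group of the next degree is in the class generated by the good algebras, if there is a contracting algebra in
this class -/
theorem GG_suc {C : (G : Type) → [Group G] → Prop} (hC : Inherits C) {P : Cpl X}
    {A : PAlg (psiC P) L} (hcon : ∀ l, ConA A l) (h : GG C (psiC P) L A) :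
    GG C (psiC P) P.suc.S (EA P) := by
  have hP := psiC_injective P
  let B : ∀ n, PAlg (psiC P) (ths hP A n).L := fun n => (ths hP A n).alg
  have hB : ∀ n l, ConA (B n) l := fun n => ConA.ths hP hcon n
  let φ : ∀ n, (ths hP A n).L →* P.suc.S := fun n =>
    { toFun := fun l => ⟨portf (B n).psi l, portf_mem (hB n l)⟩
      map_one' := Subtype.ext (portf_one _)
      map_mul' := fun a b => Subtype.ext (portf_mul _ a b) }
  have hφ : ∀ n, Mor (B n) (EA P) (φ n) := by
    intro n
    refine ⟨fun l => ?_, fun p => ?_, fun ξ a ha => ?_⟩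
    · rfl
    · exact Subtype.ext (portf_iota (B n) p)
    · exact Subtype.ext ((portf_lamA (B n) ha).trans (EA_lam P ha).symm)
  have hcol : IsColimit (tr (thStep hP A)) φ := by
    refine isColimit_seq (thStep hP A) φ ?_ ?_ ?_
    · intro i x
      exact Subtype.ext (portf_mor (thStep_mor hP A i).psi x)
    · -- surjectivity
      have key : ∀ (N : ℕ) (y : TA X), (∀ v : List X, v.length = N →
          ∃ l, portf A.psi l = sec y v) → ∃ l, portf (B N).psi l = y := by
        intro N
        induction N with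
        | zero =>
          intro y hy
          exact hy [] rfl
        | succ N ih =>
          intro y hy
          have h1 : ∀ x, ∃ l, portf (B N).psi l = sec1 y x := fun x =>
            ih (sec1 y x) fun v hv => hy (x :: v) (by rw [List.length_cons, hv])
          choose l hl using h1
          refine ⟨(⟨l, y []⟩ : Wr (ths hP A N).L X), ?_⟩
          funext v
          cases v with
          | nil => rfl
          | cons x w =>
            change portf (B (N + 1)).psi (thStep hP A N (l x)) w = sec1 y x w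
            have h2 := portf_mor (thStep_mor hP A N).psi (l x)
            exact (congrFun h2 w).trans (congrFun (hl x) w)
      intro y
      obtain ⟨N, hN⟩ := koenig (fun v => ∃ l, portf A.psi l = sec y.1 v) (by
        rintro v w ⟨l, hl⟩
        refine ⟨secw A.psi w l, ?_⟩
        rw [← sec_portf, hl, sec_sec]) (by
        intro ζ
        obtain ⟨n, a, ha, he⟩ := y.2 ζ
        exact ⟨n, A.lam (sh ζ n) a, by rw [portf_lamA A ha, he]⟩)
      obtain ⟨l, hl⟩ := key N y.1 hN
      exact ⟨N, l, Subtype.ext hl⟩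
    · intro i l hl
      have hl' : portf (B i).psi l = 1 := congrArg Subtype.val hl
      obtain ⟨N, hN⟩ := koenig (fun v => secw (B i).psi v l = 1) (by
        intro v w hv
        rw [secw_append, hv, secw_one]) (by
        intro ζ
        obtain ⟨n, a, ha, he⟩ := hB i l ζ
        refine ⟨n, ?_⟩
        rw [he]
        apply lam_of_bar (B i) ha
        rw [← portf_lamA (B i) ha, ← he, ← sec_portf, hl', sec_one])
      exact th_kill hP A N i l hN hl'
  exact GG.colim ℕ _ B _ (tr_mor B (thStep hP A) (thStep_mor hP A)) _ _ φ hφ hcol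
    (fun n => h.ths hC hP n)

/-- the cover of the next step is contracting -/
theorem con_R (P : Cpl X) (ξ0 : ℕ → X) (z : (EA P).Z ξ0) :
    ConA (PAlg.ZP (EA P) ξ0 (Mor.id (EA P)) (fun _ _ h => h)) z := by
  let R : PAlg (psiC P.suc) ((EA P).Z ξ0) := PAlg.ZP (EA P) ξ0 (Mor.id (EA P)) (fun _ _ h => h)
  have hio : ∀ p, ConA R (R.iota p) := by
    intro p ζ
    obtain ⟨n, a, ha, he⟩ := p.2 ζ
    refine ⟨n, mp (EA P).iota a, ha.mp _, ?_⟩
    rw [secw_mor R.psi_iota]
    have h1 : secw (psiC P.suc) (pre ζ n) p = (EA P).lam (sh ζ n) a := by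
      apply Subtype.ext
      rw [secw_psiC, EA_lam P ha, he]
    rw [h1]
    exact ((EA P).br_iota ξ0 ha).symm
  have hlam : ∀ {ξ : ℕ → X} {a : ℕ → Wr P.suc.S X}, IsAr ξ a → ConA R (R.lam ξ a) :=
    fun ha => ConA.lam hio ha
  induction z using Po.ind with
  | h1 p => exact hio p
  | h2 g =>
    have h1 := hlam g.2.1
    have h2 : R.lam ξ0 g.1 = Po.inr g := (EA P).br_iso ξ0 g
    rw [h2] at h1
    exact h1
  | h3 x y hx hy => exact ConA.mul hx hy

/-- the induction step for the concrete groups -/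
theorem GG_step {C : (G : Type) → [Group G] → Prop} (hC : Inherits C) (hE : Extension C)
    (ξ0 : ℕ → X) (P : Cpl X) (h : GG C (psiC P) P.suc.S (EA P)) :
    GG C (psiC P.suc) P.suc.suc.S (EA P.suc) := by
  have h1 := step_GG (EA P) ξ0 (psiC_injective P.suc) hC hE (psiC_injective P) h
  exact GG_suc hC (P := P.suc) (ConA.thick (psiC_injective P.suc) (con_R P ξ0)) h1

end Pool.Agent.H98.FJ
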