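import Pool.Agent.H98.FJ.Wr
import Pool.Agent.H98.FJ.Rays

/-!
# Formal arrows with labels in a group
-/

set_option autoImplicit false
set_option linter.unusedSectionVars false

namespace Pool.Agent.H98.FJ

namespace Wr

variable {F F' F'' Y : Type} [Group F] [Group F'] [Group F'']

/-- functoriality of the wreath product -/
def map (f : F →* F') : Wr F Y →* Wr F' Y where
  toFun b := ⟨fun y => f (b.sec y), b.perm⟩
  map_one' := by ext y <;> simp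
  map_mul' a b := by ext y <;> simp

@[simp] theorem map_sec (f : F →* F') (b : Wr F Y) (y : Y) : (map f b).sec y = f (b.sec y) := rfl
@[simp] theorem map_perm (f : F →* F') (b : Wr F Y) : (map f b).perm = b.perm := rfl

theorem map_id (b : Wr F Y) : map (MonoidHom.id F) b = b := rfl

theorem map_comp (f : F →* F') (g : F' →* F'') (b : Wr F Y) :
    map (g.comp f) b = map g (map f b) := rfl

theorem map_injective {f : F →* F'} (hf : Function.Injective f) :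
    Function.Injective (map (Y := Y) f) := by
  intro a b h
  exact Wr.ext (funext fun y => hf (congrArg (fun c : Wr F' Y => c.sec y) h))
    (congrArg (fun c : Wr F' Y => c.perm) h)

end Wr

variable {X L M N : Type} [Group L] [Group M] [Group N]

/-- the image of a ray under a sequence of permutations -/
def ap (g : ℕ → Wr L X) (ξ : ℕ → X) : ℕ → X := fun n => (g n).perm (ξ n)

theorem ap_one (ξ : ℕ → X) : ap (1 : ℕ → Wr L X) ξ = ξ := rfl
theorem ap_mul (g h : ℕ → Wr L X) (ξ : ℕ → X) : ap (g * h) ξ = ap g (ap h ξ) := rfl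
theorem ap_inv (g : ℕ → Wr L X) (ξ : ℕ → X) : ap g⁻¹ (ap g ξ) = ξ := by
  rw [← ap_mul, inv_mul_cancel, ap_one]

/-- normalized formal arrows with source `ξ` -/
structure IsAr (ξ : ℕ → X) (g : ℕ → Wr L X) : Prop where
  fin : (Set.range g).Finite
  nrm : ∀ n, (g n).sec (ξ n) = 1

theorem IsAr.one (ξ : ℕ → X) : IsAr ξ (1 : ℕ → Wr L X) := by
  refine ⟨?_, fun n => rfl⟩
  refine (Set.finite_singleton (1 : Wr L X)).subset ?_
  rintro _ ⟨n, rfl⟩
  rfl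

theorem fin_mul {g h : ℕ → Wr L X} (hg : (Set.range g).Finite) (hh : (Set.range h).Finite) :
    (Set.range (g * h)).Finite := by
  refine (Set.Finite.image2 (fun a b => a * b) hg hh).subset ?_
  rintro _ ⟨n, rfl⟩
  exact ⟨g n, ⟨n, rfl⟩, h n, ⟨n, rfl⟩, rfl⟩

theorem fin_inv {g : ℕ → Wr L X} (hg : (Set.range g).Finite) : (Set.range g⁻¹).Finite := by
  refine (hg.image (fun a => a⁻¹)).subset ?_
  rintro _ ⟨n, rfl⟩
  exact ⟨g n, ⟨n, rfl⟩, rfl⟩

theorem IsAr.mul {ξ : ℕ → X} {g h : ℕ → Wr L X} (hh : IsAr ξ h) (hg : IsAr (ap h ξ) g) :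
    IsAr ξ (g * h) := by
  refine ⟨fin_mul hg.fin hh.fin, fun n => ?_⟩
  rw [Pi.mul_apply, Wr.mul_sec, hh.nrm n, mul_one]
  exact hg.nrm n

theorem IsAr.inv {ξ : ℕ → X} {g : ℕ → Wr L X} (hg : IsAr ξ g) : IsAr (ap g ξ) g⁻¹ := by
  refine ⟨fin_inv hg.fin, fun n => ?_⟩
  rw [Pi.inv_apply, Wr.inv_sec]
  have h1 : (g n).perm⁻¹ (ap g ξ n) = ξ n := by
    change (g n).perm⁻¹ ((g n).perm (ξ n)) = ξ n
    simp
  rw [h1, hg.nrm n, inv_one]

/-- the shifted sequence -/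
def sg (g : ℕ → Wr L X) (n : ℕ) : ℕ → Wr L X := fun m => g (n + m)

theorem sg_zero (g : ℕ → Wr L X) : sg g 0 = g := by
  funext m
  simp [sg]

theorem sg_sg (g : ℕ → Wr L X) (n m : ℕ) : sg (sg g n) m = sg g (n + m) := by
  funext k
  simp [sg, add_assoc]

theorem sg_mul (g h : ℕ → Wr L X) (n : ℕ) : sg (g * h) n = sg g n * sg h n := rfl
theorem sg_one (n : ℕ) : sg (1 : ℕ → Wr L X) n = 1 := rfl

theorem ap_sg (g : ℕ → Wr L X) (ξ : ℕ → X) (n : ℕ) : ap (sg g n) (sh ξ n) = sh (ap g ξ) n := rfl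

theorem IsAr.sg {ξ : ℕ → X} {g : ℕ → Wr L X} (hg : IsAr ξ g) (n : ℕ) :
    IsAr (sh ξ n) (sg g n) := by
  refine ⟨hg.fin.subset ?_, fun m => hg.nrm (n + m)⟩
  rintro _ ⟨m, rfl⟩
  exact ⟨n + m, rfl⟩

/-- functoriality in the labels -/
def mp (f : L →* M) : (ℕ → Wr L X) →* (ℕ → Wr M X) where
  toFun g := fun n => Wr.map f (g n)
  map_one' := by
    funext n
    exact map_one _
  map_mul' g h := by
    funext n
    exact map_mul _ _ _

theorem mp_apply (f : L →* M) (g : ℕ → Wr L X) (n : ℕ) : mp f g n = Wr.map f (g n) := rfl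
theorem ap_mp (f : L →* M) (g : ℕ → Wr L X) (ξ : ℕ → X) : ap (mp f g) ξ = ap g ξ := rfl
theorem sg_mp (f : L →* M) (g : ℕ → Wr L X) (n : ℕ) : sg (mp f g) n = mp f (sg g n) := rfl
theorem mp_mp (f : L →* M) (f' : M →* N) (g : ℕ → Wr L X) : mp f' (mp f g) = mp (f'.comp f) g :=
  rfl
theorem mp_id (g : ℕ → Wr L X) : mp (MonoidHom.id L) g = g := rfl

theorem IsAr.mp (f : L →* M) {ξ : ℕ → X} {g : ℕ → Wr L X} (hg : IsAr ξ g) : IsAr ξ (mp f g) := by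
  refine ⟨(hg.fin.image (Wr.map f)).subset ?_, fun n => ?_⟩
  · rintro _ ⟨n, rfl⟩
    exact ⟨g n, ⟨n, rfl⟩, rfl⟩
  · rw [mp_apply, Wr.map_sec, hg.nrm, map_one]

theorem mp_injective {f : L →* M} (hf : Function.Injective f) :
    Function.Injective (FJ.mp (X := X) f) := by
  intro g h e
  funext n
  exact Wr.map_injective hf (congrFun e n)

theorem IsAr.of_mp {f : L →* M} (hf : Function.Injective f) {ξ : ℕ → X} {g : ℕ → Wr L X}
    (hg : IsAr ξ (FJ.mp f g)) : IsAr ξ g := by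
  refine ⟨?_, fun n => hf ?_⟩
  · have h1 : Wr.map f '' Set.range g = Set.range (FJ.mp f g) := by
      ext b
      constructor
      · rintro ⟨_, ⟨n, rfl⟩, rfl⟩
        exact ⟨n, rfl⟩
      · rintro ⟨n, rfl⟩
        exact ⟨g n, ⟨n, rfl⟩, rfl⟩
    have h2 := hg.fin
    rw [← h1] at h2
    exact Set.Finite.of_finite_image h2 (Wr.map_injective hf).injOn
  · have := hg.nrm n
    rw [mp_apply, Wr.map_sec] at this
    rw [this, map_one]

/-- the isotropy group of formal arrows -/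
def Iso (L : Type) [Group L] (ξ : ℕ → X) : Subgroup (ℕ → Wr L X) where
  carrier := {g | IsAr ξ g ∧ ap g ξ = ξ}
  mul_mem' := by
    rintro g h ⟨hg1, hg2⟩ ⟨hh1, hh2⟩
    refine ⟨hh1.mul (by rw [hh2]; exact hg1), ?_⟩
    rw [ap_mul, hh2, hg2]
  one_mem' := ⟨IsAr.one ξ, rfl⟩
  inv_mem' := by
    rintro g ⟨hg1, hg2⟩
    have h1 := hg1.inv
    rw [hg2] at h1
    refine ⟨h1, ?_⟩
    have h2 := ap_inv g ξ
    rw [hg2] at h2
    exact h2

theorem mem_Iso {ξ : ℕ → X} {g : ℕ → Wr L X} : g ∈ Iso L ξ ↔ IsAr ξ g ∧ ap g ξ = ξ := Iff.rfl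

/-- functoriality of the isotropy group -/
def isoMap (f : L →* M) (ξ : ℕ → X) : Iso L ξ →* Iso M ξ where
  toFun g := ⟨mp f g.1, g.2.1.mp f, g.2.2⟩
  map_one' := Subtype.ext (map_one (mp f))
  map_mul' a b := Subtype.ext (map_mul (mp f) a.1 b.1)

theorem isoMap_coe (f : L →* M) (ξ : ℕ → X) (g : Iso L ξ) : (isoMap f ξ g).1 = mp f g.1 := rfl

theorem isoMap_injective {f : L →* M} (hf : Function.Injective f) (ξ : ℕ → X) :
    Function.Injective (isoMap f ξ) := by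
  intro a b h
  exact Subtype.ext (mp_injective hf (congrArg Subtype.val h))

open Classical in
/-- the standard arrow from `ξ0` to `ξ` -/
noncomputable def ta (L : Type) [Group L] (ξ0 ξ : ℕ → X) : ℕ → Wr L X :=
  fun n => ⟨fun _ => 1, Equiv.swap (ξ0 n) (ξ n)⟩

theorem ap_ta (ξ0 ξ : ℕ → X) : ap (ta L ξ0 ξ) ξ0 = ξ := by
  funext n
  exact @Equiv.swap_apply_left X (fun a b => Classical.propDecidable (a = b)) (ξ0 n) (ξ n)

theorem IsAr.ta [Finite X] (ξ0 ξ : ℕ → X) : IsAr ξ0 (ta L ξ0 ξ) := by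
  refine ⟨?_, fun n => rfl⟩
  have h1 : (Set.univ : Set (Equiv.Perm X)).Finite := Set.finite_univ
  refine (h1.image (fun p => (⟨fun _ => 1, p⟩ : Wr L X))).subset ?_
  rintro _ ⟨n, rfl⟩
  exact ⟨_, Set.mem_univ _, rfl⟩

theorem ta_self (ξ0 : ℕ → X) : FJ.ta L ξ0 ξ0 = 1 := by
  funext n
  refine Wr.ext rfl ?_
  exact @Equiv.swap_self X (fun a b => Classical.propDecidable (a = b)) _

theorem mp_ta (f : L →* M) (ξ0 ξ : ℕ → X) : mp f (ta L ξ0 ξ) = ta M ξ0 ξ := by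
  funext n
  refine Wr.ext ?_ rfl
  funext x
  exact map_one f

theorem red_mem' [Finite X] (ξ0 : ℕ → X) {ξ : ℕ → X} {g : ℕ → Wr L X} (hg : IsAr ξ g) :
    (ta L ξ0 (ap g ξ))⁻¹ * g * ta L ξ0 ξ ∈ Iso L ξ0 := by
  have h1 : IsAr ξ0 (g * ta L ξ0 ξ) := (IsAr.ta ξ0 ξ).mul (by rw [ap_ta]; exact hg)
  have h2 : IsAr (ap (g * ta L ξ0 ξ) ξ0) (ta L ξ0 (ap g ξ))⁻¹ := by
    have h3 := (IsAr.ta (L := L) ξ0 (ap g ξ)).inv
    rw [ap_ta] at h3
    rw [ap_mul, ap_ta]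
    exact h3
  constructor
  · rw [mul_assoc]
    exact h1.mul h2
  · rw [ap_mul, ap_mul, ap_ta]
    have h4 := ap_inv (ta L ξ0 (ap g ξ)) ξ0
    rw [ap_ta] at h4
    exact h4

/-- functors from formal arrows to a group -/
structure IsFun (br : (ℕ → X) → (ℕ → Wr L X) → M) : Prop where
  mul : ∀ (ξ : ℕ → X) (g h : ℕ → Wr L X), IsAr ξ h → IsAr (ap h ξ) g →
    br ξ (g * h) = br (ap h ξ) g * br ξ h

namespace IsFun

variable {br : (ℕ → X) → (ℕ → Wr L X) → M}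

theorem one (h : IsFun br) (ξ : ℕ → X) : br ξ 1 = 1 := by
  have h1 := h.mul ξ 1 1 (IsAr.one ξ) (IsAr.one _)
  rw [mul_one, ap_one] at h1
  exact (left_eq_mul.1 h1)

theorem inv (h : IsFun br) {ξ : ℕ → X} {g : ℕ → Wr L X} (hg : IsAr ξ g) :
    br (ap g ξ) g⁻¹ = (br ξ g)⁻¹ := by
  have h1 := h.mul ξ g⁻¹ g hg hg.inv
  rw [inv_mul_cancel, h.one] at h1
  exact (inv_eq_of_mul_eq_one_left h1.symm).symm

theorem comp (h : IsFun br) (f : M →* N) : IsFun (fun ξ g => f (br ξ g)) := by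
  refine ⟨fun ξ g g' h1 h2 => ?_⟩
  rw [h.mul ξ g g' h1 h2, map_mul]

theorem pre (h : IsFun br) (f : N →* L) : IsFun (fun ξ g => br ξ (mp f g)) := by
  refine ⟨fun ξ g g' h1 h2 => ?_⟩
  rw [map_mul, h.mul ξ _ _ (h1.mp f) (h2.mp f)]
  rfl

end IsFun

open Classical in
/-- the self-similarity for formal arrows -/
noncomputable def PsiA (j : L → M) (br : (ℕ → X) → (ℕ → Wr L X) → M) (ξ : ℕ → X)
    (g : ℕ → Wr L X) : Wr M X :=
  ⟨fun x => if x = ξ 0 then br (sh ξ 1) (sg g 1) else j ((g 0).sec x), (g 0).perm⟩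

theorem PsiA_sec_on (j : L → M) (br : (ℕ → X) → (ℕ → Wr L X) → M) (ξ : ℕ → X)
    (g : ℕ → Wr L X) : (PsiA j br ξ g).sec (ξ 0) = br (sh ξ 1) (sg g 1) := if_pos rfl

theorem PsiA_sec_off (j : L → M) (br : (ℕ → X) → (ℕ → Wr L X) → M) (ξ : ℕ → X)
    (g : ℕ → Wr L X) {x : X} (hx : x ≠ ξ 0) : (PsiA j br ξ g).sec x = j ((g 0).sec x) := if_neg hx

theorem PsiA_perm (j : L → M) (br : (ℕ → X) → (ℕ → Wr L X) → M) (ξ : ℕ → X)
    (g : ℕ → Wr L X) : (PsiA j br ξ g).perm = (g 0).perm := rfl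

theorem PsiA_ext {j : L → M} {br : (ℕ → X) → (ℕ → Wr L X) → M} {ξ : ℕ → X}
    {g : ℕ → Wr L X} {b : Wr M X} (h1 : b.sec (ξ 0) = br (sh ξ 1) (sg g 1))
    (h2 : ∀ x, x ≠ ξ 0 → b.sec x = j ((g 0).sec x)) (h3 : b.perm = (g 0).perm) :
    b = PsiA j br ξ g := by
  refine Wr.ext (funext fun x => ?_) h3
  by_cases hx : x = ξ 0
  · subst hx
    rw [h1, PsiA_sec_on]
  · rw [h2 x hx, PsiA_sec_off _ _ _ _ hx]

theorem IsFun.psi {j : L →* M} {br : (ℕ → X) → (ℕ → Wr L X) → M} (h : IsFun br) :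
    IsFun (PsiA j br) := by
  refine ⟨fun ξ g g' h1 h2 => ?_⟩
  symm
  refine PsiA_ext ?_ (fun x hx => ?_) rfl
  · rw [Wr.mul_sec, PsiA_perm, PsiA_sec_on]
    have e : (g' 0).perm (ξ 0) = (ap g' ξ) 0 := rfl
    rw [e, PsiA_sec_on, sg_mul, h.mul _ _ _ (h1.sg 1) (by rw [ap_sg]; exact h2.sg 1), ap_sg]
  · rw [Wr.mul_sec, PsiA_perm, PsiA_sec_off _ _ _ _ hx]
    have hx' : (g' 0).perm x ≠ (ap g' ξ) 0 := fun e => hx ((g' 0).perm.injective e)
    rw [PsiA_sec_off _ _ _ _ hx', ← map_mul]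
    rfl

theorem map_PsiA (f : M →* N) (j : L → M) (br : (ℕ → X) → (ℕ → Wr L X) → M) (ξ : ℕ → X)
    (g : ℕ → Wr L X) :
    Wr.map f (PsiA j br ξ g) = PsiA (fun x => f (j x)) (fun ξ g => f (br ξ g)) ξ g := by
  refine PsiA_ext ?_ (fun x hx => ?_) rfl
  · rw [Wr.map_sec, PsiA_sec_on]
  · rw [Wr.map_sec, PsiA_sec_off _ _ _ _ hx]

theorem PsiA_mp (f : N →* L) (j : L → M) (br : (ℕ → X) → (ℕ → Wr L X) → M) (ξ : ℕ → X)
    (g : ℕ → Wr N X) :
    PsiA j br ξ (mp f g) = PsiA (fun x => j (f x)) (fun ξ g => br ξ (mp f g)) ξ g := by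
  refine PsiA_ext ?_ (fun x hx => ?_) rfl
  · rw [PsiA_sec_on]
    rfl
  · rw [PsiA_sec_off _ _ _ _ hx]
    rfl

end Pool.Agent.H98.FJ
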