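import Pool.Agent.H98.FJ.P.Base
import Pool.Agent.H98.FJ.P.Aut

/-!
# Groups of tree automorphisms of finite degree and of polynomial activity
-/

set_option autoImplicit false
set_option linter.unusedSectionVars false

namespace Pool.Agent.H98.FJ

open TA

/-- the section of a map of the tree at the vertex `v` -/
def secMap {X : Type} (f : List X → List X) (v : List X) : List X → List X :=
  fun w => (f (v ++ w)).drop v.length

/-- `v` is a vertex on one of the rays in `Ξ` -/
def OnRays {X : Type} (Ξ : Set (ℕ → X)) (v : List X) : Prop :=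
  ∃ ξ ∈ Ξ, v = (List.range v.length).map ξ

/-- Maps of degree at most `d`. Degree 0: only finitely many levels are changed. Degree at most `d + 1`: there are
finitely many rays such that the sections at the vertices off these rays form a finite set of maps of degree at most
`d`. -/
def OfDegree {X : Type} : ℕ → (List X → List X) → Prop
  | 0, f => ∃ k : ℕ, ∀ v w : List X, k ≤ v.length → f (v ++ w) = f v ++ w
  | d + 1, f => ∃ Ξ : Set (ℕ → X), Ξ.Finite ∧
      {h : List X → List X | ∃ v, ¬ OnRays Ξ v ∧ h = secMap f v}.Finite ∧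
      ∀ v, ¬ OnRays Ξ v → OfDegree d (secMap f v)

/-- polynomial activity (Sidki): the number of nontrivial sections on a level is bounded by a polynomial -/
def PolynomialActivity {X : Type} (g : TreeAut X) : Prop :=
  ∃ B d : ℕ, ∀ n, {v : List X | v.length = n ∧ sectionAt g v ≠ id}.ncard ≤ B * (n + 1) ^ d

variable {X : Type} [Finite X]

/-- the action as a map -/
def fnA (p : TA X) : List X → List X := fun w => act w p

theorem fnA_injective : Function.Injective (fnA (X := X)) := fun _ _ h => ext_act fun v => congrFun h v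

theorem secMap_fnA (p : TA X) (v : List X) : secMap (fnA p) v = fnA (sec p v) := by
  funext w
  change (act (v ++ w) p).drop v.length = act w (sec p v)
  rw [act_append, List.drop_left' (length_act _ _)]

/-- the vertices hanging off a ray which is separated from the other rays -/
theorem off_vertex {Ξ : Set (ℕ → X)} {ζ : ℕ → X} {n : ℕ}
    (hn : ∀ ξ ∈ Ξ, ξ ≠ ζ → pre ξ n ≠ pre ζ n) (m : ℕ) {x : X} (hx : x ≠ sh ζ n m) :
    ¬ OnRays Ξ (pre ζ n ++ (pre (sh ζ n) m ++ [x])) := by
  rintro ⟨ξ, hξ, he⟩
  rw [← pre_eq_map, ← List.append_assoc, ← pre_add, List.length_append, length_pre,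
    List.length_singleton] at he
  by_cases hz : ξ = ζ
  · subst hz
    rw [pre_succ'] at he
    have h2 := (List.append_inj' he rfl).2
    exact hx (List.cons.inj h2).1
  · apply hn ξ hξ hz
    have h2 := congrArg (List.take n) he
    rw [show n + m + 1 = n + (m + 1) by ring, pre_add, pre_add, List.append_assoc] at h2
    rw [List.take_left' (length_pre _ _), List.take_left' (length_pre _ _)] at h2
    exact h2.symm

theorem PS_of_degree (d : ℕ) : ∀ p : TA X, OfDegree d (fnA p) → p ∈ (PS X d).S := by
  induction d with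
  | zero =>
    rintro p ⟨k, hk⟩
    refine ⟨k, fun v hv => ?_⟩
    have h1 : sec p v = 1 := (trivial_iff p v).1 fun u => hk v u hv
    have h2 := congrFun h1 []
    rw [sec_apply, List.append_nil] at h2
    exact h2
  | succ d ih =>
    rintro p ⟨Ξ, hΞ, hfin, hdeg⟩ ζ
    obtain ⟨n, hn⟩ := separate hΞ ζ
    refine ⟨n, ArP.mk {q : TA X | ∃ v, ¬ OnRays Ξ v ∧ q = sec p v} ?_ fun m x hx => ?_⟩
    · refine Set.Finite.of_finite_image (f := fnA) (hfin.subset ?_) fnA_injective.injOn
      rintro _ ⟨_, ⟨v, hv, rfl⟩, rfl⟩
      exact ⟨v, hv, (secMap_fnA p v).symm⟩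
    · have h1 := off_vertex hn m hx
      rw [sec_sec]
      refine ⟨⟨_, h1, rfl⟩, ih _ ?_⟩
      rw [← secMap_fnA]
      exact hdeg _ h1

theorem prt_mem_of_degree (g : TreeAut X) {d : ℕ} (h : OfDegree d g) : prt g ∈ PSu X := by
  rw [mem_PSu]
  refine ⟨d, PS_of_degree d _ ?_⟩
  have : fnA (prt g) = g := funext fun v => act_prt g v
  rw [this]
  exact h

theorem prt_mem_of_poly (g : TreeAut X) (h1 : FiniteState g) (h2 : PolynomialActivity g) :
    prt g ∈ PSu X := by
  rw [mem_PSu]
  obtain ⟨B, d, hB⟩ := h2
  obtain ⟨φ, hφ⟩ := sec_of_section g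
  refine PS_of_poly (B := B) (d := d) ?_ fun n => ?_
  · refine (h1.image φ).subset ?_
    rintro _ ⟨v, rfl⟩
    exact ⟨sectionAt g v, ⟨v, rfl⟩, (hφ v).symm⟩
  · refine le_trans ?_ (hB n)
    refine Set.ncard_le_ncard ?_ ((List.finite_length_eq X n).subset fun v hv => hv.1)
    rintro v ⟨hv1, hv2⟩
    refine ⟨hv1, fun h => hv2 ?_⟩
    apply ext_act
    intro w
    rw [← section_eq, h, act_one]
    rfl

theorem mem_of_poly {C : (G : Type) → [Group G] → Prop} (hC : Inherits C) (hE : Extension C)
    (H : Subgroup (TreeAut X)) (hH : H ≤ Subgroup.closure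
      {g : TreeAut X | (∃ d, OfDegree d g) ∨ (FiniteState g ∧ PolynomialActivity g)}) : C H := by
  by_cases hX : Nonempty X
  · obtain ⟨x0⟩ := hX
    let ξ0 : ℕ → X := fun _ => x0
    have h1 : Subgroup.closure {g : TreeAut X | (∃ d, OfDegree d g) ∨
        (FiniteState g ∧ PolynomialActivity g)} ≤ (PSu X).comap (prtHom X) := by
      rw [Subgroup.closure_le]
      rintro g (⟨d, hd⟩ | ⟨h1, h2⟩)
      · exact prt_mem_of_degree g hd
      · exact prt_mem_of_poly g h1 h2
    let φ : H →* PSu X :=
      { toFun := fun g => ⟨prtHom X g.1, h1 (hH g.2)⟩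
        map_one' := Subtype.ext (map_one (prtHom X))
        map_mul' := fun a b => Subtype.ext (map_mul (prtHom X) a.1 b.1) }
    refine hC.of_injective φ ?_ (PSu_mem hC hE ξ0)
    intro a b hab
    apply Subtype.ext
    apply prtHom_injective
    exact congrArg Subtype.val hab
  · have hl : ∀ v : List X, v = [] := by
      intro v
      cases v with
      | nil => rfl
      | cons x w => exact absurd ⟨x⟩ hX
    have : Subsingleton (TreeAut X) := ⟨fun a b => by
      apply RelIso.ext
      intro v
      rw [hl (a v), hl (b v)]⟩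
    have : Finite H := inferInstance
    exact hC.fin H this

end Pool.Agent.H98.FJ
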