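import Pool.Agent.H98.FJ.P.Po
import Pool.Agent.H98.FJ.P.Col

/-!
# Pushouts commute with directed colimits

Module H98 PA POCOL (MP_2a547c_gt). Complete proof. `nonempty`, `directed` from `hA`. `map_id`, `map_comp`, `compat`: both
sides are homomorphisms which agree on `inl` and `inr` (`Po.ind` on the element, or `Po.hom_ext`). `surj`: induction
on the element of the pushout (`Po.ind`): `inl a` with `a = φA i a'`; `inr b`; product: represent both at a common stage.
`ker`: let `Φ i z = 1`. Apply `exists_germ` (of `Pool/Agent/H98/FJ/P/Col.lean`) to the system `Po (p i) (q i)`; let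
`δ i : Po (p i) (q i) →* D` be the maps. By `hA.exists_lift` there is `FA : Ac →* D` with
`FA (φA i a) = δ i (inl a)` and `FB : Bc →* D` with `FB (φB i b) = δ i (inr b)`. For `x : Hc`, `x = φH i x'`:
`FA (pc x) = FA (φA i (p i x')) = δ i (inl (p i x')) = δ i (inr (q i x')) = FB (qc x)`. So there is
`E : Po pc qc →* D` (`Po.lift`), and `E ∘ Φ i = δ i` (on `inl`, `inr`). So `δ i z = 1` and `z` dies at some stage.
-/

set_option autoImplicit false

namespace Pool.Agent.H98.FJ

theorem Po.isColimit {ι : Type} [Preorder ι] {H A B : ι → Type} [∀ i, Group (H i)]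
    [∀ i, Group (A i)] [∀ i, Group (B i)] {fH : ∀ i j, i ≤ j → (H i →* H j)}
    {fA : ∀ i j, i ≤ j → (A i →* A j)} {fB : ∀ i j, i ≤ j → (B i →* B j)}
    {Hc Ac Bc : Type} [Group Hc] [Group Ac] [Group Bc] {φH : ∀ i, H i →* Hc}
    {φA : ∀ i, A i →* Ac} {φB : ∀ i, B i →* Bc} (hH : IsColimit fH φH) (hA : IsColimit fA φA)
    (hB : IsColimit fB φB) (p : ∀ i, H i →* A i) (q : ∀ i, H i →* B i) (pc : Hc →* Ac)
    (qc : Hc →* Bc) (hp : ∀ i (x : H i), φA i (p i x) = pc (φH i x))
    (hq : ∀ i (x : H i), φB i (q i x) = qc (φH i x))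
    (F : ∀ i j, i ≤ j → (Po (p i) (q i) →* Po (p j) (q j)))
    (F_inl : ∀ i j (h : i ≤ j) (x : A i), F i j h (Po.inl x) = Po.inl (fA i j h x))
    (F_inr : ∀ i j (h : i ≤ j) (x : B i), F i j h (Po.inr x) = Po.inr (fB i j h x))
    (Φ : ∀ i, Po (p i) (q i) →* Po pc qc)
    (Φ_inl : ∀ i (x : A i), Φ i (Po.inl x) = Po.inl (φA i x))
    (Φ_inr : ∀ i (x : B i), Φ i (Po.inr x) = Po.inr (φB i x)) :
    IsColimit F Φ := by
  have F_id : ∀ (i : ι) (h : i ≤ i) (x : Po (p i) (q i)), F i i h x = x := by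
    intro i h x
    induction x using Po.ind with
    | h1 a => rw [F_inl, hA.map_id]
    | h2 b => rw [F_inr, hB.map_id]
    | h3 x y hx hy => rw [map_mul, hx, hy]
  have F_comp : ∀ (i j k : ι) (hij : i ≤ j) (hjk : j ≤ k) (hik : i ≤ k) (x : Po (p i) (q i)),
      F j k hjk (F i j hij x) = F i k hik x := by
    intro i j k hij hjk hik x
    induction x using Po.ind with
    | h1 a => rw [F_inl, F_inl, F_inl, hA.map_comp i j k hij hjk hik]
    | h2 b => rw [F_inr, F_inr, F_inr, hB.map_comp i j k hij hjk hik]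
    | h3 x y hx hy => rw [map_mul, map_mul, map_mul, hx, hy]
  have Φ_compat : ∀ (i j : ι) (h : i ≤ j) (x : Po (p i) (q i)), Φ j (F i j h x) = Φ i x := by
    intro i j h x
    induction x using Po.ind with
    | h1 a => rw [F_inl, Φ_inl, Φ_inl, hA.compat]
    | h2 b => rw [F_inr, Φ_inr, Φ_inr, hB.compat]
    | h3 x y hx hy => rw [map_mul, map_mul, map_mul, hx, hy]
  refine ⟨hA.nonempty, hA.directed, F_id, F_comp, Φ_compat, ?_, ?_⟩
  · intro y
    induction y using Po.ind with
    | h1 a =>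
      obtain ⟨i, x, rfl⟩ := hA.surj a
      exact ⟨i, Po.inl x, Φ_inl i x⟩
    | h2 b =>
      obtain ⟨i, x, rfl⟩ := hB.surj b
      exact ⟨i, Po.inr x, Φ_inr i x⟩
    | h3 x y hx hy =>
      obtain ⟨i, x', rfl⟩ := hx
      obtain ⟨j, y', rfl⟩ := hy
      obtain ⟨k, hik, hjk⟩ := hA.directed i j
      exact ⟨k, F i k hik x' * F j k hjk y', by rw [map_mul, Φ_compat, Φ_compat]⟩
  · intro i z hz
    haveI := hA.nonempty
    obtain ⟨D, hD, δ, hδ, hker⟩ := exists_germ hA.directed F F_id F_comp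
    obtain ⟨FA, hFA⟩ := hA.exists_lift (K := D) (fun i => (δ i).comp Po.inl) (by
      intro i j hij x
      change δ j (Po.inl (fA i j hij x)) = δ i (Po.inl x)
      rw [← F_inl, hδ])
    obtain ⟨FB, hFB⟩ := hB.exists_lift (K := D) (fun i => (δ i).comp Po.inr) (by
      intro i j hij x
      change δ j (Po.inr (fB i j hij x)) = δ i (Po.inr x)
      rw [← F_inr, hδ])
    have hFA' : ∀ i (x : A i), FA (φA i x) = δ i (Po.inl x) := hFA
    have hFB' : ∀ i (x : B i), FB (φB i x) = δ i (Po.inr x) := hFB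
    have hg : ∀ x : Hc, FA (pc x) = FB (qc x) := by
      intro x
      obtain ⟨j, x', rfl⟩ := hH.surj x
      rw [← hp, ← hq, hFA', hFB', Po.glue]
    have hE : ∀ z : Po (p i) (q i), Po.lift FA FB hg (Φ i z) = δ i z := by
      intro z
      induction z using Po.ind with
      | h1 a => rw [Φ_inl, Po.lift_inl, hFA']
      | h2 b => rw [Φ_inr, Po.lift_inr, hFB']
      | h3 x y hx hy => rw [map_mul, map_mul, map_mul, hx, hy]
    apply hker i z
    rw [← hE z, hz, map_one]

end Pool.Agent.H98.FJ
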