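import Pool.Agent.H98.FJ.P.Alg
import Pool.Agent.H98.FJ.P.PoCol

/-!
# Functoriality of the amalgam
-/

set_option autoImplicit false
set_option linter.unusedSectionVars false

namespace Pool.Agent.H98.FJ

variable {X P : Type} [Group P] {psiP : P →* Wr P X} {L M N : Type} [Group L] [Group M] [Group N]
  {A : PAlg psiP L} {B : PAlg psiP M} {D : PAlg psiP N} {f : L →* M} {f' : M →* N}

namespace Po

variable {H A B A' B' : Type} [Group H] [Group A] [Group B] [Group A'] [Group B'] {f : H →* A}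
  {g : H →* B} {f' : H →* A'} {g' : H →* B'}

theorem map_inl (a : A →* A') (b : B →* B') (h1 : ∀ x, a (f x) = f' x) (h2 : ∀ x, b (g x) = g' x)
    (x : A) : (map a b h1 h2 : Po f g →* Po f' g') (inl x) = inl (a x) := by
  unfold map
  exact lift_inl _ _ _ x

theorem map_inr (a : A →* A') (b : B →* B') (h1 : ∀ x, a (f x) = f' x) (h2 : ∀ x, b (g x) = g' x)
    (x : B) : (map a b h1 h2 : Po f g →* Po f' g') (inr x) = inr (b x) := by
  unfold map
  exact lift_inr _ _ _ x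

end Po

namespace Mor

/-- the map of amalgams -/
def Zmap (h : Mor A B f) (ξ0 : ℕ → X) : A.Z ξ0 →* B.Z ξ0 :=
  Po.map f (isoMap f ξ0) (fun g => h.lam ξ0 g.1 g.2.1) (fun g => by
    apply Subtype.ext
    rw [isoMap_coe, isoMap_coe, isoMap_coe, mp_mp, h.iota_comp])

theorem Zmap_inl (h : Mor A B f) (ξ0 : ℕ → X) (l : L) :
    h.Zmap ξ0 (Po.inl l) = Po.inl (f l) := Po.map_inl _ _ _ _ l

theorem Zmap_inr (h : Mor A B f) (ξ0 : ℕ → X) (g : Iso L ξ0) :
    h.Zmap ξ0 (Po.inr g) = Po.inr (isoMap f ξ0 g) := Po.map_inr _ _ _ _ g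

theorem Zmap_injective (h : Mor A B f) (ξ0 : ℕ → X) (hf : Function.Injective f) :
    Function.Injective (h.Zmap ξ0) :=
  Po.map_injective f (isoMap f ξ0) _ _ hf (isoMap_injective hf ξ0) (B.isoLam_injective ξ0)
    (isoMap_injective B.inj ξ0)

theorem Zmap_comp (h' : Mor B D f') (h : Mor A B f) (ξ0 : ℕ → X) (z : A.Z ξ0) :
    h'.Zmap ξ0 (h.Zmap ξ0 z) = (h'.comp h).Zmap ξ0 z := by
  induction z using Po.ind with
  | h1 l => rw [Zmap_inl, Zmap_inl, Zmap_inl]; rfl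
  | h2 g => rw [Zmap_inr, Zmap_inr, Zmap_inr]; rfl
  | h3 x y hx hy => rw [map_mul, map_mul, map_mul, hx, hy]

variable [Finite X]

theorem Zmap_br (h : Mor A B f) (ξ0 ξ : ℕ → X) (g : ℕ → Wr L X) (hg : IsAr ξ g) :
    h.Zmap ξ0 (A.br ξ0 ξ g) = B.br ξ0 ξ (mp f g) := by
  rw [A.br_def ξ0 hg, B.br_def ξ0 (hg.mp f), map_mul, map_mul, map_inv, Zmap_inl, Zmap_inl,
    Zmap_inr, h.lam _ _ (IsAr.ta ξ0 _), h.lam _ _ (IsAr.ta ξ0 _)]
  have h1 : isoMap f ξ0 ⟨_, red_mem' ξ0 hg⟩ = (⟨_, red_mem' ξ0 (hg.mp f)⟩ : Iso M ξ0) := by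
    apply Subtype.ext
    rw [isoMap_coe, map_mul, map_mul, map_inv, mp_ta, mp_ta]
    rfl
  rw [h1]
  rfl

theorem Zmap_psi (h : Mor A B f) (ξ0 : ℕ → X) (z : A.Z ξ0) :
    B.psiZ ξ0 (h.Zmap ξ0 z) = Wr.map (h.Zmap ξ0) (A.psiZ ξ0 z) := by
  induction z using Po.ind with
  | h1 l =>
    rw [Zmap_inl, PAlg.psiZ_inl, PAlg.psiZ_inl, h.psi]
    exact Wr.ext (funext fun x => (h.Zmap_inl ξ0 _).symm) rfl
  | h2 g =>
    rw [Zmap_inr, PAlg.psiZ_inr, PAlg.psiZ_inr, PAlg.psiR_apply, PAlg.psiR_apply, isoMap_coe]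
    symm
    refine PsiA_ext ?_ (fun x hx => ?_) rfl
    · rw [Wr.map_sec, PsiA_sec_on, h.Zmap_br ξ0 _ _ (g.2.1.sg 1)]
      rfl
    · rw [Wr.map_sec, PsiA_sec_off _ _ _ _ hx, Zmap_inl]
      rfl
  | h3 x y hx hy => rw [map_mul, map_mul, map_mul, hx, hy, map_mul]

/-- the map of amalgams is a morphism -/
theorem Z (h : Mor A B f) (ξ0 : ℕ → X) : Mor (A.ZAlg ξ0) (B.ZAlg ξ0) (h.Zmap ξ0) := by
  refine ⟨fun z => h.Zmap_psi ξ0 z, fun p => ?_, fun ξ g hg => ?_⟩
  · rw [PAlg.ZAlg_iota, PAlg.ZAlg_iota, Zmap_inl, h.iota]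
  · rw [PAlg.ZAlg_lam, PAlg.ZAlg_lam, Zmap_inl, h.lam ξ g hg]

end Mor

/-- wreath products commute with directed colimits -/
theorem Wr.isColimit [Finite X] {ι : Type} [Preorder ι] {G : ι → Type} [∀ i, Group (G i)]
    {fG : ∀ i j, i ≤ j → (G i →* G j)} {H : Type} [Group H] {φ : ∀ i, G i →* H}
    (h : IsColimit fG φ) : IsColimit (G := fun i => Wr (G i) X)
      (fun i j hij => Wr.map (fG i j hij)) (fun i => Wr.map (φ i)) := by
  refine ⟨h.nonempty, h.directed, ?_, ?_, ?_, ?_, ?_⟩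
  · intro i hi b
    exact Wr.ext (funext fun x => h.map_id i hi _) rfl
  · intro i j k hij hjk hik b
    exact Wr.ext (funext fun x => h.map_comp i j k hij hjk hik _) rfl
  · intro i j hij b
    exact Wr.ext (funext fun x => h.compat i j hij _) rfl
  · intro b
    obtain ⟨i, σ, -, hσ⟩ := h.finite_lift (Set.range b.sec) (Set.finite_range _)
    exact ⟨i, ⟨fun x => σ (b.sec x), b.perm⟩,
      Wr.ext (funext fun x => hσ _ ⟨x, rfl⟩) rfl⟩
  · intro i b hb
    obtain ⟨j, hij, hj⟩ := h.finite_kill i (Set.range b.sec) (Set.finite_range _) (by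
      rintro _ ⟨x, rfl⟩
      exact congrArg (fun c : Wr H X => c.sec x) hb)
    refine ⟨j, hij, Wr.ext (funext fun x => hj _ ⟨x, rfl⟩) ?_⟩
    exact congrArg (fun c : Wr H X => c.perm) hb

/-- the isotropy groups commute with directed colimits -/
theorem Iso.isColimit [Finite X] {ι : Type} [Preorder ι] {G : ι → Type} [∀ i, Group (G i)]
    {fG : ∀ i j, i ≤ j → (G i →* G j)} {H : Type} [Group H] {φ : ∀ i, G i →* H}
    (h : IsColimit fG φ) (ξ : ℕ → X) : IsColimit (G := fun i => Iso (G i) ξ)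
      (fun i j hij => isoMap (fG i j hij) ξ) (fun i => isoMap (φ i) ξ) := by
  -- the set of the labels of a formal arrow
  have hlab : ∀ {L : Type} [Group L] (g : ℕ → Wr L X), (Set.range g).Finite →
      (Set.range fun nx : ℕ × X => (g nx.1).sec nx.2).Finite := by
    intro L _ g hg
    refine (Set.Finite.image2 (fun (b : Wr L X) x => b.sec x) hg (Set.finite_univ (α := X))).subset
      ?_
    rintro _ ⟨⟨n, x⟩, rfl⟩
    exact ⟨g n, ⟨n, rfl⟩, x, Set.mem_univ _, rfl⟩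
  refine ⟨h.nonempty, h.directed, ?_, ?_, ?_, ?_, ?_⟩
  · intro i hi b
    apply Subtype.ext
    funext n
    exact Wr.ext (funext fun x => h.map_id i hi _) rfl
  · intro i j k hij hjk hik b
    apply Subtype.ext
    funext n
    exact Wr.ext (funext fun x => h.map_comp i j k hij hjk hik _) rfl
  · intro i j hij b
    apply Subtype.ext
    funext n
    exact Wr.ext (funext fun x => h.compat i j hij _) rfl
  · intro g
    obtain ⟨i, σ, hσ1, hσ⟩ := h.finite_lift _ (hlab g.1 g.2.1.fin)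
    refine ⟨i, ⟨fun n => ⟨fun x => σ ((g.1 n).sec x), (g.1 n).perm⟩, ⟨?_, fun n => ?_⟩, g.2.2⟩, ?_⟩
    · refine (g.2.1.fin.image (fun b : Wr H X =>
        (⟨fun x => σ (b.sec x), b.perm⟩ : Wr (G i) X))).subset ?_
      rintro _ ⟨n, rfl⟩
      exact ⟨g.1 n, ⟨n, rfl⟩, rfl⟩
    · change σ ((g.1 n).sec (ξ n)) = 1
      rw [g.2.1.nrm n, hσ1]
    · apply Subtype.ext
      funext n
      exact Wr.ext (funext fun x => hσ _ ⟨(n, x), rfl⟩) rfl
  · intro i g hg
    obtain ⟨j, hij, hj⟩ := h.finite_kill i _ (hlab g.1 g.2.1.fin) (by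
      rintro _ ⟨⟨n, x⟩, rfl⟩
      have h1 := congrFun (congrArg Subtype.val hg) n
      exact congrArg (fun c : Wr H X => c.sec x) h1)
    refine ⟨j, hij, ?_⟩
    apply Subtype.ext
    funext n
    refine Wr.ext (funext fun x => hj _ ⟨(n, x), rfl⟩) ?_
    have h1 := congrFun (congrArg Subtype.val hg) n
    exact congrArg (fun c : Wr H X => c.perm) h1

/-- the amalgams commute with directed colimits -/
theorem Z_isColimit [Finite X] {ι : Type} [Preorder ι] {G : ι → Type} [∀ i, Group (G i)]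
    {A : ∀ i, PAlg psiP (G i)} {fG : ∀ i j, i ≤ j → (G i →* G j)}
    (hf : ∀ i j (hij : i ≤ j), Mor (A i) (A j) (fG i j hij)) {H : Type} [Group H]
    {B : PAlg psiP H} {φ : ∀ i, G i →* H} (hφ : ∀ i, Mor (A i) B (φ i))
    (h : IsColimit fG φ) (ξ0 : ℕ → X) : IsColimit (G := fun i => (A i).Z ξ0)
      (fun i j hij => (hf i j hij).Zmap ξ0) (fun i => (hφ i).Zmap ξ0) := by
  have : Nonempty ι := h.nonempty
  exact Po.isColimit (isColimit_const ι h.directed (Iso P ξ0)) h (Iso.isColimit h ξ0)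
    (fun i => (A i).isoLam ξ0) (fun i => isoMap (A i).iota ξ0) (B.isoLam ξ0) (isoMap B.iota ξ0)
    (fun i x => (hφ i).lam ξ0 x.1 x.2.1) (fun i x => by
      apply Subtype.ext
      rw [isoMap_coe, isoMap_coe, mp_mp, (hφ i).iota_comp]
      rfl)
    (fun i j hij => (hf i j hij).Zmap ξ0) (fun i j hij x => (hf i j hij).Zmap_inl ξ0 x)
    (fun i j hij x => (hf i j hij).Zmap_inr ξ0 x) (fun i => (hφ i).Zmap ξ0)
    (fun i x => (hφ i).Zmap_inl ξ0 x) (fun i x => (hφ i).Zmap_inr ξ0 x)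

end Pool.Agent.H98.FJ
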