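import Pool.Agent.H98.FJ.P.ZMem

/-!
# Thickenings, good algebras and the class they generate
-/

set_option autoImplicit false
set_option linter.unusedSectionVars false

namespace Pool.Agent.H98.FJ

variable {X P : Type} [Group P] {psiP : P →* Wr P X} {L M : Type} [Group L] [Group M]

/-- the wreath product of an algebra -/
noncomputable def PAlg.thick (hP : Function.Injective psiP) (A : PAlg psiP L) :
    PAlg psiP (Wr L X) where
  psi := Wr.map A.psi
  iota := A.psi.comp A.iota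
  lam := fun ξ g => A.psi (A.lam ξ g)
  inj := by
    intro p q h
    have h1 : A.psi (A.iota p) = A.psi (A.iota q) := h
    rw [A.psi_iota, A.psi_iota] at h1
    exact hP (Wr.map_injective A.inj h1)
  fn := A.fn.comp A.psi
  psi_iota := fun p => by
    change Wr.map A.psi (A.psi (A.iota p)) = Wr.map (A.psi.comp A.iota) (psiP p)
    rw [A.psi_iota]
    rfl
  psi_lam := fun ξ g hg => by
    change Wr.map A.psi (A.psi (A.lam ξ g)) = _
    rw [A.psi_lam ξ g hg, map_PsiA]
    rfl

/-- the self-similarity is a morphism to the wreath product -/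
theorem PAlg.mor_psi (hP : Function.Injective psiP) (A : PAlg psiP L) : Mor A (A.thick hP) A.psi :=
  ⟨fun _ => rfl, fun _ => rfl, fun _ _ _ => rfl⟩

theorem Mor.thick (hP : Function.Injective psiP) {A : PAlg psiP L} {B : PAlg psiP M} {f : L →* M}
    (h : Mor A B f) : Mor (A.thick hP) (B.thick hP) (Wr.map f) := by
  refine ⟨fun b => ?_, fun p => ?_, fun ξ g hg => ?_⟩
  · exact Wr.ext (funext fun x => h.psi _) rfl
  · change Wr.map f (A.psi (A.iota p)) = B.psi (B.iota p)
    rw [← h.psi, h.iota]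
  · change Wr.map f (A.psi (A.lam ξ g)) = B.psi (B.lam ξ g)
    rw [← h.psi, h.lam ξ g hg]

/-- good algebras -/
structure Good (C : (G : Type) → [Group G] → Prop) (A : PAlg psiP L) : Prop where
  mem : C L
  eps : ∃ e : (ℕ → X) → (ℕ → Wr L X) → L, IsFun e ∧
    ∀ ξ g, IsAr ξ g → e ξ (mp A.iota g) = A.lam ξ g
  kap : ∃ k : Wr L X →* L, ∀ p, k (Wr.map A.iota (psiP p)) = A.iota p

variable {C : (G : Type) → [Group G] → Prop}

theorem Good.thick [Finite X] (hC : Inherits C) (hP : Function.Injective psiP) {A : PAlg psiP L}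
    (h : Good C A) : Good C (A.thick hP) := by
  obtain ⟨hmem, ⟨e, he, hext⟩, ⟨k, hk⟩⟩ := h
  have hk' : k.comp (A.psi.comp A.iota) = A.iota := by
    ext p
    change k (A.psi (A.iota p)) = _
    rw [A.psi_iota, hk]
  refine ⟨Wr.mem hC hmem, ⟨PsiA k (fun ξ g => e ξ (mp k g)), (he.pre k).psi, fun ξ g hg => ?_⟩,
    ⟨Wr.map k, fun p => ?_⟩⟩
  · change PsiA k (fun ξ g => e ξ (mp k g)) ξ (mp (A.psi.comp A.iota) g) = A.psi (A.lam ξ g)
    rw [A.psi_lam ξ g hg]
    refine PsiA_ext ?_ (fun x hx => ?_) rfl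
    · rw [PsiA_sec_on, sg_mp, mp_mp, hk', hext _ _ (hg.sg 1)]
    · rw [PsiA_sec_off _ _ _ _ hx]
      exact DFunLike.congr_fun hk' _
  · change Wr.map k (Wr.map (A.psi.comp A.iota) (psiP p)) = A.psi (A.iota p)
    rw [← Wr.map_comp, hk', A.psi_iota]

theorem Good.Z [Finite X] (hC : Inherits C) (hE : Extension C) {A : PAlg psiP L}
    (h : Good C A) (ξ0 : ℕ → X) : Good C (A.ZAlg ξ0) := by
  obtain ⟨hmem, ⟨e, he, hext⟩, ⟨k, hk⟩⟩ := h
  let eH : Iso L ξ0 →* L :=
    { toFun := fun g => e ξ0 g.1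
      map_one' := he.one ξ0
      map_mul' := fun g h => by
        have h1 := he.mul ξ0 g.1 h.1 h.2.1 (by rw [h.2.2]; exact g.2.1)
        rw [h.2.2] at h1
        exact h1 }
  let φ : A.Z ξ0 →* L := Po.lift (MonoidHom.id L) eH (fun g => (hext ξ0 g.1 g.2.1).symm)
  have hφ : ∀ l, φ (Po.inl l) = l := fun l => Po.lift_inl _ _ _ l
  have hφ' : φ.comp ((Po.inl : L →* A.Z ξ0).comp A.iota) = A.iota := by
    ext p
    exact hφ _
  refine ⟨A.Z_mem ξ0 hC hE hmem φ hφ, ⟨fun ξ g => Po.inl (e ξ (mp φ g)),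
    (he.pre φ).comp Po.inl, fun ξ g hg => ?_⟩,
    ⟨(Po.inl : L →* A.Z ξ0).comp (k.comp (Wr.map φ)), fun p => ?_⟩⟩
  · change Po.inl (e ξ (mp φ (mp ((Po.inl : L →* A.Z ξ0).comp A.iota) g))) = Po.inl (A.lam ξ g)
    rw [mp_mp, hφ', hext ξ g hg]
  · change Po.inl (k (Wr.map φ (Wr.map ((Po.inl : L →* A.Z ξ0).comp A.iota) (psiP p)))) =
      Po.inl (A.iota p)
    rw [← Wr.map_comp, hφ', hk]

/-- the class of algebras generated by the good ones -/
inductive GG (C : (G : Type) → [Group G] → Prop) (psiP : P →* Wr P X) :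
    ∀ (L : Type) [Group L], PAlg psiP L → Prop
  | good (L : Type) [Group L] (A : PAlg psiP L) : Good C A → GG C psiP L A
  | sub (L M : Type) [Group L] [Group M] (A : PAlg psiP L) (B : PAlg psiP M) (f : L →* M) :
      Mor A B f → Function.Injective f → GG C psiP M B → GG C psiP L A
  | colim (ι : Type) [Preorder ι] (L : ι → Type) [∀ i, Group (L i)] (A : ∀ i, PAlg psiP (L i))
      (f : ∀ i j, i ≤ j → (L i →* L j)) (hf : ∀ i j h, Mor (A i) (A j) (f i j h)) (M : Type)
      [Group M] (B : PAlg psiP M) (φ : ∀ i, L i →* M) (hφ : ∀ i, Mor (A i) B (φ i)) :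
      IsColimit f φ → (∀ i, GG C psiP (L i) (A i)) → GG C psiP M B

theorem GG.mem (hC : Inherits C) {L : Type} [Group L] {A : PAlg psiP L}
    (h : GG C psiP L A) : C L := by
  induction h with
  | good L A h => exact h.mem
  | sub L M A B f hf hinj _ ih => exact hC.of_injective f hinj ih
  | colim ι L A f hf M B φ hφ hcol _ ih => exact hC.colim ι L f M φ hcol ih

theorem GG.thick [Finite X] (hC : Inherits C) (hP : Function.Injective psiP) {L : Type} [Group L]
    {A : PAlg psiP L} (h : GG C psiP L A) : GG C psiP (Wr L X) (A.thick hP) := by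
  induction h with
  | good L A h => exact GG.good _ _ (h.thick hC hP)
  | sub L M A B f hf hinj _ ih =>
    exact GG.sub _ _ _ _ (Wr.map f) (hf.thick hP) (Wr.map_injective hinj) ih
  | colim ι L A f hf M B φ hφ hcol _ ih =>
    exact GG.colim ι _ (fun i => (A i).thick hP) _ (fun i j h => (hf i j h).thick hP) _ _ _
      (fun i => (hφ i).thick hP) (Wr.isColimit hcol) ih

theorem GG.Z [Finite X] (hC : Inherits C) (hE : Extension C) (ξ0 : ℕ → X) {L : Type} [Group L]
    {A : PAlg psiP L} (h : GG C psiP L A) : GG C psiP (A.Z ξ0) (A.ZAlg ξ0) := by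
  induction h with
  | good L A h => exact GG.good _ _ (h.Z hC hE ξ0)
  | sub L M A B f hf hinj _ ih =>
    exact GG.sub _ _ _ _ (hf.Zmap ξ0) (hf.Z ξ0) (hf.Zmap_injective ξ0 hinj) ih
  | colim ι L A f hf M B φ hφ hcol _ ih =>
    exact GG.colim ι _ (fun i => (A i).ZAlg ξ0) _ (fun i j h => (hf i j h).Z ξ0) _ _ _
      (fun i => (hφ i).Z ξ0) (Z_isColimit hf hφ hcol ξ0) ih

end Pool.Agent.H98.FJ
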