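import Pool.Agent.H98.FJ.P.Ext

/-!
# Pushouts of two groups
-/

set_option autoImplicit false

namespace Pool.Agent.H98.FJ

/-- two groups as a family -/
def Two (A B : Type) : Bool → Type
  | true => A
  | false => B

instance instTwo (A B : Type) [Group A] [Group B] : ∀ i, Group (Two A B i)
  | true => inferInstanceAs (Group A)
  | false => inferInstanceAs (Group B)

/-- two homomorphisms as a family -/
def two {H A B : Type} [Group H] [Group A] [Group B] (f : H →* A) (g : H →* B) :
    ∀ i, H →* Two A B i
  | true => f
  | false => g

/-- the pushout (amalgamated product) of two groups -/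
def Po {H A B : Type} [Group H] [Group A] [Group B] (f : H →* A) (g : H →* B) : Type :=
  Monoid.PushoutI (two f g)

namespace Po

variable {H A B K : Type} [Group H] [Group A] [Group B] [Group K] {f : H →* A} {g : H →* B}

instance : Group (Po f g) := inferInstanceAs (Group (Monoid.PushoutI (two f g)))

/-- the first factor -/
def inl : A →* Po f g := Monoid.PushoutI.of (φ := two f g) true

/-- the second factor -/
def inr : B →* Po f g := Monoid.PushoutI.of (φ := two f g) false

theorem glue (h : H) : (inl (f h) : Po f g) = inr (g h) :=
  (Monoid.PushoutI.of_apply_eq_base (two f g) true h).trans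
    (Monoid.PushoutI.of_apply_eq_base (two f g) false h).symm

/-- the homomorphism given by homomorphisms on the factors -/
def lift (a : A →* K) (b : B →* K) (h : ∀ x, a (f x) = b (g x)) : Po f g →* K :=
  Monoid.PushoutI.lift (φ := two f g) (fun i => match i with
    | true => a
    | false => b) (a.comp f) (fun i => match i with
    | true => rfl
    | false => MonoidHom.ext fun x => (h x).symm)

@[simp] theorem lift_inl (a : A →* K) (b : B →* K) (h : ∀ x, a (f x) = b (g x)) (x : A) :
    lift a b h (inl x) = a x :=
  Monoid.PushoutI.lift_of (φ := two f g) _ _ _ (i := true) x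

@[simp] theorem lift_inr (a : A →* K) (b : B →* K) (h : ∀ x, a (f x) = b (g x)) (x : B) :
    lift a b h (inr x) = b x :=
  Monoid.PushoutI.lift_of (φ := two f g) _ _ _ (i := false) x

theorem ind {P : Po f g → Prop} (z : Po f g) (h1 : ∀ a, P (inl a)) (h2 : ∀ b, P (inr b))
    (h3 : ∀ x y, P x → P y → P (x * y)) : P z := by
  refine Monoid.PushoutI.induction_on (φ := two f g) (motive := P) z ?_ ?_ (fun x y => h3 x y)
  · intro i x
    match i, x with
    | true, x => exact h1 x
    | false, x => exact h2 x
  · intro h
    have h4 := h1 (f h)
    have h5 : (inl (f h) : Po f g) = Monoid.PushoutI.base (two f g) h :=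
      Monoid.PushoutI.of_apply_eq_base (two f g) true h
    rw [h5] at h4
    exact h4

theorem hom_ext {a b : Po f g →* K} (h1 : ∀ x, a (inl x) = b (inl x))
    (h2 : ∀ x, a (inr x) = b (inr x)) : a = b := by
  ext z
  induction z using ind with
  | h1 x => exact h1 x
  | h2 x => exact h2 x
  | h3 x y hx hy => rw [map_mul, map_mul, hx, hy]

/-- functoriality, with the same amalgamated subgroup -/
def map {A' B' : Type} [Group A'] [Group B'] {f' : H →* A'} {g' : H →* B'} (a : A →* A')
    (b : B →* B') (h1 : ∀ x, a (f x) = f' x) (h2 : ∀ x, b (g x) = g' x) : Po f g →* Po f' g' :=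
  lift (inl.comp a) (inr.comp b) (fun x => by
    change inl (a (f x)) = inr (b (g x))
    rw [h1, h2, glue])

end Po

end Pool.Agent.H98.FJ
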