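import Pool.Agent.H98.FJ.P.PoInj

/-!
# Pushouts which act faithfully on the factors through a group in the class

Module H98 PA POMEM (MP_2a547c_gt). Complete proof. Let `C0` be the subgroup `φ (inl (f H)) = φ (inr (g H))` of `Q` and
`k : H →* Q`, `k h = φ (inl (f h)) = φ (inr (g h))` (injective). By `Po.map_injective` (with `a = φ ∘ inl`,
`b = φ ∘ inr`, `f' = g' = k`) the group `Po f g` embeds into `P = Po k k`. So by `hC.of_injective` it suffices that
`P` is in the class. Let `Ω = Q ⧸ C0` (left cosets) with the action of `Q` (`MulAction.toPermHom Q (Q ⧸ C0)`) and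
`S = FreeGroup Ω ⋊[permAct σ] Q`, which is in the class by `semidirect_mem`. Let `e = inl (of (1 : Q ⧸ C0))` in `S`; it
commutes with `inr c` for `c ∈ C0` (`permAct_of`, `c • 1 = 1` in `Q ⧸ C0`). The map `α : P →* S`, `inl q ↦ inr q`,
`inr q ↦ e * inr q * e⁻¹` is well defined on the pushout. Claim: `α` is injective. Let `s : MulAut P` be the swap
(`Po.lift inr inl`, an involution), `D = P ⋊[zpowersHom _ s] Multiplicative ℤ` and `t = inr (ofAdd 1) ∈ D`, so
`t * inl z * t⁻¹ = inl (s z)`. Then `t` commutes with `inl (inl c)` for `c ∈ C0` because `s (inl c) = inr c = inl c`.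
Define `ρ : S →* D` by `SemidirectProduct.lift` from `FreeGroup Ω → D`, `q C0 ↦ inl (inl q) * t * (inl (inl q))⁻¹` (well
defined on cosets, use `Quotient.lift`/`QuotientGroup` induction), and `Q → D`, `q ↦ inl (inl q)` (equivariance on the
basis elements is clear). Then `ρ (α (inl q)) = inl (inl q)` and `ρ (α (inr q)) = t * inl (inl q) * t⁻¹ = inl (inr q)`,
so `ρ ∘ α = SemidirectProduct.inl` (by `Po.hom_ext`), which is injective. Hence `α` is injective.
-/

set_option autoImplicit false

namespace Pool.Agent.H98.FJ.Po

section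

variable {H Q : Type} [Group H] [Group Q] (k : H →* Q)

/-- the swap of the two factors -/
def swapHom : Po k k →* Po k k := lift inr inl (fun x => (glue x).symm)

theorem swapHom_inl (q : Q) : swapHom k (inl q) = inr q := lift_inl _ _ _ q

theorem swapHom_inr (q : Q) : swapHom k (inr q) = inl q := lift_inr _ _ _ q

theorem swapHom_comp : (swapHom k).comp (swapHom k) = MonoidHom.id _ := by
  apply hom_ext
  · intro x
    rw [MonoidHom.comp_apply, swapHom_inl, swapHom_inr, MonoidHom.id_apply]
  · intro x
    rw [MonoidHom.comp_apply, swapHom_inr, swapHom_inl, MonoidHom.id_apply]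

/-- the swap as an automorphism -/
def swapEquiv : MulAut (Po k k) :=
  MonoidHom.toMulEquiv (swapHom k) (swapHom k) (swapHom_comp k) (swapHom_comp k)

theorem swapEquiv_apply (z : Po k k) : swapEquiv k z = swapHom k z := rfl

/-- the double as a semidirect product -/
abbrev DD : Type := Po k k ⋊[zpowersHom (MulAut (Po k k)) (swapEquiv k)] Multiplicative ℤ

/-- the stable letter -/
def tt : DD k := SemidirectProduct.inr (Multiplicative.ofAdd 1)

theorem tt_conj (z : Po k k) :
    tt k * SemidirectProduct.inl z * (tt k)⁻¹ = SemidirectProduct.inl (swapHom k z) := by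
  have h := SemidirectProduct.inl_aut (φ := zpowersHom (MulAut (Po k k)) (swapEquiv k))
    (Multiplicative.ofAdd (1 : ℤ)) z
  have h2 : (zpowersHom (MulAut (Po k k)) (swapEquiv k)) (Multiplicative.ofAdd (1 : ℤ)) =
      swapEquiv k := by
    rw [zpowersHom_apply]
    simp
  rw [h2, swapEquiv_apply, map_inv] at h
  exact h.symm

theorem tt_comm (x : H) :
    tt k * SemidirectProduct.inl (inl (k x)) = SemidirectProduct.inl (inl (k x)) * tt k := by
  have h := tt_conj k (inl (k x))
  rw [swapHom_inl, ← glue] at h
  rw [mul_inv_eq_iff_eq_mul] at h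
  exact h

/-- the images of the cosets -/
def uu (w : Q ⧸ k.range) : DD k :=
  Quotient.liftOn' w (fun q => SemidirectProduct.inl (inl q) * tt k *
    (SemidirectProduct.inl (inl q))⁻¹) (by
      intro a b hab
      rw [QuotientGroup.leftRel_apply] at hab
      obtain ⟨x, hx⟩ := hab
      have hb : b = a * k x := by rw [hx, mul_inv_cancel_left]
      show SemidirectProduct.inl (inl a) * tt k * (SemidirectProduct.inl (inl a))⁻¹ =
        SemidirectProduct.inl (inl b) * tt k * (SemidirectProduct.inl (inl b))⁻¹
      rw [hb, map_mul, map_mul, mul_assoc _ _ (tt k), ← tt_comm]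
      group)

theorem uu_mk (q : Q) : uu k (q : Q ⧸ k.range) =
    SemidirectProduct.inl (inl q) * tt k * (SemidirectProduct.inl (inl q))⁻¹ := rfl

/-- the semidirect product -/
abbrev SS : Type := FreeGroup (Q ⧸ k.range) ⋊[permAct (MulAction.toPermHom Q (Q ⧸ k.range))] Q

/-- the basis element of the trivial coset -/
def ee : SS k := SemidirectProduct.inl (FreeGroup.of ((1 : Q) : Q ⧸ k.range))

theorem ee_comm (x : H) : (SemidirectProduct.inr (k x) : SS k) =
    ee k * SemidirectProduct.inr (k x) * (ee k)⁻¹ := by
  have h := SemidirectProduct.inl_aut (φ := permAct (MulAction.toPermHom Q (Q ⧸ k.range)))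
    (k x) (FreeGroup.of ((1 : Q) : Q ⧸ k.range))
  rw [permAct_of, map_inv] at h
  have h2 : (MulAction.toPermHom Q (Q ⧸ k.range)) (k x) ((1 : Q) : Q ⧸ k.range) =
      ((1 : Q) : Q ⧸ k.range) := by
    show (k x) • ((1 : Q) : Q ⧸ k.range) = _
    rw [MulAction.Quotient.smul_coe, QuotientGroup.eq]
    rw [smul_eq_mul, mul_one, mul_one]
    exact k.range.inv_mem ⟨x, rfl⟩
  rw [h2] at h
  have h3 : ee k = SemidirectProduct.inr (k x) * ee k * (SemidirectProduct.inr (k x))⁻¹ := h
  have h4 : ee k * SemidirectProduct.inr (k x) = SemidirectProduct.inr (k x) * ee k := by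
    rw [eq_mul_inv_iff_mul_eq] at h3
    exact h3
  rw [h4, mul_inv_cancel_right]

/-- the embedding of the double -/
def al : Po k k →* SS k :=
  lift SemidirectProduct.inr ((MulAut.conj (ee k)).toMonoidHom.comp SemidirectProduct.inr)
    (fun x => ee_comm k x)

theorem al_inl (q : Q) : al k (inl q) = SemidirectProduct.inr q := lift_inl _ _ _ q

theorem al_inr (q : Q) : al k (inr q) = ee k * SemidirectProduct.inr q * (ee k)⁻¹ :=
  lift_inr _ _ _ q

/-- the map back -/
def rh : SS k →* DD k :=
  SemidirectProduct.lift (FreeGroup.lift (uu k)) (SemidirectProduct.inl.comp inl) (by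
    intro q
    apply FreeGroup.ext_hom
    intro w
    induction w using QuotientGroup.induction_on with
    | H a =>
      show FreeGroup.lift (uu k) (permAct (MulAction.toPermHom Q (Q ⧸ k.range)) q
        (FreeGroup.of ((a : Q) : Q ⧸ k.range))) = SemidirectProduct.inl (inl q) *
          FreeGroup.lift (uu k) (FreeGroup.of ((a : Q) : Q ⧸ k.range)) *
          (SemidirectProduct.inl (inl q))⁻¹
      rw [permAct_of, FreeGroup.lift_apply_of, FreeGroup.lift_apply_of]
      have h2 : (MulAction.toPermHom Q (Q ⧸ k.range)) q ((a : Q) : Q ⧸ k.range) =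
        ((q * a : Q) : Q ⧸ k.range) := rfl
      rw [h2, uu_mk, uu_mk, map_mul, map_mul]
      group)

theorem rh_ee : rh k (ee k) = tt k := by
  show rh k (SemidirectProduct.inl _) = _
  rw [rh, SemidirectProduct.lift_inl, FreeGroup.lift_apply_of, uu_mk, map_one, map_one]
  group

theorem rh_inr (q : Q) : rh k (SemidirectProduct.inr q) = SemidirectProduct.inl (inl q) := by
  rw [rh, SemidirectProduct.lift_inr]
  rfl

theorem rh_al : (rh k).comp (al k) = SemidirectProduct.inl := by
  apply hom_ext
  · intro q
    rw [MonoidHom.comp_apply, al_inl, rh_inr]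
  · intro q
    rw [MonoidHom.comp_apply, al_inr, map_mul, map_mul, map_inv, rh_ee, rh_inr, tt_conj,
      swapHom_inl]

theorem al_injective : Function.Injective (al k) := by
  have h : Function.Injective ((rh k).comp (al k)) := by
    rw [rh_al]
    exact SemidirectProduct.inl_injective
  have h' : Function.Injective (rh k ∘ al k) := h
  exact Function.Injective.of_comp h'

end

theorem mem {C : (G : Type) → [Group G] → Prop} (hC : Inherits C) (hE : Extension C)
    {H A B Q : Type} [Group H] [Group A] [Group B] [Group Q] {f : H →* A} {g : H →* B}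
    (φ : Po f g →* Q) (hf : Function.Injective f) (hg : Function.Injective g)
    (h1 : Function.Injective (fun x : A => φ (inl x)))
    (h2 : Function.Injective (fun x : B => φ (inr x))) (hQ : C Q) : C (Po f g) := by
  obtain ⟨k, hk⟩ : ∃ k : H →* Q, k = φ.comp (inl.comp f) := ⟨_, rfl⟩
  have hkf : ∀ x, (φ.comp inl) (f x) = k x := by
    intro x
    rw [hk]
    rfl
  have hkg : ∀ x, (φ.comp inr) (g x) = k x := by
    intro x
    rw [hk]
    show φ (inr (g x)) = φ (inl (f x))
    rw [glue]
  have hki : Function.Injective k := by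
    intro x y hxy
    rw [← hkf, ← hkf] at hxy
    exact hf (h1 hxy)
  have hmap := map_injective (φ.comp inl) (φ.comp inr) hkf hkg h1 h2 hki hki
  apply hC.of_injective _ hmap
  apply hC.of_injective _ (al_injective k)
  exact semidirect_mem hC hE _ hQ

end Pool.Agent.H98.FJ.Po
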