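import Pool.Agent.H98.FJ.P.Fa

/-!
# Realized arrows in self-similar groups
-/

set_option autoImplicit false
set_option linter.unusedSectionVars false

namespace Pool.Agent.H98.FJ

variable {X L M N : Type} [Group L] [Group M] [Group N]

/-- the functor `b` realizes the formal arrows in the self-similar group `M` -/
def Realizes (psi : M →* Wr M X) (j : L → M) (b : (ℕ → X) → (ℕ → Wr L X) → M) : Prop :=
  ∀ ξ g, IsAr ξ g → psi (b ξ g) = PsiA j b ξ g

variable {psi : M →* Wr M X} {j : L → M} {b : (ℕ → X) → (ℕ → Wr L X) → M}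

theorem Realizes.secw_pre (h : Realizes psi j b) {ξ : ℕ → X} {g : ℕ → Wr L X} (hg : IsAr ξ g)
    (n : ℕ) : secw psi (pre ξ n) (b ξ g) = b (sh ξ n) (sg g n) := by
  induction n generalizing ξ g with
  | zero => rw [pre_zero, secw_nil, sh_zero, sg_zero]
  | succ n ih =>
    rw [pre_succ, secw_cons, h ξ g hg, PsiA_sec_on, ← sh_one, ih (hg.sg 1), sh_sh, sg_sg,
      Nat.add_comm 1 n]

theorem Realizes.secw_off (h : Realizes psi j b) {ξ : ℕ → X} {g : ℕ → Wr L X} (hg : IsAr ξ g)
    (n : ℕ) {x : X} (hx : x ≠ ξ n) : secw psi (pre ξ n ++ [x]) (b ξ g) = j ((g n).sec x) := by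
  rw [secw_append, h.secw_pre hg, secw_cons, secw_nil, h _ _ (hg.sg n)]
  have h1 : x ≠ sh ξ n 0 := by simpa [sh] using hx
  rw [PsiA_sec_off _ _ _ _ h1]
  rfl

theorem Realizes.port_pre (h : Realizes psi j b) {ξ : ℕ → X} {g : ℕ → Wr L X} (hg : IsAr ξ g)
    (n : ℕ) : portf psi (b ξ g) (pre ξ n) = (g n).perm := by
  change (psi (secw psi (pre ξ n) (b ξ g))).perm = _
  rw [h.secw_pre hg, h _ _ (hg.sg n)]
  rfl

/-- morphisms of self-similar groups preserve sections -/
theorem secw_mor {psi' : N →* Wr N X} {f : M →* N} (h : ∀ m, psi' (f m) = Wr.map f (psi m))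
    (v : List X) (m : M) : secw psi' v (f m) = f (secw psi v m) := by
  induction v generalizing m with
  | nil => rfl
  | cons x v ih =>
    rw [secw_cons, secw_cons, h]
    exact ih _

/-- morphisms of self-similar groups preserve portraits -/
theorem portf_mor {psi' : N →* Wr N X} {f : M →* N} (h : ∀ m, psi' (f m) = Wr.map f (psi m))
    (m : M) : portf psi' (f m) = portf psi m := by
  funext v
  change (psi' (secw psi' v (f m))).perm = _
  rw [secw_mor h, h]
  rfl

theorem portf_apply (psi : M →* Wr M X) (m : M) (v : List X) :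
    portf psi m v = (psi (secw psi v m)).perm := rfl

end Pool.Agent.H98.FJ
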