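import Pool.Agent.H98.FJ.P.Good

/-!
# The induction step: the class of good algebras over the next group
-/

set_option autoImplicit false
set_option linter.unusedSectionVars false

namespace Pool.Agent.H98.FJ

variable {X Q P : Type} [Group Q] [Group P] {psiQ : Q →* Wr Q X} (E : PAlg psiQ P)
  {L M : Type} [Group L] [Group M]

/-- an algebra over `P` as an algebra over `Q` -/
def PAlg.restr (A : PAlg E.psi L) : PAlg psiQ L where
  psi := A.psi
  iota := A.iota.comp E.iota
  lam := fun ξ g => A.iota (E.lam ξ g)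
  inj := A.inj.comp E.inj
  fn := E.fn.comp A.iota
  psi_iota := fun q => by
    change A.psi (A.iota (E.iota q)) = _
    rw [A.psi_iota, E.psi_iota]
    rfl
  psi_lam := fun ξ g hg => by
    rw [A.psi_iota, E.psi_lam ξ g hg, map_PsiA]
    rfl

variable {E} in
theorem Mor.restr {A : PAlg E.psi L} {B : PAlg E.psi M} {f : L →* M} (h : Mor A B f) :
    Mor (PAlg.restr E A) (PAlg.restr E B) f :=
  ⟨h.psi, fun _ => h.iota _, fun _ _ _ => h.iota _⟩

/-- the structure map of an algebra over `P` as a morphism of algebras over `Q` -/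
theorem PAlg.mor_iota (A : PAlg E.psi L) : Mor E (PAlg.restr E A) A.iota :=
  ⟨fun p => A.psi_iota p, fun _ => rfl, fun _ _ _ => rfl⟩

variable [Finite X] (ξ0 : ℕ → X)

/-- the amalgam of an algebra over `Q` which receives `P`, as an algebra over `P` -/
noncomputable def PAlg.ZP {A : PAlg psiQ L} {k : P →* L} (hk : Mor E A k)
    (hinj : Function.Injective k) : PAlg E.psi (A.Z ξ0) where
  psi := A.psiZ ξ0
  iota := (Po.inl : L →* A.Z ξ0).comp k
  lam := fun ξ g => A.br ξ0 ξ (mp k g)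
  inj := (A.Z_inl_injective ξ0).comp hinj
  fn := (A.br_fn ξ0).pre k
  psi_iota := fun p => by
    change A.psiZ ξ0 (Po.inl (k p)) = _
    rw [PAlg.psiZ_inl, hk.psi]
    rfl
  psi_lam := fun ξ g hg => by
    rw [A.psiZ_br ξ0 (hg.mp k), PsiA_mp]
    rfl

theorem Mor.ZP {A : PAlg psiQ L} {k : P →* L} (hk : Mor E A k)
    (hinj : Function.Injective k) {B : PAlg psiQ M} {k' : P →* M} (hk' : Mor E B k')
    (hinj' : Function.Injective k') {f : L →* M} (h : Mor A B f) (hf : ∀ p, f (k p) = k' p) :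
    Mor (PAlg.ZP E ξ0 hk hinj) (PAlg.ZP E ξ0 hk' hinj') (h.Zmap ξ0) := by
  refine ⟨fun z => h.Zmap_psi ξ0 z, fun p => ?_, fun ξ g hg => ?_⟩
  · change h.Zmap ξ0 (Po.inl (k p)) = Po.inl (k' p)
    rw [h.Zmap_inl, hf]
  · change h.Zmap ξ0 (A.br ξ0 ξ (mp k g)) = B.br ξ0 ξ (mp k' g)
    rw [h.Zmap_br ξ0 ξ _ (hg.mp k), mp_mp, show f.comp k = k' from MonoidHom.ext hf]

variable (hP : Function.Injective E.psi)

/-- the operation `Theta` -/
noncomputable def PAlg.theta (A : PAlg E.psi L) : PAlg E.psi (Wr ((PAlg.restr E A).Z ξ0) X) :=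
  (PAlg.ZP E ξ0 (PAlg.mor_iota E A) A.inj).thick hP

/-- the map of `Theta` induced by a morphism -/
def Mor.thMap {A : PAlg E.psi L} {B : PAlg E.psi M} {f : L →* M} (h : Mor A B f) :
    Wr ((PAlg.restr E A).Z ξ0) X →* Wr ((PAlg.restr E B).Z ξ0) X :=
  Wr.map (h.restr.Zmap ξ0)

theorem Mor.theta {A : PAlg E.psi L} {B : PAlg E.psi M} {f : L →* M} (h : Mor A B f) :
    Mor (PAlg.theta E ξ0 hP A) (PAlg.theta E ξ0 hP B) (h.thMap E ξ0) :=
  (Mor.ZP E ξ0 _ _ _ _ h.restr h.iota).thick hP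

theorem Mor.thMap_injective {A : PAlg E.psi L} {B : PAlg E.psi M} {f : L →* M} (h : Mor A B f)
    (hf : Function.Injective f) : Function.Injective (h.thMap E ξ0) :=
  Wr.map_injective (h.restr.Zmap_injective ξ0 hf)

/-- bundled algebras -/
structure BA {P X : Type} [Group P] (psiP : P →* Wr P X) where
  L : Type
  grp : Group L
  alg : PAlg psiP L

attribute [instance] BA.grp

/-- the first algebra -/
noncomputable def PAlg.base : PAlg E.psi (Wr (E.Z ξ0) X) :=
  (PAlg.ZP E ξ0 (Mor.id E) (fun _ _ h => h)).thick hP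

/-- the sequence of algebras -/
noncomputable def sq : ℕ → BA E.psi
  | 0 => ⟨_, inferInstance, PAlg.base E ξ0 hP⟩
  | n + 1 => ⟨_, inferInstance, PAlg.theta E ξ0 hP (sq n).alg⟩

/-- the steps of the sequence -/
noncomputable def sqStep : ∀ n, {f : (sq E ξ0 hP n).L →* (sq E ξ0 hP (n + 1)).L //
    Mor (sq E ξ0 hP n).alg (sq E ξ0 hP (n + 1)).alg f ∧ Function.Injective f}
  | 0 => ⟨Wr.map ((PAlg.mor_iota E (PAlg.base E ξ0 hP)).Zmap ξ0),
      (Mor.ZP E ξ0 (Mor.id E) (fun _ _ h => h) (PAlg.mor_iota E (PAlg.base E ξ0 hP))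
        (PAlg.base E ξ0 hP).inj (PAlg.mor_iota E (PAlg.base E ξ0 hP)) (fun _ => rfl)).thick hP,
      Wr.map_injective (Mor.Zmap_injective _ ξ0 (PAlg.base E ξ0 hP).inj)⟩
  | n + 1 => ⟨(sqStep n).2.1.thMap E ξ0, (sqStep n).2.1.theta E ξ0 hP,
      (sqStep n).2.1.thMap_injective E ξ0 (sqStep n).2.2⟩

theorem tr_mor {psiP : P →* Wr P X} {G : ℕ → Type} [∀ i, Group (G i)] (A : ∀ i, PAlg psiP (G i))
    (step : ∀ i, G i →* G (i + 1)) (hs : ∀ i, Mor (A i) (A (i + 1)) (step i)) (i j : ℕ)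
    (h : i ≤ j) : Mor (A i) (A j) (tr step i j h) := by
  induction j, h using Nat.le_induction with
  | base =>
    have : tr step i i le_rfl = MonoidHom.id (G i) := MonoidHom.ext fun x => tr_self step i _ x
    rw [this]
    exact Mor.id _
  | succ j hij ih =>
    have : tr step i (j + 1) (by omega) = (step j).comp (tr step i j hij) :=
      MonoidHom.ext fun x => tr_succ step i j hij _ x
    rw [this]
    exact (hs j).comp ih

theorem tr_inj {G : ℕ → Type} [∀ i, Group (G i)]
    (step : ∀ i, G i →* G (i + 1)) (hs : ∀ i, Function.Injective (step i)) (i j : ℕ)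
    (h : i ≤ j) : Function.Injective (tr step i j h) := by
  induction j, h using Nat.le_induction with
  | base =>
    intro a b hab
    rw [tr_self, tr_self] at hab
    exact hab
  | succ j hij ih =>
    intro a b hab
    rw [tr_succ step i j hij, tr_succ step i j hij] at hab
    exact ih (hs j hab)

/-- the colimit of algebras is an algebra -/
theorem exists_colim_alg {psiP : P →* Wr P X} {ι : Type} [Preorder ι] {G : ι → Type}
    [∀ i, Group (G i)] (A : ∀ i, PAlg psiP (G i)) {f : ∀ i j, i ≤ j → (G i →* G j)}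
    (hf : ∀ i j h, Mor (A i) (A j) (f i j h)) {M : Type} [Group M] {φ : ∀ i, G i →* M}
    (h : IsColimit f φ) (hinj : ∀ i, Function.Injective (φ i)) :
    ∃ B : PAlg psiP M, ∀ i, Mor (A i) B (φ i) := by
  obtain ⟨i0⟩ := h.nonempty
  obtain ⟨psi, hpsi⟩ := h.exists_lift (fun i => (Wr.map (φ i)).comp (A i).psi) (by
    intro i j hij x
    change Wr.map (φ j) ((A j).psi (f i j hij x)) = Wr.map (φ i) ((A i).psi x)
    rw [(hf i j hij).psi]
    exact Wr.ext (funext fun y => h.compat i j hij _) rfl)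
  have hpsi' : ∀ i x, psi (φ i x) = Wr.map (φ i) ((A i).psi x) := hpsi
  have hio : ∀ i p, φ i ((A i).iota p) = φ i0 ((A i0).iota p) := by
    intro i p
    obtain ⟨k, hik, h0k⟩ := h.directed i i0
    rw [← h.compat i k hik, ← h.compat i0 k h0k, (hf i k hik).iota, (hf i0 k h0k).iota]
  have hla : ∀ i ξ g, IsAr ξ g → φ i ((A i).lam ξ g) = φ i0 ((A i0).lam ξ g) := by
    intro i ξ g hg
    obtain ⟨k, hik, h0k⟩ := h.directed i i0
    rw [← h.compat i k hik, ← h.compat i0 k h0k, (hf i k hik).lam ξ g hg,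
      (hf i0 k h0k).lam ξ g hg]
  refine ⟨{ psi := psi
            iota := (φ i0).comp (A i0).iota
            lam := fun ξ g => φ i0 ((A i0).lam ξ g)
            inj := (hinj i0).comp (A i0).inj
            fn := (A i0).fn.comp (φ i0)
            psi_iota := fun p => ?_
            psi_lam := fun ξ g hg => ?_ }, fun i => ⟨fun l => hpsi' i l, fun p => hio i p,
              fun ξ g hg => hla i ξ g hg⟩⟩
  · change psi (φ i0 ((A i0).iota p)) = _
    rw [hpsi', (A i0).psi_iota]
    rfl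
  · rw [hpsi', (A i0).psi_lam ξ g hg, map_PsiA]
    rfl

variable {C : (G : Type) → [Group G] → Prop}

/-- the algebras of the sequence belong to the class over `Q` -/
theorem sq_GG (hC : Inherits C) (hE : Extension C) (hQ : Function.Injective psiQ)
    (h : GG C psiQ P E) (n : ℕ) :
    GG C psiQ (sq E ξ0 hP n).L (PAlg.restr E (sq E ξ0 hP n).alg) := by
  induction n with
  | zero =>
    have h1 := (h.Z hC hE ξ0).thick hC hQ
    refine GG.sub _ _ _ _ (MonoidHom.id _) ?_ (fun _ _ h => h) h1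
    exact ⟨fun _ => rfl, fun _ => rfl, fun _ _ _ => rfl⟩
  | succ n ih =>
    have h1 := (ih.Z hC hE ξ0).thick hC hQ
    refine GG.sub _ _ _ _ (MonoidHom.id _) ?_ (fun _ _ h => h) h1
    exact ⟨fun _ => rfl, fun _ => rfl, fun _ _ _ => rfl⟩

/-- the induction step -/
theorem step_GG (hC : Inherits C) (hE : Extension C) (hQ : Function.Injective psiQ)
    (h : GG C psiQ P E) : GG C E.psi (Wr (E.Z ξ0) X) (PAlg.base E ξ0 hP) := by
  let step : ∀ n, (sq E ξ0 hP n).L →* (sq E ξ0 hP (n + 1)).L := fun n => (sqStep E ξ0 hP n).1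
  have hstep : ∀ n, Mor (sq E ξ0 hP n).alg (sq E ξ0 hP (n + 1)).alg (step n) :=
    fun n => (sqStep E ξ0 hP n).2.1
  have hsinj : ∀ n, Function.Injective (step n) := fun n => (sqStep E ξ0 hP n).2.2
  obtain ⟨U, _, δ, hU⟩ := exists_seq step
  have hδ : ∀ i, Function.Injective (δ i) := hU.injective (tr_inj step hsinj)
  have htr := tr_mor (fun i => (sq E ξ0 hP i).alg) step hstep
  obtain ⟨B, hB⟩ := exists_colim_alg (fun i => (sq E ξ0 hP i).alg) htr hU hδ
  have hδs : ∀ i x, δ (i + 1) (step i x) = δ i x := by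
    intro i x
    have h1 := hU.compat i (i + 1) (Nat.le_succ i) x
    rw [tr_succ step i i le_rfl, tr_self] at h1
    exact h1
  -- the map from `Theta U` to `U`
  have hcol := Wr.isColimit (X := X) (Z_isColimit (fun i j h => (htr i j h).restr) (fun i => (hB i).restr)
    hU ξ0)
  obtain ⟨ρ, hρ⟩ := hcol.exists_lift (K := U) (fun i => δ (i + 1)) (by
    intro i j hij
    induction j, hij using Nat.le_induction with
    | base =>
      intro x
      have h1 := hcol.map_id i le_rfl x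
      exact congrArg (δ (i + 1)) h1
    | succ j hij ih =>
      intro x
      have h1 := hcol.map_comp i j (j + 1) hij (Nat.le_succ j) (by omega) x
      have h2 : ∀ y, Wr.map ((htr j (j + 1) (Nat.le_succ j)).restr.Zmap ξ0) y = step (j + 1) y := by
        intro y
        refine Wr.ext (funext fun v => ?_) rfl
        change (htr j (j + 1) (Nat.le_succ j)).restr.Zmap ξ0 (y.sec v) =
          (hstep j).restr.Zmap ξ0 (y.sec v)
        have h3 : tr step j (j + 1) (Nat.le_succ j) = step j := by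
          refine MonoidHom.ext fun z => ?_
          rw [tr_succ step j j le_rfl, tr_self]
        congr 2
      exact ((congrArg (δ (j + 1 + 1)) h1.symm).trans
        ((congrArg (δ (j + 1 + 1)) (h2 _)).trans (hδs (j + 1) _))).trans (ih x))
  have hρ' : ∀ i x, ρ ((hB i).thMap E ξ0 x) = δ (i + 1) x := hρ
  have hio : ∀ p, ρ ((PAlg.theta E ξ0 hP B).iota p) = B.iota p := by
    intro p
    rw [← ((hB 0).theta E ξ0 hP).iota p, hρ']
    exact (hB 1).iota p
  have hla : ∀ ξ g, IsAr ξ g → ρ ((PAlg.theta E ξ0 hP B).lam ξ g) = B.lam ξ g := by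
    intro ξ g hg
    rw [← ((hB 0).theta E ξ0 hP).lam ξ g hg, hρ']
    exact (hB 1).lam ξ g hg
  have hgood : Good C B := by
    refine ⟨?_, ⟨fun ξ g => ρ ((PAlg.restr E B).psiZ ξ0 ((PAlg.restr E B).br ξ0 ξ g)), ?_, ?_⟩,
      ⟨ρ.comp (Wr.map (Po.inl : U →* (PAlg.restr E B).Z ξ0)), fun p => ?_⟩⟩
    · exact hC.colim ℕ _ _ U δ hU fun i => (sq_GG E ξ0 hP hC hE hQ h i).mem hC
    · exact (((PAlg.restr E B).br_fn ξ0).comp _).comp ρ
    · intro ξ g hg
      exact hla ξ g hg
    · rw [← hio p]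
      change ρ (Wr.map (Po.inl : U →* (PAlg.restr E B).Z ξ0) (Wr.map B.iota (E.psi p))) =
        ρ ((PAlg.restr E B).psiZ ξ0 (Po.inl (B.iota p)))
      rw [PAlg.psiZ_inl, ← B.psi_iota]
      rfl
  exact GG.sub _ _ _ _ (δ 0) (hB 0) (hδ 0) (GG.good _ _ hgood)

end Pool.Agent.H98.FJ
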