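import Pool.Agent.H98.FJ.P.Fun
import Pool.Agent.H98.FJ.P.Real
import Pool.Agent.H98.FJ.P.PoMem

/-!
# The amalgam is in the class if there is a retraction onto the algebra
-/

set_option autoImplicit false
set_option linter.unusedSectionVars false

namespace Pool.Agent.H98.FJ

variable {X P : Type} [Group P] {psiP : P →* Wr P X} {L : Type} [Group L]

/-- the formal arrows which are constant on the classes of a finite set of formal arrows -/
def Hs {ξ0 : ℕ → X} (s : Finset (Iso L ξ0)) : Subgroup (Iso L ξ0) where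
  carrier := {g | ∀ n m, (∀ h ∈ s, h.1 n = h.1 m) → g.1 n = g.1 m}
  mul_mem' := by
    intro a b ha hb n m h
    change a.1 n * b.1 n = a.1 m * b.1 m
    rw [ha n m h, hb n m h]
  one_mem' := fun _ _ _ => rfl
  inv_mem' := by
    intro a ha n m h
    change (a.1 n)⁻¹ = (a.1 m)⁻¹
    rw [ha n m h]

theorem mem_Hs {ξ0 : ℕ → X} {s : Finset (Iso L ξ0)} {g : Iso L ξ0} :
    g ∈ Hs s ↔ ∀ n m, (∀ h ∈ s, h.1 n = h.1 m) → g.1 n = g.1 m := Iff.rfl

theorem Hs_mono {ξ0 : ℕ → X} {s t : Finset (Iso L ξ0)} (h : s ≤ t) : Hs s ≤ Hs t :=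
  fun _ hg n m hnm => hg n m (fun k hk => hnm k (h hk))

/-- finitely many classes -/
theorem exists_reps {ξ0 : ℕ → X} (s : Finset (Iso L ξ0)) :
    ∃ K : ℕ, ∀ n, ∃ m, m < K ∧ ∀ h ∈ s, h.1 n = h.1 m := by
  classical
  have h1 : (Set.range fun (n : ℕ) (h : s) => h.1.1 n).Finite := by
    refine (Set.Finite.pi (ι := s) (t := fun h => Set.range h.1.1) fun h => h.1.2.1.fin).subset ?_
    rintro _ ⟨n, rfl⟩
    intro h _
    exact ⟨n, rfl⟩
  let T : Finset ℕ := h1.toFinset.image
    (fun c => Classical.epsilon fun n : ℕ => (fun h : s => h.1.1 n) = c)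
  refine ⟨T.sup id + 1, fun n => ?_⟩
  refine ⟨Classical.epsilon fun k : ℕ => (fun h : s => h.1.1 k) = (fun h : s => h.1.1 n), ?_, ?_⟩
  · have h2 : (Classical.epsilon fun k : ℕ => (fun h : s => h.1.1 k) = (fun h : s => h.1.1 n)) ∈ T := by
      refine Finset.mem_image.2 ⟨_, ?_, rfl⟩
      rw [Set.Finite.mem_toFinset]
      exact ⟨n, rfl⟩
    have h3 := Finset.le_sup (f := id) h2
    simp only [id] at h3
    omega
  · intro h hh
    have h2 := Classical.epsilon_spec (p := fun k : ℕ => (fun h : s => h.1.1 k) =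
      (fun h : s => h.1.1 n)) ⟨n, rfl⟩
    exact (congrFun h2 ⟨h, hh⟩).symm

variable [Finite X] (A : PAlg psiP L) (ξ0 : ℕ → X)

theorem PAlg.br_realizes : Realizes (A.psiZ ξ0) (Po.inl : L →* A.Z ξ0) (A.br ξ0) :=
  fun _ _ hg => A.psiZ_br ξ0 hg


/-- the amalgam is in the class -/
theorem PAlg.Z_mem {C : (G : Type) → [Group G] → Prop} (hC : Inherits C) (hE : Extension C)
    (hL : C L) (φ : A.Z ξ0 →* L) (hφ : ∀ l, φ (Po.inl l) = l) : C (A.Z ξ0) := by
  classical
  -- the base groups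
  let Cs : Finset (Iso L ξ0) → Subgroup (Iso P ξ0) := fun s => (Hs s).comap (isoMap A.iota ξ0)
  have hdir : ∀ s t : Finset (Iso L ξ0), ∃ u, s ≤ u ∧ t ≤ u := fun s t =>
    ⟨s ∪ t, Finset.subset_union_left, Finset.subset_union_right⟩
  have hH : ∀ g : Iso L ξ0, ∃ s : Finset (Iso L ξ0), g ∈ Hs s := fun g =>
    ⟨{g}, fun n m h => h g (Finset.mem_singleton_self g)⟩
  have hCs : ∀ c : Iso P ξ0, ∃ s, c ∈ Cs s := fun c => hH (isoMap A.iota ξ0 c)
  let p : ∀ s, Cs s →* L := fun s => (A.isoLam ξ0).comp (Cs s).subtype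
  let q : ∀ s, Cs s →* Hs s := fun s => (isoMap A.iota ξ0).subgroupComap (Hs s)
  let F : ∀ s t : Finset (Iso L ξ0), s ≤ t → (Po (p s) (q s) →* Po (p t) (q t)) := fun s t h =>
    Po.lift Po.inl (Po.inr.comp (Subgroup.inclusion (Hs_mono h))) (fun x =>
      Po.glue (f := p t) (g := q t) (Subgroup.inclusion (Subgroup.comap_mono (Hs_mono h)) x))
  let Φ : ∀ s : Finset (Iso L ξ0), Po (p s) (q s) →* A.Z ξ0 := fun s =>
    Po.lift Po.inl (Po.inr.comp (Hs s).subtype) (fun x => A.Z_glue ξ0 x.1)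
  have hcol : IsColimit F Φ :=
    Po.isColimit (isColimit_union hdir Cs (fun s t h => Subgroup.comap_mono (Hs_mono h)) hCs)
      (isColimit_const _ hdir L) (isColimit_union hdir Hs (fun s t h => Hs_mono h) hH)
      p q (A.isoLam ξ0) (isoMap A.iota ξ0) (fun _ _ => rfl) (fun _ _ => rfl)
      F (fun _ _ _ x => Po.lift_inl _ _ _ x) (fun _ _ _ x => Po.lift_inr _ _ _ x)
      Φ (fun _ x => Po.lift_inl _ _ _ x) (fun _ x => Po.lift_inr _ _ _ x)
  refine hC.colim _ _ F _ Φ hcol fun s => ?_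
  obtain ⟨K, hK⟩ := exists_reps s
  have hfin : ∀ n, Finite {v : List X // v.length = n} := fun n =>
    (List.finite_length_eq X n).to_subtype
  let θ : A.Z ξ0 →* (∀ i : Fin (K + 1), Wr L {v : List X // v.length = i.1}) :=
    MonoidHom.pi (fun i => (Wr.map φ).comp (levW (A.psiZ ξ0) i.1))
  refine Po.mem hC hE (θ.comp (Φ s)) ?_ ?_ ?_ ?_
    (hC.pi _ inferInstance _ fun i => Wr.mem hC hL)
  · intro a b h
    exact Subtype.ext (A.isoLam_injective ξ0 h)
  · intro a b h
    exact Subtype.ext (isoMap_injective A.inj ξ0 (congrArg Subtype.val h))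
  · intro a b h
    have h1 : θ (Po.inl a) = θ (Po.inl b) := by
      have h2 : θ (Φ s (Po.inl a)) = θ (Φ s (Po.inl b)) := h
      rw [Po.lift_inl, Po.lift_inl] at h2
      exact h2
    have h2 := congrFun h1 ⟨0, Nat.succ_pos K⟩
    have h3 := congrArg (fun c : Wr L {v : List X // v.length = 0} => c.sec ⟨[], rfl⟩) h2
    have h4 : φ (Po.inl a) = φ (Po.inl b) := h3
    rw [hφ, hφ] at h4
    exact h4
  · -- injectivity on the second factor
    have hinj : ∀ g : Hs s, θ (Po.inr g.1) = 1 → g = 1 := by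
      intro g hg
      apply Subtype.ext
      apply Subtype.ext
      have hm : ∀ m, m < K → g.1.1 m = 1 := by
        intro m hm
        have h2 := congrFun hg ⟨m + 1, by omega⟩
        have h3 : ∀ v : List X, v.length = m + 1 → φ (secw (A.psiZ ξ0) v (Po.inr g.1)) = 1 :=
          fun v hv => congrArg (fun c : Wr L {v : List X // v.length = m + 1} => c.sec ⟨v, hv⟩) h2
        have h4 : ∀ v : List X, v.length = m + 1 →
            TA.act v (portf (A.psiZ ξ0) (Po.inr g.1)) = v := fun v hv =>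
          congrArg (fun c : Wr L {v : List X // v.length = m + 1} => (c.perm ⟨v, hv⟩).1) h2
        rw [← A.br_iso ξ0 g.1] at h3 h4
        refine Wr.ext (funext fun x => ?_) (Equiv.ext fun x => ?_)
        · by_cases hx : x = ξ0 m
          · subst hx
            exact g.1.2.1.nrm m
          · have h5 := h3 (pre ξ0 m ++ [x]) (by rw [List.length_append, length_pre]; rfl)
            rw [(A.br_realizes ξ0).secw_off g.1.2.1 m hx, hφ] at h5
            exact h5
        · have h5 := h4 (pre ξ0 m ++ [x]) (by rw [List.length_append, length_pre]; rfl)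
          rw [TA.act_append] at h5
          have h6 := (List.append_inj h5 (TA.length_act _ _)).2
          rw [TA.act_cons] at h6
          have h7 := (List.cons.inj h6).1
          rw [TA.sec_apply, List.append_nil, (A.br_realizes ξ0).port_pre g.1.2.1 m] at h7
          exact h7
      funext n
      obtain ⟨m, h1, h2⟩ := hK n
      have h3 := g.2 n m h2
      rw [h3]
      exact hm m h1
    intro a b h
    have h1 : θ (Po.inr a.1) = θ (Po.inr b.1) := by
      have h2 : θ (Φ s (Po.inr a)) = θ (Φ s (Po.inr b)) := h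
      rw [Po.lift_inr, Po.lift_inr] at h2
      exact h2
    have h2 : θ (Po.inr (a * b⁻¹ : Hs s).1) = 1 := by
      change θ (Po.inr (a.1 * b.1⁻¹)) = 1
      rw [map_mul, map_inv, map_mul, map_inv, h1, mul_inv_cancel]
    exact mul_inv_eq_one.1 (hinj _ h2)

end Pool.Agent.H98.FJ
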